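import Pool.Agent.Lib.MP_0775d3_lc.Zf.Chain

/-! Project ZF: the class of groups, and coarse chains. -/

set_option linter.unusedSectionVars false
set_option linter.unusedVariables false

namespace MP0775d3.Zf

open MP0775d3.Ox

/-- `G` has a chain of `k` subgroups, down to the trivial group, each of index at most `b` or normal of
prime index in the one before. -/
def PCh (b : ℝ) : ℕ → ∀ (G : Type) [Group G], Prop
  | 0, G, _ => Subsingleton G
  | k + 1, G, _ => ∃ H : Subgroup G, ((H.index : ℝ) ≤ b ∨ (H.Normal ∧ H.index.Prime)) ∧ PCh b k H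

private theorem cn_le {b : ℝ} (hb : 1 ≤ b) {G : Type} [Group G] [Finite G] {s t : ℕ} (h : s ≤ t)
    (hs : Cn b s G) : Cn b t G := by
  induction h with
  | refl => exact hs
  | step _ ih => exact Cn.succ hb ih

/-- PROOF. Induction on `K`, then on `k` (for all `H`, `G`). `k = 0`: `|G|` is the index of the trivial group, `≤ b ≤ b ^ 2`:
`Cn (b ^ 2) 0 G`, then `Cn.succ`. `k + 1`: `Y ≤ H` the first subgroup, `ι' = ι.comp Y.subtype` (`index_comp`). If
`ι'.range.index ≤ b`: the hypothesis for `k`. Else `b * |Y| < |G| ≤ b ^ K` (`Subgroup.card_mul_index`), so `K ≠ 0` (if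
`K = 0` then `|G| ≤ 1`) and `|Y| ≤ b ^ (K - 1)`, and the hypothesis for `K - 1`, `Y → Y` the identity gives
`Cn (b ^ 2) (2 * (K - 1) + 1) Y`. If `Y.index ≤ b` then `ι'` has index at most `b ^ 2`: one step, `Cn.succ`. If `Y` is normal of
prime index in `H`: two steps, `Y → H → G`. -/
theorem coarse {b : ℝ} (hb : 1 ≤ b) (K : ℕ) : ∀ (k : ℕ) (H : Type) [Group H], PCh b k H →
    ∀ (G : Type) [Group G] [Finite G] (ι : H →* G), Function.Injective ι →
      (ι.range.index : ℝ) ≤ b → (Nat.card G : ℝ) ≤ b ^ K → Cn (b ^ 2) (2 * K + 1) G := by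
  have hb2 : (1 : ℝ) ≤ b ^ 2 := one_le_pow₀ hb
  have hbb : b ≤ b ^ 2 := by nlinarith
  induction K using Nat.strong_induction_on with
  | _ K ihK =>
  intro k
  induction k with
  | zero =>
    intro H _ hH G _ _ ι hι hidx hcard
    have hsub : Subsingleton H := hH
    have hr : ι.range = ⊥ := by
      rw [eq_bot_iff]
      rintro _ ⟨x, rfl⟩
      rw [Subsingleton.elim x 1, map_one]
      exact Subgroup.mem_bot.2 rfl
    rw [hr, Subgroup.index_bot] at hidx
    have h0 : Cn (b ^ 2) 0 G := hidx.trans hbb
    exact cn_le hb2 (Nat.zero_le _) h0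
  | succ k ih =>
    rintro H _ ⟨Y, hstep, hY⟩ G _ _ ι hι hidx hcard
    have : Finite H := Finite.of_injective ι hι
    have hinj : Function.Injective (ι.comp Y.subtype) := hι.comp Y.subtype_injective
    have hidx' : (ι.comp Y.subtype).range.index = ι.range.index * Y.index := by
      rw [index_comp Y.subtype ι hι, Subgroup.range_subtype]
    by_cases hle : ((ι.comp Y.subtype).range.index : ℝ) ≤ b
    · exact ih Y hY G (ι.comp Y.subtype) hinj hle hcard
    · rw [not_le] at hle
      have e1 : Nat.card Y = Nat.card (ι.comp Y.subtype).range :=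
        Nat.card_congr (MonoidHom.ofInjective hinj).toEquiv
      have e2 := Subgroup.card_mul_index (ι.comp Y.subtype).range
      rw [← e1] at e2
      have e3 : (Nat.card Y : ℝ) * ((ι.comp Y.subtype).range.index : ℝ) = Nat.card G := by
        exact_mod_cast e2
      have hY1 : (1 : ℝ) ≤ Nat.card Y := by
        exact_mod_cast (Nat.card_pos : 0 < Nat.card Y)
      have e4 : (Nat.card Y : ℝ) * b < b ^ K := by
        calc (Nat.card Y : ℝ) * b < (Nat.card Y : ℝ) * ((ι.comp Y.subtype).range.index : ℝ) :=
              mul_lt_mul_of_pos_left hle (by linarith)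
          _ = Nat.card G := e3
          _ ≤ b ^ K := hcard
      have hK0 : K ≠ 0 := by
        intro h0
        rw [h0, pow_zero] at e4
        nlinarith
      obtain ⟨K', rfl⟩ := Nat.exists_eq_succ_of_ne_zero hK0
      have e5 : (Nat.card Y : ℝ) ≤ b ^ K' := by
        rw [Nat.succ_eq_add_one, pow_succ] at e4
        exact (lt_of_mul_lt_mul_right e4 (by linarith)).le
      have e6 : ((MonoidHom.id Y).range.index : ℝ) ≤ b := by
        rw [MonoidHom.range_eq_top.2 Function.surjective_id, Subgroup.index_top]
        exact_mod_cast hb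
      have hC : Cn (b ^ 2) (2 * K' + 1) Y :=
        ihK K' (Nat.lt_succ_self _) k Y hY Y (MonoidHom.id Y) Function.injective_id e6 e5
      have h3 : 2 * (Nat.succ K') + 1 = (2 * K' + 1) + 1 + 1 := by
        rw [Nat.succ_eq_add_one]
        ring
      rw [h3]
      rcases hstep with h | ⟨hn, hp⟩
      · have e7 : ((ι.comp Y.subtype).range.index : ℝ) ≤ b ^ 2 := by
          rw [hidx', Nat.cast_mul, pow_two]
          exact mul_le_mul hidx h (Nat.cast_nonneg _) (by linarith)
        exact Cn.succ hb2 ⟨Y, inferInstance, inferInstance, ι.comp Y.subtype, ⟨hinj, Or.inl e7⟩, hC⟩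
      · refine ⟨H, inferInstance, inferInstance, ι, ⟨hι, Or.inl (hidx.trans hbb)⟩,
          ⟨Y, inferInstance, inferInstance, Y.subtype, ⟨Y.subtype_injective, Or.inr ?_⟩, hC⟩⟩
        rw [Subgroup.range_subtype]
        exact ⟨hn, hp⟩

/-- PROOF. Induction on `k`. -/
theorem PCh.mono {b b' : ℝ} (h : b ≤ b') (k : ℕ) : ∀ (G : Type) [Group G], PCh b k G →
    PCh b' k G := by
  induction k with
  | zero => intro G _ hG; exact hG
  | succ k ih =>
    rintro G _ ⟨H, hs, hH⟩
    exact ⟨H, hs.imp_left fun h' => h'.trans h, ih H hH⟩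

/-- PROOF. Induction on `k`: the subgroup `H` goes to `H.map e`, `H ≃* H.map e` (`MulEquiv.subgroupMap`), same index. -/
theorem PCh.congr {b : ℝ} (k : ℕ) : ∀ (G G' : Type) [Group G] [Group G'], (G ≃* G') →
    PCh b k G → PCh b k G' := by
  induction k with
  | zero =>
    intro G G' _ _ e hG
    have hs : Subsingleton G := hG
    exact e.symm.toEquiv.subsingleton
  | succ k ih =>
    rintro G G' _ _ e ⟨H, hs, hH⟩
    have hi : (H.map (e : G →* G')).index = H.index := H.index_map_equiv e
    refine ⟨H.map (e : G →* G'), ?_, ih H _ (e.subgroupMap H) hH⟩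
    rw [hi]
    exact hs.imp_right fun h => ⟨h.1.map _ e.surjective, h.2⟩

/-- Closed under extensions. PROOF. Induction on `k` (for all `G`, `Q`): `k = 0`: `φ` is the trivial map, `φ.ker = ⊤`,
`G ≃* φ.ker` (`PCh.congr`). `k + 1`: `H ≤ Q`, `H.comap φ` has the same index (`Subgroup.index_comap_of_surjective`), is normal if
`H` is, and maps onto `H` with the same kernel. -/
theorem PCh.extend {b : ℝ} {l : ℕ} (k : ℕ) : ∀ (G Q : Type) [Group G] [Group Q] (φ : G →* Q),
    Function.Surjective φ → PCh b k Q → PCh b l φ.ker → PCh b (k + l) G := by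
  induction k with
  | zero =>
    intro G Q _ _ φ hφ hQ hl
    have hs : Subsingleton Q := hQ
    have hk : φ.ker = ⊤ := by
      rw [eq_top_iff]
      intro x _
      exact φ.mem_ker.2 (Subsingleton.elim _ _)
    rw [Nat.zero_add]
    exact PCh.congr l _ _ ((MulEquiv.subgroupCongr hk).trans Subgroup.topEquiv) hl
  | succ k ih =>
    rintro G Q _ _ φ hφ ⟨H, hs, hH⟩ hl
    have hi : (H.comap φ).index = H.index := H.index_comap_of_surjective hφ
    rw [Nat.add_right_comm]
    refine ⟨H.comap φ, ?_, ih (H.comap φ) H (φ.subgroupComap H) ?_ hH ?_⟩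
    · rw [hi]
      exact hs.imp_right fun h => ⟨h.1.comap φ, h.2⟩
    · rintro ⟨y, hy⟩
      obtain ⟨x, rfl⟩ := hφ y
      exact ⟨⟨x, hy⟩, rfl⟩
    · refine PCh.congr l _ _ ?_ hl
      exact
        { toFun := fun x => ⟨⟨x.1, by
            have hx : φ x.1 = 1 := x.2
            rw [Subgroup.mem_comap, hx]
            exact H.one_mem⟩, Subtype.ext x.2⟩
          invFun := fun x => ⟨x.1.1, congrArg Subtype.val x.2⟩
          left_inv := fun x => rfl
          right_inv := fun x => rfl
          map_mul' := fun x y => rfl }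

/-- PROOF. Induction on the order: a nontrivial finite abelian group has a subgroup of prime index (maximal subgroup, or an
element of prime order in the quotient); it is normal and abelian. -/
theorem pch_comm {b : ℝ} : ∀ (E : Type) [CommGroup E] [Finite E], ∃ k, PCh b k E := by
  have key : ∀ n : ℕ, ∀ (E : Type) [CommGroup E] [Finite E], Nat.card E = n → ∃ k, PCh b k E := by
    intro n
    induction n using Nat.strong_induction_on with
    | _ n ih =>
      intro E _ _ hn
      by_cases hs : Subsingleton E
      · exact ⟨0, hs⟩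
      · have hnt : Nontrivial E := not_subsingleton_iff_nontrivial.mp hs
        have hc : 1 < Nat.card E := Finite.one_lt_card
        obtain ⟨p, hp, hpd⟩ := Nat.exists_prime_and_dvd hc.ne'
        have := Fact.mk hp
        obtain ⟨x, hx⟩ := exists_prime_orderOf_dvd_card' p hpd
        have hN : Nat.card (Subgroup.zpowers x) = p := by rw [Nat.card_zpowers, hx]
        have hlt : Nat.card (E ⧸ Subgroup.zpowers x) < n := by
          have h1 := Subgroup.card_eq_card_quotient_mul_card_subgroup (Subgroup.zpowers x)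
          rw [hN, hn] at h1
          rw [h1]
          exact lt_mul_of_one_lt_right Nat.card_pos hp.one_lt
        obtain ⟨k, hk⟩ := ih _ hlt (E ⧸ Subgroup.zpowers x) rfl
        refine ⟨k + 1, PCh.extend k E (E ⧸ Subgroup.zpowers x) (QuotientGroup.mk' _)
          (QuotientGroup.mk'_surjective _) hk ?_⟩
        refine ⟨⊥, Or.inr ⟨inferInstance, ?_⟩, ?_⟩
        · rw [Subgroup.index_bot, QuotientGroup.ker_mk', hN]
          exact hp
        · change Subsingleton (⊥ : Subgroup _)
          infer_instance
  intro E _ _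
  exact key _ E rfl

end MP0775d3.Zf
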