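import Pool.Agent.Lib.MP_0775d3_lc.Zf.Defs
import Pool.Agent.Lib.MP_0775d3_lc.Ox.AdaptB

/-! Project ZF: chains. -/

set_option linter.unusedSectionVars false
set_option linter.unusedVariables false

namespace MP0775d3.Zf

open MP0775d3.Ox

/-- PROOF. `H = G`, `ι` the identity, index `1`. -/
theorem Cn.succ {b : ℝ} (hb : 1 ≤ b) {t : ℕ} {G : Type} [Group G] [Finite G] (h : Cn b t G) :
    Cn b (t + 1) G := by
  refine ⟨G, inferInstance, inferInstance, MonoidHom.id G, ⟨Function.injective_id, Or.inl ?_⟩, h⟩
  have h1 : (MonoidHom.id G).range = ⊤ := MonoidHom.range_eq_top.2 Function.surjective_id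
  rw [h1, Subgroup.index_top]
  simpa using hb

/-- PROOF. Composition with injective homomorphisms: `(κ.comp ι).range.index = κ.range.index * ι.range.index`. -/
theorem index_comp {P Q G : Type} [Group P] [Group Q] [Group G] (ι : P →* Q) (κ : Q →* G)
    (hκ : Function.Injective κ) : (κ.comp ι).range.index = κ.range.index * ι.range.index := by
  rw [MonoidHom.range_comp, Subgroup.index_map_of_injective _ hκ, mul_comm]

/-- A subgroup of a group with a chain has a chain. PROOF. Induction on `t` (for all `G`, `D`). `t = 0`: `|D| ≤ |G|`. Step: `κ : H →* G`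
the first step; `D₀ = κ.range.comap ι`, a subgroup of `D`; its index is at most the index of `κ.range`, and if `κ.range` is
normal of prime index `p` it is normal of index dividing `p` (`D ⧸ D₀` embeds in `G ⧸ κ.range`), i.e. `1 ≤ b` or prime; `D₀` maps
injectively to `H` (choose the preimage under `κ`: `MonoidHom.ofInjective`, or `κ.range ≃* H`), so `Cn b t D₀` by the
hypothesis for `H`. -/
theorem cn_sub {b : ℝ} (hb : 1 ≤ b) (t : ℕ) : ∀ (G D : Type) [Group G] [Group D] [Finite G]
    (ι : D →* G), Function.Injective ι → Cn b t G → Cn b t D := by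
  induction t with
  | zero =>
    intro G D _ _ _ ι hι h
    have h1 : Nat.card D ≤ Nat.card G := Nat.card_le_card_of_injective ι hι
    exact le_trans (by exact_mod_cast h1) h
  | succ t ih =>
    intro G D _ _ _ ι hι hG
    obtain ⟨H, gH, fH, κ, ⟨hκ, hs⟩, hc⟩ := hG
    have : Finite D := Finite.of_injective ι hι
    have hμ : ∃ μ : (κ.range.comap ι) →* H, Function.Injective μ := by
      refine ⟨(MonoidHom.ofInjective hκ).symm.toMonoidHom.comp
        ((ι.comp (κ.range.comap ι).subtype).codRestrict κ.range (fun d => d.2)), ?_⟩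
      intro x y hxy
      have h1 := (MonoidHom.ofInjective hκ).symm.injective hxy
      exact Subtype.ext (hι (congrArg Subtype.val h1))
    obtain ⟨μ, hμ⟩ := hμ
    refine ⟨(κ.range.comap ι : Subgroup D), inferInstance, inferInstance,
      (κ.range.comap ι).subtype, ⟨Subgroup.subtype_injective _, ?_⟩, ih H _ μ hμ hc⟩
    rw [Subgroup.range_subtype]
    rcases hs with hs | ⟨hn, hp⟩
    · left
      have h1 : (κ.range.comap ι).index ≤ κ.range.index := by
        rw [Subgroup.index_comap]
        rw [← Subgroup.relIndex_top_right κ.range]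
        exact Subgroup.relIndex_le_of_le_right le_top
          (by rw [Subgroup.relIndex_top_right]; exact Subgroup.index_ne_zero_of_finite)
      exact le_trans (by exact_mod_cast h1) hs
    · have h1 : (κ.range.comap ι).index ∣ κ.range.index := by
        rw [Subgroup.index_comap]
        exact Subgroup.relIndex_dvd_index_of_normal _ _
      rcases (Nat.dvd_prime hp).1 h1 with h2 | h2
      · left
        rw [h2]
        simpa using hb
      · right
        exact ⟨hn.comap ι, by rw [h2]; exact hp⟩

/-- PROOF. Induction on `t`: `exists_sys`; `exists_ad`. -/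
theorem cs_exists {b : ℝ} (t : ℕ) : ∀ (G : Type) [Group G] [Finite G], Cn b t G →
    ∃ S : Sys G, Cs b t G S := by
  induction t with
  | zero =>
    intro G _ _ h
    obtain ⟨S⟩ := exists_sys G
    exact ⟨S, h⟩
  | succ t ih =>
    intro G _ _ hG
    obtain ⟨H, gH, fH, ι, hs, hc⟩ := hG
    obtain ⟨S₀, hS₀⟩ := ih H hc
    obtain ⟨A⟩ := exists_ad ι S₀
    exact ⟨A.sys, H, gH, fH, ι, S₀, A, hs, hS₀, rfl⟩

/-- PROOF. Induction on `t`. -/
theorem Cs.cn {b : ℝ} (t : ℕ) : ∀ (G : Type) [Group G] (S : Sys G), Cs b t G S → Cn b t G := by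
  induction t with
  | zero =>
    intro G _ S h
    exact h
  | succ t ih =>
    intro G _ S hG
    obtain ⟨H, gH, fH, ι, S₀, A, hs, hc, -⟩ := hG
    exact ⟨H, gH, fH, ι, hs, ih H S₀ hc⟩

end MP0775d3.Zf
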