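import Pool.Agent.Lib.MP_0775d3_lc.Zf.Fs
import Pool.Agent.Lib.MP_0775d3_lc.Ev.Ch
import Pool.Agent.Lib.MP_0775d3_lc.Ge.Final

/-! Project ZF: class functions. The class of groups and `GD`. -/

set_option linter.unusedSectionVars false
set_option linter.unusedVariables false

namespace MP0775d3.Zf

open Matrix MP0775d3.Cf MP0775d3.Ox MP0775d3.Sl2 MP0775d3.Ev

theorem ch_pch {b : ℝ} {G : Type} [Group G] (h : Ch b G) : ∃ k, PCh b k G := by
  induction h with
  | one G hs => exact ⟨0, hs⟩
  | step G H h1 _ ih =>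
    obtain ⟨k, hk⟩ := ih
    exact ⟨k + 1, H, h1, hk⟩

/-- The Fourier transform of a group with a chain of subgroups is a box circuit. -/
theorem zfs (δ : ℝ) (hδ : 0 < δ) : ∃ t : ℕ, 1 ≤ t ∧ ∃ C : ℝ, 1 ≤ C ∧ ∀ N : ℝ, 1 ≤ N →
    ∀ (G : Type) [Group G] [Finite G], (Nat.card G : ℝ) ≤ N → Ch (N ^ δ) G →
      ∃ S : Sys G, Bx (C * Nat.card G) (C * N ^ (2 * δ)) t S.F := by
  obtain ⟨t, ht, C, hC, h⟩ := fs_main δ hδ
  refine ⟨t, ht, C, hC, fun N hN G _ _ hG hc => ?_⟩
  obtain ⟨k, hk⟩ := ch_pch hc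
  exact h N hN G hG k hk

private theorem clsA_scalar {G : Type} [Group G] [Fintype G] (S : Sys G) {f : G → ℂ}
    (hf : IsClassFun f) (i : S.I) : ∃ c : ℂ, ∑ g, f g • S.π i g = c • 1 := by
  refine schur_one S i _ fun d => ?_
  rw [Matrix.mul_sum, Matrix.sum_mul]
  refine Fintype.sum_equiv (MulAut.conj d).toEquiv _ _ fun g => ?_
  change S.π i d * f g • S.π i g = f (d * g * d⁻¹) • S.π i (d * g * d⁻¹) * S.π i d
  rw [hf d g, Matrix.mul_smul, Matrix.smul_mul, ← S.mul, ← S.mul, inv_mul_cancel_right]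

theorem gd_of_sys {G : Type} [Group G] [Finite G] {w s : ℝ} {t : ℕ} (ht : 1 ≤ t) (S : Sys G)
    (h : Bx w s t S.F) : GD w s 1 t G := by
  classical
  have := Fintype.ofFinite G
  refine ⟨Σ i, S.D i × S.D i, inferInstance, inferInstance, S.F', S.F, Σ i, S.D i × S.D i, id, id,
    S.bx' ht h, h, fun a => ?_, fun a => ?_, fun f hf => ?_⟩
  · have h4 : ({z | id z = a} : Set (Σ i, S.D i × S.D i)) = {a} := rfl
    rw [h4, Set.ncard_singleton, Nat.cast_one]
  · have h4 : ({z | id z = a} : Set (Σ i, S.D i × S.D i)) = {a} := rfl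
    rw [h4, Set.ncard_singleton, Nat.cast_one]
  · choose c hc using clsA_scalar S hf
    refine ⟨Matrix.diagonal fun z => c z.1, fun z z' hz => ?_, ?_⟩
    · by_contra hne
      exact hz (Matrix.diagonal_apply_ne _ hne)
    · have e1 : S.F * groupMat f = Matrix.diagonal (fun z : Σ i, S.D i × S.D i => c z.1) * S.F := by
        ext z y
        obtain ⟨i, a, b⟩ := z
        rw [Matrix.mul_apply, Matrix.diagonal_mul]
        change ∑ x, S.π i x a b * f (x * y⁻¹) = c i * S.π i y a b
        have h1 : (∑ g, f g • S.π i g) * S.π i y = c i • S.π i y := by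
          rw [hc i, Matrix.smul_mul, Matrix.one_mul]
        have h2 := congrFun (congrFun h1 a) b
        rw [Matrix.smul_apply, smul_eq_mul] at h2
        rw [← h2, Matrix.sum_mul, Matrix.sum_apply]
        refine Fintype.sum_equiv (Equiv.mulRight y⁻¹) _ _ fun x => ?_
        rw [Matrix.smul_mul, Matrix.smul_apply, ← S.mul, smul_eq_mul, Equiv.coe_mulRight,
          inv_mul_cancel_right, mul_comm]
      rw [Matrix.mul_assoc, ← e1, ← Matrix.mul_assoc, S.F'_mul_F, Matrix.one_mul]

/-- The class of the theorem on class functions: direct products of any number of groups of `SL₂` type and of a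
group with a chain of subgroups, each of index at most `b` or normal of prime index in the one before. -/
def InZ (b : ℝ) (G : Type) [Group G] : Prop :=
  ∃ r, Mult (fun P _ => IsSL2Type P) (fun D _ => Ch b D) r G

end MP0775d3.Zf
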