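import Pool.Agent.Lib.MP_0775d3_lc.Zf.ClsB
import Pool.Agent.Lib.MP_0775d3_lc.Cf.PeelInd
import Pool.Agent.Lib.MP_0775d3_lc.Sl2.Real

/-! Project ZF: class functions. The theorem. -/

set_option linter.unusedSectionVars false
set_option linter.unusedVariables false

namespace MP0775d3.Zf

open Matrix MP0775d3.Sl2 MP0775d3.Kron MP0775d3.Sl2H MP0775d3.Cf MP0775d3.Ox MP0775d3.Ev

private theorem clsC_rank {N η γp γ₀ Cp C₀ : ℝ} {l L : ℕ} (hN : 1 < N) (hη : 0 < η)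
    (hγp : 0 < γp) (hCp : 1 ≤ Cp) (hC₀ : 1 ≤ C₀) (hl : l ≤ L) :
    N * (Cp ^ l * (l * (N ^ η) ^ (-γp) + C₀ * N ^ (-γ₀))) ≤
      N * ((Cp ^ L * (L + C₀) + (Cp * 8 ^ L) ^ L * C₀) * N ^ (-min (η * γp) γ₀)) := by
  have hN0 : 0 < N := by linarith
  refine mul_le_mul_of_nonneg_left ?_ hN0.le
  have h1 : (N ^ η) ^ (-γp) ≤ N ^ (-min (η * γp) γ₀) := by
    rw [← Real.rpow_mul hN0.le]
    refine Real.rpow_le_rpow_of_exponent_le hN.le ?_
    have := min_le_left (η * γp) γ₀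
    linarith
  have h2 : N ^ (-γ₀) ≤ N ^ (-min (η * γp) γ₀) :=
    Real.rpow_le_rpow_of_exponent_le hN.le (neg_le_neg (min_le_right _ _))
  have h3 : Cp ^ l ≤ Cp ^ L := pow_le_pow_right₀ hCp hl
  have h4 : (l : ℝ) ≤ L := by exact_mod_cast hl
  obtain ⟨z, hz⟩ : ∃ z, z = N ^ (-min (η * γp) γ₀) := ⟨_, rfl⟩
  rw [← hz] at h1 h2 ⊢
  have h5 : 0 ≤ z := by
    rw [hz]
    exact Real.rpow_nonneg hN0.le _
  have hx0 : 0 ≤ (N ^ η) ^ (-γp) := Real.rpow_nonneg (Real.rpow_nonneg hN0.le _) _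
  have hl0 : (0 : ℝ) ≤ l := Nat.cast_nonneg l
  have h6 : (l : ℝ) * (N ^ η) ^ (-γp) ≤ L * z := mul_le_mul h4 h1 hx0 (hl0.trans h4)
  have h7 : C₀ * N ^ (-γ₀) ≤ C₀ * z := mul_le_mul_of_nonneg_left h2 (by linarith)
  have h8 : 0 ≤ (Cp * 8 ^ L) ^ L * C₀ := mul_nonneg (pow_nonneg (mul_nonneg (by linarith)
    (pow_nonneg (by norm_num) _)) _) (by linarith)
  have h9 : 0 ≤ Cp ^ L := pow_nonneg (by linarith) _
  have h10 : 0 ≤ (l : ℝ) * (N ^ η) ^ (-γp) + C₀ * N ^ (-γ₀) :=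
    add_nonneg (mul_nonneg hl0 hx0) (mul_nonneg (by linarith) (Real.rpow_nonneg hN0.le _))
  have h11 : Cp ^ l * (l * (N ^ η) ^ (-γp) + C₀ * N ^ (-γ₀)) ≤ Cp ^ L * (L * z + C₀ * z) :=
    mul_le_mul h3 (add_le_add h6 h7) h10 h9
  refine h11.trans ?_
  have h12 : Cp ^ L * (L * z + C₀ * z) = Cp ^ L * (L + C₀) * z := by ring
  rw [h12]
  exact mul_le_mul_of_nonneg_right (le_add_of_nonneg_right h8) h5

private theorem clsC_sp {N δ δp Cp C₀ : ℝ} {l L : ℕ} (hN : 1 < N) (hδp : 0 < δp) (hδp1 : δp ≤ 1)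
    (hδL : δp * L ≤ δ / 2) (hCp : 1 ≤ Cp) (hC₀ : 1 ≤ C₀) (hl : l ≤ L) :
    (Cp * (8 ^ L * N) ^ δp) ^ l * (C₀ * N ^ (δ / 2)) ≤
      (Cp ^ L * (L + C₀) + (Cp * 8 ^ L) ^ L * C₀) * N ^ δ := by
  have hN0 : 0 < N := by linarith
  have h8 : (1 : ℝ) ≤ (8 : ℝ) ^ L := one_le_pow₀ (by norm_num)
  obtain ⟨E, hE⟩ : ∃ E : ℝ, E = 8 ^ L := ⟨_, rfl⟩
  rw [← hE] at h8 ⊢
  have hE0 : 0 < E := by linarith
  have h1 : (E * N) ^ δp ≤ E * N ^ δp := by
    rw [Real.mul_rpow hE0.le hN0.le]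
    refine mul_le_mul_of_nonneg_right ?_ (Real.rpow_nonneg hN0.le _)
    exact (Real.rpow_le_rpow_of_exponent_le h8 hδp1).trans (le_of_eq (Real.rpow_one _))
  have hnp : 1 ≤ N ^ δp := Real.one_le_rpow hN.le hδp.le
  have h2 : 1 ≤ Cp * (E * N ^ δp) :=
    one_le_mul_of_one_le_of_one_le hCp (one_le_mul_of_one_le_of_one_le h8 hnp)
  have h3 : (Cp * (E * N) ^ δp) ^ l ≤ (Cp * (E * N ^ δp)) ^ L :=
    (pow_le_pow_left₀ (mul_nonneg (by linarith) (Real.rpow_nonneg (by positivity) _))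
      (mul_le_mul_of_nonneg_left h1 (by linarith)) l).trans (pow_le_pow_right₀ h2 hl)
  have h4 : (Cp * (E * N ^ δp)) ^ L = (Cp * E) ^ L * N ^ (δp * L) := by
    rw [Real.rpow_mul_natCast hN0.le, ← mul_assoc Cp, mul_pow (Cp * E)]
  have h5 : 0 ≤ C₀ * N ^ (δ / 2) := mul_nonneg (by linarith) (Real.rpow_nonneg hN0.le _)
  have h6 : 0 ≤ (Cp * E) ^ L := pow_nonneg (mul_nonneg (by linarith) hE0.le) _
  have h7 : N ^ (δp * L) * N ^ (δ / 2) ≤ N ^ δ := by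
    rw [← Real.rpow_add hN0]
    exact Real.rpow_le_rpow_of_exponent_le hN.le (by linarith)
  have h9 : 0 ≤ Cp ^ L * (L + C₀) := mul_nonneg (pow_nonneg (by linarith) _)
    (add_nonneg (Nat.cast_nonneg L) (by linarith))
  have h10 : 0 ≤ N ^ δ := Real.rpow_nonneg hN0.le _
  refine (mul_le_mul_of_nonneg_right h3 h5).trans ?_
  rw [h4]
  have h11 : (Cp * E) ^ L * N ^ (δp * L) * (C₀ * N ^ (δ / 2)) =
      (Cp * E) ^ L * C₀ * (N ^ (δp * L) * N ^ (δ / 2)) := by ring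
  rw [h11]
  refine (mul_le_mul_of_nonneg_left h7 (mul_nonneg h6 (by linarith))).trans ?_
  exact mul_le_mul_of_nonneg_right (le_add_of_nonneg_left h9) h10

private theorem clsC_l {N η : ℝ} {l L : ℕ} (hN : 1 < N) (hη : 0 < η) (hL : 1 / η ≤ L)
    (h : (N ^ η) ^ l ≤ N) : l ≤ L := by
  have hN0 : 0 < N := by linarith
  have h2 : N ^ (η * l) ≤ N ^ (1 : ℝ) := by
    rw [Real.rpow_mul_natCast hN0.le, Real.rpow_one]
    exact h
  have h3 : η * l ≤ 1 := (Real.rpow_le_rpow_left_iff hN).1 h2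
  have h4 : (l : ℝ) ≤ 1 / η := by
    rw [le_div_iff₀ hη, mul_comm]
    exact h3
  exact_mod_cast h4.trans hL

/-- Products with small groups and with abelian groups. -/
private theorem clsC_prod {b : ℝ} {E G : Type} [Group E] [Group G] [Finite E] (h : Ch b E)
    (h' : Ch b G) : Ch b (E × G) := by
  refine Ch.extend h inferInstance (E × G) (MonoidHom.fst E G) ?_
  refine Ch.congr ?_ h'
  exact
    { toFun := fun g => ⟨(1, g), rfl⟩
      invFun := fun x => x.1.2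
      left_inv := fun _ => rfl
      right_inv := fun x => Subtype.ext (Prod.ext x.2.symm rfl)
      map_mul' := fun x y => Subtype.ext (Prod.ext (mul_one _).symm rfl) }

/-- PROOF. As `Ge.cls_gb`, with `z_gb` (`Mult.sort` for the kinds `False` and `IsSL2Type P`). -/
theorem z_cls (δ : ℝ) (hδ : 0 < δ) (hδ1 : δ ≤ 1) : ∃ h : ℝ, 0 < h ∧
    ∃ γ : ℝ, 0 < γ ∧ ∃ C : ℝ, 1 ≤ C ∧ ∀ (G : Type) [Group G] [Finite G], 1 < Nat.card G →
      InZ ((Nat.card G : ℝ) ^ h) G →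
      GBound G (Nat.card G * (C * (Nat.card G : ℝ) ^ (-γ))) (C * (Nat.card G : ℝ) ^ δ) := by
  obtain ⟨η, hη, γ₀, hγ₀, hbase⟩ := z_gb (δ / 2) (by linarith) (by linarith)
  obtain ⟨L, hL⟩ : ∃ L : ℕ, 1 / η ≤ L := exists_nat_ge _
  have hL0 : (0 : ℝ) ≤ L := Nat.cast_nonneg L
  obtain ⟨δp, hδp⟩ : ∃ δp : ℝ, δp = δ / (4 * (L + 1)) := ⟨_, rfl⟩
  have hδp0 : 0 < δp := by rw [hδp]; positivity
  have hδp1 : δp * L ≤ δ / 2 := by
    rw [hδp, div_mul_eq_mul_div, div_le_div_iff₀ (by positivity) (by norm_num)]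
    nlinarith
  have hδp2 : δp ≤ 1 := by
    rw [hδp, div_le_one (by positivity)]
    nlinarith
  obtain ⟨γp, hγp, hγp1, Cp, hCp, hpeel⟩ := peel_ind δp hδp0 hδp2
  have h8 : (1 : ℝ) ≤ (8 : ℝ) ^ L := one_le_pow₀ (by norm_num)
  obtain ⟨C₀, hC₀, hb⟩ := hbase ((8 : ℝ) ^ L) h8
  have hCp0 : 0 < Cp := by linarith
  have hC₀0 : 0 < C₀ := by linarith
  refine ⟨η, hη, min (η * γp) γ₀, lt_min (by positivity) hγ₀,
    Cp ^ L * (L + C₀) + (Cp * 8 ^ L) ^ L * C₀, ?_, ?_⟩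
  · have h1 : 1 ≤ (Cp * (8 : ℝ) ^ L) ^ L := one_le_pow₀ (by nlinarith)
    have h2 : 0 ≤ Cp ^ L * (L + C₀) := by positivity
    nlinarith
  intro G iG iF hG1 hG
  obtain ⟨r, hG⟩ := hG
  obtain ⟨N, hN⟩ : ∃ N : ℝ, N = Nat.card G := ⟨_, rfl⟩
  rw [← hN] at hG ⊢
  have hN1 : 1 < N := by rw [hN]; exact_mod_cast hG1
  have hN0 : 0 < N := by linarith
  have hκ : 1 ≤ N ^ η := Real.one_le_rpow hN1.le hη.le
  obtain ⟨H, hH⟩ : ∃ H : ∀ (D : Type) [Group D], Prop, H = fun (D : Type) (_ : Group D) =>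
      Ch (N ^ η) D := ⟨_, rfl⟩
  have hG' : Mult (fun P _ => False ∨ IsSL2Type P) (fun D _ => H D) r G := by
    rw [hH]
    exact Mult.imp (fun P _ hP => Or.inr hP) (fun P _ hP => hP) hG
  have hsort : ∃ k l : ℕ, Mult (fun T _ => IsSL2Type T ∧ N ^ η < Nat.card T)
      (fun D _ => Mult (fun P _ => False ∧ N ^ η < Nat.card P) (fun D _ => H D) k D) l G := by
    refine Mult.sort (κ := N ^ η) ?_ ?_ hG'
    · intro G G' _ _ e hr
      rw [hH] at hr ⊢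
      exact Ch.congr e hr
    · intro P G _ _ _ _ hP hr
      rw [hH] at hr ⊢
      exact clsC_prod (ch_small hP) hr
  obtain ⟨k, l, hkl⟩ := hsort
  have hlL : l ≤ L := by
    have h1 := Mult.card hκ (fun P _ hP => hP.2) hkl
    rw [← hN] at h1
    exact clsC_l hN1 hη hL h1
  have hkl' : Mult (fun T _ => IsSL2Type T ∧ N ^ η < Nat.card T) (fun D _ => H D) l G := by
    refine Mult.imp (fun P _ hP => hP) (fun D _ hD => ?_) hkl
    cases k with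
    | zero => exact hD
    | succ k =>
      obtain ⟨P, R, _, _, hP, _⟩ := hD
      exact hP.1.elim
  have hQ1 : ∀ (E G : Type) [CommGroup E] [Finite E] [Group G] [Finite G], H G → H (E × G) := by
    intro E G _ _ _ _ hG
    rw [hH] at hG ⊢
    exact clsC_prod (ch_solvable _ E) hG
  have hQ2 : ∀ (G : Type) [Group G] [Finite G], H G → (Nat.card G : ℝ) ≤ 8 ^ L * N →
      GBound G (Nat.card G * (C₀ * N ^ (-γ₀))) (C₀ * N ^ (δ / 2)) := by
    intro G _ _ hG hc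
    rw [hH] at hG
    exact hb N hN1.le G hG hc
  have hmain : GBound G (Nat.card G * (Cp ^ l * (l * (N ^ η) ^ (-γp) + C₀ * N ^ (-γ₀))))
      ((Cp * (8 ^ L * N) ^ δp) ^ l * (C₀ * N ^ (δ / 2))) :=
    hpeel (fun D _ => H D) hQ1 (N ^ η) (C₀ * N ^ (-γ₀)) (C₀ * N ^ (δ / 2)) (8 ^ L * N) hκ
      (by positivity) (by positivity) (by nlinarith) hQ2 l G hkl' (by
      rw [← hN]
      exact mul_le_mul_of_nonneg_right (pow_le_pow_right₀ (by norm_num) hlL) hN0.le)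
  intro iT f hf
  rw [← hN] at hmain
  exact (hmain f hf).mono (clsC_rank hN1 hη hγp hCp hC₀ hlL)
    (clsC_sp hN1 hδp0 hδp2 hδp1 hCp hC₀ hlL)

/-- PROOF. As `Ge.main4`. -/
theorem z_main (δ : ℝ) (hδ : 0 < δ) : ∃ h : ℝ, 0 < h ∧ ∃ γ : ℝ, 0 < γ ∧ ∃ n₀ : ℕ,
    ∀ (G : Type) [Group G] [Fintype G], n₀ ≤ Fintype.card G →
      InZ ((Fintype.card G : ℝ) ^ h) G →
      ∀ (F : Type) [RCLike F] (f : G → F), IsClassFun f →
        Dec (groupMat f) ((Fintype.card G : ℝ) ^ (1 - γ)) ((Fintype.card G : ℝ) ^ δ) := by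
  classical
  obtain ⟨δ', hδ'⟩ : ∃ δ' : ℝ, δ' = min (δ / 2) 1 := ⟨_, rfl⟩
  have hδ'0 : 0 < δ' := by rw [hδ']; exact lt_min (by linarith) one_pos
  have hδ'1 : δ' ≤ 1 := by rw [hδ']; exact min_le_right _ _
  have hδ'2 : δ' ≤ δ / 2 := by rw [hδ']; exact min_le_left _ _
  obtain ⟨h, hh, γ, hγ, C, hC, hcls⟩ := z_cls δ' hδ'0 hδ'1
  obtain ⟨n₁, hn₁⟩ : ∃ n₁ : ℕ, (2 * C) ^ (2 / γ) ≤ n₁ := exists_nat_ge _
  obtain ⟨n₂, hn₂⟩ : ∃ n₂ : ℕ, C ^ (2 / δ) ≤ n₂ := exists_nat_ge _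
  refine ⟨h, hh, γ / 2, by positivity, max n₁ (max n₂ 2), ?_⟩
  intro G _ _ hn hG F _ f hf
  have hn1 : n₁ ≤ Fintype.card G := (le_max_left _ _).trans hn
  have hn2 : n₂ ≤ Fintype.card G := (le_max_left _ _).trans ((le_max_right _ _).trans hn)
  have hn3 : 2 ≤ Fintype.card G := (le_max_right _ _).trans ((le_max_right _ _).trans hn)
  have hcard : Nat.card G = Fintype.card G := Nat.card_eq_fintype_card
  have hb := hcls G (by rw [hcard]; omega) (by rw [hcard]; exact hG)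
  have key := (hb (fun g => ((RCLike.re (f g) : ℝ) : ℂ) + ((RCLike.im (f g) : ℝ) : ℂ) * Complex.I)
    (fun g x => by simp only [hf g x])).dec
  rw [hcard] at key
  obtain ⟨n, hndef⟩ : ∃ n : ℝ, n = (Fintype.card G : ℝ) := ⟨_, rfl⟩
  rw [← hndef] at key ⊢
  have hn0 : 1 < n := by
    rw [hndef]
    have : (2 : ℝ) ≤ (Fintype.card G : ℝ) := by exact_mod_cast hn3
    linarith
  have hn00 : 0 < n := by linarith
  have hC0 : 0 < C := by linarith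
  have h2 : 2 * C ≤ n ^ (γ / 2) := by
    have h3 : (2 * C) ^ (2 / γ) ≤ n := hn₁.trans (by rw [hndef]; exact_mod_cast hn1)
    have h4 : ((2 * C) ^ (2 / γ)) ^ (γ / 2) ≤ n ^ (γ / 2) :=
      Real.rpow_le_rpow (by positivity) h3 (by positivity)
    rw [← Real.rpow_mul (by positivity)] at h4
    have h5 : 2 / γ * (γ / 2) = 1 := by field_simp
    rwa [h5, Real.rpow_one] at h4
  have h2' : C ≤ n ^ (δ / 2) := by
    have h3 : C ^ (2 / δ) ≤ n := hn₂.trans (by rw [hndef]; exact_mod_cast hn2)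
    have h4 : (C ^ (2 / δ)) ^ (δ / 2) ≤ n ^ (δ / 2) :=
      Real.rpow_le_rpow (by positivity) h3 (by positivity)
    rw [← Real.rpow_mul (by positivity)] at h4
    have h5 : 2 / δ * (δ / 2) = 1 := by field_simp
    rwa [h5, Real.rpow_one] at h4
  have h3 : Dec ((groupMat f).map fun z =>
      ((RCLike.re z : ℝ) : ℂ) + ((RCLike.im z : ℝ) : ℂ) * Complex.I)
      (n * (C * n ^ (-γ))) (C * n ^ δ') := key
  refine (dec_rclike _ (by positivity) h3).mono ?_ ?_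
  · calc 2 * (n * (C * n ^ (-γ))) = 2 * C * (n ^ (1 : ℝ) * n ^ (-γ)) := by
          rw [Real.rpow_one]
          ring
      _ = 2 * C * n ^ (1 - γ) := by
          rw [← Real.rpow_add hn00]
          congr 2
      _ ≤ n ^ (γ / 2) * n ^ (1 - γ) := mul_le_mul_of_nonneg_right h2 (by positivity)
      _ = n ^ (1 - γ / 2) := by
          rw [← Real.rpow_add hn00]
          congr 1
          ring
  · calc C * n ^ δ' ≤ n ^ (δ / 2) * n ^ (δ / 2) :=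
        mul_le_mul h2' (Real.rpow_le_rpow_of_exponent_le hn0.le hδ'2) (by positivity)
          (by positivity)
      _ = n ^ δ := by
        rw [← Real.rpow_add hn00]
        congr 1
        ring

end MP0775d3.Zf
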