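import Pool.Agent.Lib.MP_0775d3_lc.Zf.IwA

/-! Project ZF: the coefficients. -/

set_option linter.unusedSectionVars false
set_option linter.unusedVariables false

namespace MP0775d3.Zf

open Matrix MP0775d3.Cf MP0775d3.Ox

variable {G H H' : Type} [Group G] [Group H] [Group H'] {ι : H →* G} {κ : H' →* G} {S : Sys H}
  {S' : Sys H'} (A : Ad ι S) (A' : Ad κ S') (w : Iw A.sys A'.sys) (d : Dd ι κ)
  (T : ∀ y, Sys (d.D y)) (bu : ∀ y, Br (d.u y) S (T y)) (bv : ∀ y, Br (d.v y) S' (T y))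

private theorem zfc_left {K : Type} [Group K] {S : Sys K} {P : S.I → Type} [∀ k, Fintype (P k)]
    [∀ k, DecidableEq (P k)] (V : (Σ k, S.D k × P k) → ℂ) (h : K) (j : S.I) (c : S.D j) (μ : P j) :
    ∑ w, S.rep P h ⟨j, (c, μ)⟩ w * V w = ∑ e, S.π j h c e * V ⟨j, (e, μ)⟩ := by
  rw [Fintype.sum_sigma, Finset.sum_eq_single j, Fintype.sum_prod_type]
  · refine Finset.sum_congr rfl fun e _ => ?_
    rw [Finset.sum_eq_single μ, S.rep_same, if_pos rfl]
    · intro q _ hq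
      rw [S.rep_same, if_neg (Ne.symm hq), zero_mul]
    · intro hb
      exact absurd (Finset.mem_univ μ) hb
  · intro i _ hi
    refine Finset.sum_eq_zero fun b _ => ?_
    rw [S.rep_ne P h (Ne.symm hi), zero_mul]
  · intro hb
    exact absurd (Finset.mem_univ j) hb

private theorem zfc_right {K : Type} [Group K] {S : Sys K} {P : S.I → Type} [∀ k, Fintype (P k)]
    [∀ k, DecidableEq (P k)] (V : (Σ k, S.D k × P k) → ℂ) (h : K) (j : S.I) (c : S.D j) (μ : P j) :
    ∑ w, V w * S.rep P h w ⟨j, (c, μ)⟩ = ∑ e, V ⟨j, (e, μ)⟩ * S.π j h e c := by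
  rw [Fintype.sum_sigma, Finset.sum_eq_single j, Fintype.sum_prod_type]
  · refine Finset.sum_congr rfl fun e _ => ?_
    rw [Finset.sum_eq_single μ, S.rep_same, if_pos rfl]
    · intro q _ hq
      rw [S.rep_same, if_neg hq, mul_zero]
    · intro hb
      exact absurd (Finset.mem_univ μ) hb
  · intro i _ hi
    refine Finset.sum_eq_zero fun b _ => ?_
    rw [S.rep_ne P h hi, mul_zero]
  · intro hb
    exact absurd (Finset.mem_univ j) hb

/-- PROOF. As `Ox.DcM.dcMX_left` (file Ox/DcM.lean): `A.mul`, `A.res`, entries of `rep`. -/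
theorem MX_left (l : A.I) (h : H) (g : G) {i : S.I} {j : S'.I} (p : A.P l i)
    (q : A'.P (w.e l) j) : MX A A' w l (ι h * g) p q = S.π i h * MX A A' w l g p q := by
  have h1 : A.ρ l (ι h * g) = S.rep (A.P l) h * A.ρ l g := by rw [A.mul, A.res]
  have h2 : A.sys.π l (ι h * g) * w.B l = (A.sys.π l (ι h) : Matrix _ _ ℂ) *
      (A.sys.π l g * w.B l) := by
    rw [A.sys.mul, Matrix.mul_assoc]
  ext a b
  rw [Matrix.mul_apply, MX, Matrix.of_apply, h2, Matrix.mul_apply]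
  have h3 : A.sys.π l (ι h) = S.rep (A.P l) h := A.res l h
  rw [h3]
  exact zfc_left (fun z => (A.sys.π l g * w.B l) z ⟨j, (b, q)⟩) h i a p

/-- PROOF. `A.sys.π l (g * κ h') * w.B l = A.sys.π l g * w.B l * A'.sys.π (w.e l) (κ h')` (`w.eq`), then `A'.res`, as
`Ox.DcM.dcMX_right`. -/
theorem MX_right (l : A.I) (h' : H') (g : G) {i : S.I} {j : S'.I} (p : A.P l i)
    (q : A'.P (w.e l) j) : MX A A' w l (g * κ h') p q = MX A A' w l g p q * S'.π j h' := by
  have h2 : A.sys.π l (g * κ h') * w.B l = A.sys.π l g * w.B l * A'.sys.π (w.e l) (κ h') := by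
    rw [A.sys.mul, Matrix.mul_assoc, w.eq, Matrix.mul_assoc]
  ext a b
  rw [Matrix.mul_apply, MX, Matrix.of_apply, h2, Matrix.mul_apply]
  have h3 : A'.sys.π (w.e l) (κ h') = S'.rep (A'.P (w.e l)) h' := A'.res (w.e l) h'
  rw [h3]
  exact zfc_right (fun z => (A.sys.π l g * w.B l) ⟨i, (a, p)⟩ z) h' j b q

private theorem zfc_coef (y : d.X) (l : A.I) (i : S.I) (j : S'.I) (p : A.P l i)
    (q : A'.P (w.e l) j) :
    ∃ Y : ∀ k, Matrix ((bu y).M i k) ((bv y).M j k) ℂ, (∀ (a : S.D i) (b : S'.D j),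
      MX A A' w l (d.x y) p q a b = ∑ k, ∑ μ, ∑ ν, Y k μ ν *
        ∑ c, (bu y).B i a ⟨k, (c, μ)⟩ * (bv y).B' j ⟨k, (c, ν)⟩ b) ∧
      ∀ (k : (T y).I) (c : (T y).D k) (μ : (bu y).M i k) (ν : (bv y).M j k),
        ((bu y).B' i * MX A A' w l (d.x y) p q * (bv y).B j) ⟨k, (c, μ)⟩ ⟨k, (c, ν)⟩ =
          Y k μ ν := by
  classical
  obtain ⟨X, hX⟩ : ∃ X, X = MX A A' w l (d.x y) p q := ⟨_, rfl⟩
  have hc : ∀ e, S.π i (d.u y e) * X = X * S'.π j (d.v y e) := by
    intro e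
    rw [hX, ← MX_left, ← MX_right, d.comm]
  have hX' : ∀ e, (T y).rep ((bu y).M i) e * ((bu y).B' i * X * (bv y).B j) =
      (bu y).B' i * X * (bv y).B j * (T y).rep ((bv y).M j) e := by
    intro e
    calc (T y).rep ((bu y).M i) e * ((bu y).B' i * X * (bv y).B j)
        = (T y).rep ((bu y).M i) e * (bu y).B' i * X * (bv y).B j := by
          simp only [Matrix.mul_assoc]
      _ = (bu y).B' i * (S.π i (d.u y e) * X) * (bv y).B j := by
          rw [← Br.eq', Matrix.mul_assoc ((bu y).B' i)]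
      _ = (bu y).B' i * X * (S'.π j (d.v y e) * (bv y).B j) := by
          rw [hc]
          simp only [Matrix.mul_assoc]
      _ = (bu y).B' i * X * (bv y).B j * (T y).rep ((bv y).M j) e := by
          rw [(bv y).eq]
          simp only [Matrix.mul_assoc]
  rw [← hX]
  obtain ⟨Y, h1, h2, h3⟩ := schur (T y) _ hX'
  obtain ⟨X', hX1⟩ : ∃ X', X' = (bu y).B' i * X * (bv y).B j := ⟨_, rfl⟩
  rw [← hX1] at h1 h2 h3 ⊢
  have hXX : X = (bu y).B i * X' * (bv y).B' j := by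
    rw [hX1]
    calc X = ((bu y).B i * (bu y).B' i) * X * ((bv y).B j * (bv y).B' j) := by
          rw [(bu y).inv, (bv y).inv, Matrix.one_mul, Matrix.mul_one]
      _ = (bu y).B i * ((bu y).B' i * X * (bv y).B j) * (bv y).B' j := by
          simp only [Matrix.mul_assoc]
  refine ⟨Y, fun a b => ?_, fun k c μ ν => h1 k c μ ν⟩
  have hin : ∀ (k : (T y).I) (c : (T y).D k) (ν : (bv y).M j k),
      ((bu y).B i * X') a ⟨k, (c, ν)⟩ = ∑ μ, (bu y).B i a ⟨k, (c, μ)⟩ * Y k μ ν := by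
    intro k c ν
    rw [Matrix.mul_apply, Fintype.sum_sigma, Finset.sum_eq_single k, Fintype.sum_prod_type,
      Finset.sum_eq_single c]
    · exact Finset.sum_congr rfl fun μ _ => by rw [h1]
    · intro c' _ hc'
      exact Finset.sum_eq_zero fun μ _ => by rw [h2 _ _ _ _ _ hc', mul_zero]
    · intro h
      exact absurd (Finset.mem_univ _) h
    · intro k' _ hk'
      exact Finset.sum_eq_zero fun r _ => by rw [h3 _ _ _ _ hk', mul_zero]
    · intro h
      exact absurd (Finset.mem_univ _) h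
  rw [hXX, Matrix.mul_apply, Fintype.sum_sigma]
  refine Finset.sum_congr rfl fun k _ => ?_
  rw [Fintype.sum_prod_type]
  simp only [hin, Finset.mul_sum, Finset.sum_mul]
  rw [Finset.sum_comm]
  rw [Finset.sum_comm (s := (Finset.univ : Finset ((bu y).M i k)))]
  refine Finset.sum_congr rfl fun ν _ => ?_
  rw [Finset.sum_comm]
  exact Finset.sum_congr rfl fun μ _ => Finset.sum_congr rfl fun c _ => by ring

/-- PROOF. As `Ox.dc_coef` and `Ox.dc_two` (file Ox/DcM.lean) with two subgroups: `X = MX l (d.x y) p q` satisfies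
`S.π i (u e) * X = X * S'.π j (v e)` (`MX_left`, `MX_right`, `d.comm`), so `X' = (bu y).B' i * X * (bv y).B j` satisfies
`(T y).rep _ e * X' = X' * (T y).rep _ e` (`Br.eq`, `Br.eq'`) and `schur` gives the coefficients;
`X = (bu y).B i * X' * (bv y).B' j`. For `g = ι h * d.x y * κ (d.r y ρ)` (`Equiv.apply_symm_apply`) expand with `MX_left`, `MX_right`. -/
theorem dd_two : ∃ Y : ∀ z : S.I × S'.I, Matrix (RW A A' w z) (KW d T bu bv z) ℂ,
    Tw A A' w (WW d T bu bv) Y ∧ ∀ (z : S.I × S'.I) (l : A.I) (p : A.P l z.1)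
      (q : A'.P (w.e l) z.2) (y : d.X) (k : (T y).I) (μ : (bu y).M z.1 k) (ν : (bv y).M z.2 k)
      (c : (T y).D k), ((bu y).B' z.1 * MX A A' w l (d.x y) p q * (bv y).B z.2) ⟨k, (c, μ)⟩
        ⟨k, (c, ν)⟩ = Y z ⟨l, (p, q)⟩ ⟨y, ⟨k, (μ, ν)⟩⟩ := by
  classical
  choose Y hY hY2 using fun (y : d.X) (l : A.I) (i : S.I) (j : S'.I) (p : A.P l i)
    (q : A'.P (w.e l) j) => zfc_coef A A' w d T bu bv y l i j p q
  have hX : ∀ (y : d.X) (l : A.I) (i : S.I) (j : S'.I) (p : A.P l i) (q : A'.P (w.e l) j),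
      MX A A' w l (d.x y) p q = ∑ k, ∑ μ, ∑ ν, Y y l i j p q k μ ν • ∑ c,
        Matrix.vecMulVec (fun a => (bu y).B i a ⟨k, (c, μ)⟩) (fun b => (bv y).B' j ⟨k, (c, ν)⟩ b) := by
    intro y l i j p q
    ext a b
    rw [hY]
    simp only [Matrix.sum_apply, Matrix.smul_apply, Matrix.vecMulVec_apply, smul_eq_mul]
  have key : ∀ (y : d.X) (h : H) (r : H') (l : A.I) (i : S.I) (j : S'.I) (p : A.P l i)
      (q : A'.P (w.e l) j) (a : S.D i) (b : S'.D j),
      MX A A' w l (ι h * d.x y * κ r) p q a b =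
        ∑ k, ∑ μ, ∑ ν, Y y l i j p q k μ ν * ∑ c, (S.π i h * (bu y).B i) a ⟨k, (c, μ)⟩ *
          ((bv y).B' j * S'.π j r) ⟨k, (c, ν)⟩ b := by
    intro y h r l i j p q a b
    rw [MX_right, MX_left, hX]
    simp only [Matrix.mul_sum, Matrix.sum_mul, Matrix.mul_smul, Matrix.smul_mul,
      Matrix.mul_vecMulVec, Matrix.vecMulVec_mul, Matrix.sum_apply, Matrix.smul_apply,
      Matrix.vecMulVec_apply, smul_eq_mul]
    rfl
  refine ⟨fun z => Matrix.of fun r k =>
    Y k.1 r.1 z.1 z.2 r.2.1 r.2.2 k.2.1 k.2.2.1 k.2.2.2, ?_, ?_⟩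
  · intro g l i j p q a b
    obtain ⟨t, ht⟩ : ∃ t, t = (Equiv.ofBijective _ d.bij').symm g := ⟨_, rfl⟩
    have hg : ι t.2.1 * d.x t.1 * κ (d.r t.1 t.2.2) = g := by
      have h1 := (Equiv.ofBijective _ d.bij').apply_symm_apply g
      rw [← ht] at h1
      exact h1
    have hW : ∀ e, WW d T bu bv ⟨(i, j), ((a, b), e)⟩ g = if e.1 = t.1 then
        ∑ c : (T e.1).D e.2.1, (S.π i t.2.1 * (bu e.1).B i) a ⟨e.2.1, (c, e.2.2.1)⟩ *
          ((bv e.1).B' j * S'.π j (d.r _ t.2.2)) ⟨e.2.1, (c, e.2.2.2)⟩ b else 0 := by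
      intro e
      rw [ht]
      rfl
    rw [← hg, key, hg]
    simp only [hW, Matrix.of_apply]
    rw [Fintype.sum_sigma, Finset.sum_eq_single t.1, Fintype.sum_sigma]
    · refine Finset.sum_congr rfl fun k _ => ?_
      rw [Fintype.sum_prod_type]
      refine Finset.sum_congr rfl fun μ _ => Finset.sum_congr rfl fun ν _ => ?_
      rw [if_pos rfl]
    · intro y _ hy
      refine Finset.sum_eq_zero fun e _ => ?_
      rw [if_neg hy, mul_zero]
    · intro h
      exact absurd (Finset.mem_univ _) h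
  · intro z l p q y k μ ν c
    exact hY2 y l z.1 z.2 p q k c μ ν

end MP0775d3.Zf
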