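import Pool.Agent.Lib.MP_0775d3_lc.Zf.Defs

/-! Project ZF: double cosets of two subgroups. -/

set_option linter.unusedSectionVars false
set_option linter.unusedVariables false

namespace MP0775d3.Zf

open MP0775d3.Ox

variable {G H H' : Type} [Group G] [Group H] [Group H']

/-- The pairs `(h, h')` with `ι h * x = x * κ h'`. -/
private def ddD (ι : H →* G) (κ : H' →* G) (x : G) : Subgroup (H × H') where
  carrier := {p | ι p.1 * x = x * κ p.2}
  one_mem' := by
    change ι 1 * x = x * κ 1
    rw [map_one, map_one, one_mul, mul_one]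
  mul_mem' := by
    intro a b ha hb
    change ι (a.1 * b.1) * x = x * κ (a.2 * b.2)
    have ha' : ι a.1 * x = x * κ a.2 := ha
    have hb' : ι b.1 * x = x * κ b.2 := hb
    rw [map_mul, map_mul, mul_assoc, hb', ← mul_assoc, ha', mul_assoc]
  inv_mem' := by
    intro a ha
    change ι (a.1⁻¹) * x = x * κ (a.2⁻¹)
    have ha' : ι a.1 * x = x * κ a.2 := ha
    rw [map_inv, map_inv, inv_mul_eq_iff_eq_mul, ← mul_assoc, ha', mul_assoc, mul_inv_cancel,
      mul_one]

private theorem ddD_mem {ι : H →* G} {κ : H' →* G} {x : G} (d : ↥(ddD ι κ x)) :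
    ι d.1.1 * x = x * κ d.1.2 := d.2

/-- The first projection. -/
private def ddu (ι : H →* G) (κ : H' →* G) (x : G) : ↥(ddD ι κ x) →* H :=
  (MonoidHom.fst H H').comp (ddD ι κ x).subtype

/-- The second projection. -/
private def ddv (ι : H →* G) (κ : H' →* G) (x : G) : ↥(ddD ι κ x) →* H' :=
  (MonoidHom.snd H H').comp (ddD ι κ x).subtype

private theorem ddu_inj {ι : H →* G} {κ : H' →* G} (hκ : Function.Injective κ) (x : G) :
    Function.Injective (ddu ι κ x) := by
  intro a b h
  have h1 : a.1.1 = b.1.1 := h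
  have h2 : κ a.1.2 = κ b.1.2 := by
    refine mul_left_cancel (a := x) ?_
    rw [← ddD_mem a, ← ddD_mem b, h1]
  exact Subtype.ext (Prod.ext h1 (hκ h2))

private theorem ddv_inj {ι : H →* G} {κ : H' →* G} (hι : Function.Injective ι) (x : G) :
    Function.Injective (ddv ι κ x) := by
  intro a b h
  have h1 : a.1.2 = b.1.2 := h
  have h2 : ι a.1.1 = ι b.1.1 := by
    refine mul_right_cancel (b := x) ?_
    rw [ddD_mem a, ddD_mem b, h1]
  exact Subtype.ext (Prod.ext (hι h2) h1)

private theorem dd_bij {D K : Type} [Group D] [Group K] (v : D →* K)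
    (hv : Function.Injective v) :
    Function.Bijective fun p : D × (K ⧸ v.range) => v p.1 * (Quotient.out p.2)⁻¹ := by
  constructor
  · rintro ⟨d, q⟩ ⟨d', q'⟩ h
    simp only at h
    have h1 : (Quotient.out q : K) * v d⁻¹ = Quotient.out q' * v d'⁻¹ := by
      have := congrArg Inv.inv h
      rw [mul_inv_rev, mul_inv_rev, inv_inv, inv_inv, ← map_inv, ← map_inv] at this
      exact this
    have hq : q = q' := by
      rw [← Quotient.out_eq q, ← Quotient.out_eq q']
      refine QuotientGroup.eq.2 ?_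
      refine ⟨d⁻¹ * d', ?_⟩
      rw [map_mul, ← mul_left_cancel_iff (a := (Quotient.out q : K)), ← mul_assoc, h1]
      rw [mul_assoc, ← map_mul, inv_mul_cancel, map_one, mul_one, ← mul_assoc,
        mul_inv_cancel, one_mul]
    subst hq
    have h2 := hv (mul_left_cancel h1)
    rw [inv_inj.1 h2]
  · intro k
    obtain ⟨d, hd⟩ : (Quotient.out (QuotientGroup.mk k⁻¹ : K ⧸ v.range))⁻¹ * k⁻¹ ∈ v.range :=
      QuotientGroup.eq.1 (Quotient.out_eq _)
    refine ⟨(d⁻¹, (QuotientGroup.mk k⁻¹ : K ⧸ v.range)), ?_⟩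
    simp only
    rw [map_inv, hd]
    group

/-- PROOF. As `Ox.exists_dc`. `X`: a set of representatives `x` of the double cosets `ι H * x * κ H'` (classes of the relation
`∃ h h', g' = ι h * g * κ h'`, `Quotient.out`). `D x`: the subgroup of `H × H'` of the pairs `(h, h')` with
`ι h * x = x * κ h'`; `u`, `v` the two projections; injective as `ι`, `κ` are. `R x`: the right cosets of `V = (v x).range` in
`H'`, e.g. `H' ⧸ V` with `r q = (Quotient.out q)⁻¹`. `bij`: `h' = v d * r ρ` uniquely. `bij'`: `g = ι h * x * κ h'`,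
`h' = v d * r ρ`, `ι h * x * κ (v d) = ι (h * u d) * x`; injective: from `ι h * x * κ r = ι h₁ * x * κ r₁` one gets
`ι (h₁⁻¹ * h) * x = x * κ (r₁ * r⁻¹)`, so `r₁ * r⁻¹` is in the range of `v`, `ρ = ρ₁`, then `h = h₁`. -/
theorem exists_dd [Finite G] [Finite H] [Finite H'] (ι : H →* G) (κ : H' →* G)
    (hι : Function.Injective ι) (hκ : Function.Injective κ) : Nonempty (Dd ι κ) := by
  classical
  let X := DoubleCoset.Quotient (ι.range : Set G) (κ.range : Set G)
  have : Finite X := inferInstanceAs (Finite (Quotient _))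
  have : Fintype X := Fintype.ofFinite X
  let x : X → G := fun q => Quotient.out q
  have : ∀ q : X, Fintype (H' ⧸ (ddv ι κ (x q)).range) := fun q => Fintype.ofFinite _
  have hmk : ∀ g : G, ∃ h h', g = ι h * x (DoubleCoset.mk ι.range κ.range g) * κ h' := by
    intro g
    obtain ⟨_, ⟨h, rfl⟩, _, ⟨h', rfl⟩, he⟩ := (DoubleCoset.eq ι.range κ.range _ _).1
      (DoubleCoset.out_eq' ι.range κ.range (DoubleCoset.mk ι.range κ.range g))
    exact ⟨h, h', he⟩
  refine ⟨{ X := X
            D := fun q => ↥(ddD ι κ (x q))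
            u := fun q => ddu ι κ (x q)
            v := fun q => ddv ι κ (x q)
            x := x
            R := fun q => H' ⧸ (ddv ι κ (x q)).range
            r := fun q ρ => (Quotient.out ρ)⁻¹
            comm := fun q d => ddD_mem d
            full := fun q h h' he => ⟨⟨(h, h'), he⟩, rfl, rfl⟩
            bij := fun q => dd_bij (ddv ι κ (x q)) (ddv_inj hι (x q))
            bij' := ?_
            uinj := fun q => ddu_inj hκ (x q)
            vinj := fun q => ddv_inj hι (x q) }⟩
  constructor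
  · rintro ⟨q, h, ρ⟩ ⟨q', h', ρ'⟩ he
    have he' : ι h * x q * κ ((Quotient.out ρ : H')⁻¹) =
        ι h' * x q' * κ ((Quotient.out ρ' : H')⁻¹) := he
    have hq : q = q' := by
      have h1 : DoubleCoset.mk ι.range κ.range (x q) = DoubleCoset.mk ι.range κ.range (x q') := by
        refine (DoubleCoset.eq ι.range κ.range _ _).2 ⟨ι (h'⁻¹ * h), ⟨_, rfl⟩,
          κ ((Quotient.out ρ : H')⁻¹ * Quotient.out ρ'), ⟨_, rfl⟩, ?_⟩
        have h2 : x q' = (ι h')⁻¹ * (ι h' * x q' * κ ((Quotient.out ρ' : H')⁻¹)) *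
            κ (Quotient.out ρ' : H') := by
          rw [map_inv]
          group
        refine h2.trans ?_
        rw [← he', map_mul, map_mul, map_inv, map_inv]
        group
      have h3 := DoubleCoset.out_eq' ι.range κ.range q
      have h4 := DoubleCoset.out_eq' ι.range κ.range q'
      rw [← h3, ← h4]
      exact h1
    subst hq
    have hd : ι (h'⁻¹ * h) * x q = x q * κ ((Quotient.out ρ' : H')⁻¹ * Quotient.out ρ) := by
      have h2 : ι h * x q = ι h' * x q * κ ((Quotient.out ρ' : H')⁻¹) *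
          κ (Quotient.out ρ : H') := by
        rw [← he', map_inv]
        group
      rw [map_mul, mul_assoc, h2, map_inv, map_mul]
      group
    have hb := (dd_bij (ddv ι κ (x q)) (ddv_inj hι (x q))).1
      (a₁ := (⟨(h'⁻¹ * h, (Quotient.out ρ' : H')⁻¹ * Quotient.out ρ), hd⟩, ρ))
      (a₂ := (1, ρ')) (by
        simp only [map_one, one_mul]
        change ((Quotient.out ρ' : H')⁻¹ * Quotient.out ρ) * (Quotient.out ρ : H')⁻¹ = _
        rw [mul_assoc, mul_inv_cancel, mul_one])
    rw [Prod.mk.injEq] at hb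
    obtain ⟨hb1, hb2⟩ := hb
    subst hb2
    have h7 : h'⁻¹ * h = 1 := congrArg (fun z => z.1.1) hb1
    have h8 : h = h' := (inv_mul_eq_one.1 h7).symm
    rw [h8]
  · intro g
    obtain ⟨h, h', hg⟩ := hmk g
    obtain ⟨⟨d, ρ⟩, hd⟩ := (dd_bij (ddv ι κ (x (DoubleCoset.mk ι.range κ.range g)))
      (ddv_inj hι (x (DoubleCoset.mk ι.range κ.range g)))).2 h'
    refine ⟨⟨DoubleCoset.mk ι.range κ.range g, h * d.1.1, ρ⟩, ?_⟩
    have hd' : d.1.2 * (Quotient.out ρ : H')⁻¹ = h' := hd
    change ι (h * d.1.1) * x (DoubleCoset.mk ι.range κ.range g) *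
      κ ((Quotient.out ρ : H')⁻¹) = g
    rw [map_mul, mul_assoc (ι h), ddD_mem d, ← mul_assoc, mul_assoc _ (κ d.1.2), ← map_mul, hd',
      ← hg]

end MP0775d3.Zf
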