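import Pool.Agent.Lib.MP_0775d3_lc.Zf.Step
import Pool.Agent.Lib.MP_0775d3_lc.Zf.Chain
import Pool.Agent.Lib.MP_0775d3_lc.Zf.Dd

/-! Project ZF: the induction. -/

set_option linter.unusedSectionVars false
set_option linter.unusedVariables false

namespace MP0775d3.Zf

open Matrix MP0775d3.Cf MP0775d3.Ox

/-- The depth. -/
def dep (t₁ : ℕ) : ℕ → ℕ → ℕ
  | 0, _ => 1
  | _ + 1, 0 => 1
  | t' + 1, t + 1 => dep t₁ (t' + 1) t + dep t₁ t' (t' + 1) + dep t₁ t' t' + t₁ + 3

private theorem core_dep_pos (t₁ : ℕ) : ∀ a c : ℕ, 1 ≤ dep t₁ a c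
  | 0, c => by rw [dep]
  | a + 1, 0 => by rw [dep]
  | a + 1, c + 1 => by
    rw [dep]
    omega

private theorem core_base {K b s : ℝ} (hK : 1 ≤ K) (hb : 1 ≤ b) (hbs : b ≤ s) (G : Type)
    [Group G] [Finite G] (S S' : Sys G) (w : Iw S S') (h : (Nat.card G : ℝ) ≤ b) :
    Bx (K * Nat.card G) s 1 w.F := by
  classical
  have hfin : Fintype G := Fintype.ofFinite G
  have h1 : (Fintype.card (Σ i, S.D i × S'.D (w.e i)) : ℝ) = Nat.card G := by
    exact_mod_cast w.card_sum
  have h2 : (Fintype.card G : ℝ) = Nat.card G := by rw [Nat.card_eq_fintype_card]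
  have h3 : (Nat.card G : ℝ) ≤ K * Nat.card G := le_mul_of_one_le_left (Nat.cast_nonneg _) hK
  refine bx_of_blk (blk_card ?_ ?_ _) (hb.trans hbs) ?_ ?_
  · rw [h1]
    exact h.trans hbs
  · rw [h2]
    exact h.trans hbs
  · rw [h1]
    exact h3
  · rw [h2]
    exact h3

/-- PROOF. Induction on `t'` (for all `t`, `G`, `S`, `S'`, `w`), inner induction on `t`. `t' = 0` or `t = 0`: `|G| ≤ b ≤ s`, and `w.F` is one
block (`Iw.card_sum`, `blk_card`, `bx_of_blk`, `Bx.mono`). `t' + 1`, `t + 1`: `H`, `ι`, `S₀`, `A` and `H'`, `κ`, `S₀'`, `A'` from `Cs`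
(`obtain`, `rfl`); `exists_dd`; for every `y` a system `T y` of `d.D y` with `Cs b t'`: `Cs.cn` for `S₀'`, `cn_sub` for `d.v y`, `cs_exists`;
`bu y`, `bv y` from `exists_br`. `(brL (bu y)).F`: inner hypothesis, levels `t` (for `S₀`) and `t' + 1` (for `(brAd (bu y)).sys`:
`stp_u`). `(brR (bv y)).F`: outer hypothesis, levels `t' + 1` (for `(brAd (bv y)).sys`: `stp_v`) and `t'` (for `S₀'`). `(T y).F`: outer
hypothesis for `Iw.refl`, levels `t'`, `t'` (`Iw.refl_F`). `step`. The groups `H`, `H'`, `D y` have at most `|G| ≤ N` elements. -/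
theorem core {K b s N : ℝ} {t₁ : ℕ} (hK : 1 ≤ K) (hb : 1 ≤ b) (hbs : b ≤ s) (ht₁ : 1 ≤ t₁)
    (hFP : FP K N s t₁) (t' : ℕ) : ∀ (t : ℕ) (G : Type) [Group G] [Finite G],
      (Nat.card G : ℝ) ≤ N → ∀ (S S' : Sys G) (w : Iw S S'), Cs b t G S → Cs b t' G S' →
        Bx (K * Nat.card G) s (dep t₁ t' t) w.F := by
  induction t' with
  | zero =>
    intro t G _ _ _ S S' w _ h'
    rw [dep]
    exact core_base hK hb hbs G S S' w h'
  | succ t' iho =>
    intro t
    induction t with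
    | zero =>
      intro G _ _ _ S S' w h _
      rw [dep]
      exact core_base hK hb hbs G S S' w h
    | succ t ihi =>
      intro G _ _ hN S S' w hS hS'
      obtain ⟨H, gH, fH, ι, S₀, A, hι, hS₀, rfl⟩ := hS
      obtain ⟨H', gH', fH', κ, S₀', A', hκ, hS₀', rfl⟩ := hS'
      obtain ⟨d⟩ := exists_dd ι κ hι.1 hκ.1
      have hT : ∀ y, ∃ T : Sys (d.D y), Cs b t' (d.D y) T := fun y =>
        cs_exists t' (d.D y) (cn_sub hb t' H' (d.D y) (d.v y) (d.vinj y) (Cs.cn t' H' S₀' hS₀'))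
      choose T hT using hT
      obtain ⟨bu⟩ : Nonempty (∀ y, Br (d.u y) S₀ (T y)) :=
        ⟨fun y => Classical.choice (exists_br _ _ _)⟩
      obtain ⟨bv⟩ : Nonempty (∀ y, Br (d.v y) S₀' (T y)) :=
        ⟨fun y => Classical.choice (exists_br _ _ _)⟩
      have hH : (Nat.card H : ℝ) ≤ N := by
        have h1 : Nat.card H ≤ Nat.card G := Nat.card_le_card_of_injective ι hι.1
        exact le_trans (by exact_mod_cast h1) hN
      have hH' : (Nat.card H' : ℝ) ≤ N := by
        have h1 : Nat.card H' ≤ Nat.card G := Nat.card_le_card_of_injective κ hκ.1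
        exact le_trans (by exact_mod_cast h1) hN
      have hD : ∀ y, (Nat.card (d.D y) : ℝ) ≤ N := by
        intro y
        have h1 : Nat.card (d.D y) ≤ Nat.card H := Nat.card_le_card_of_injective _ (d.uinj y)
        exact le_trans (by exact_mod_cast h1) hH
      have h1 : ∀ y, Bx (K * Nat.card H) s (dep t₁ (t' + 1) t) (brL (bu y)).F := fun y =>
        ihi H hH S₀ _ (brL (bu y)) hS₀
          ⟨d.D y, inferInstance, inferInstance, d.u y, T y, brAd (bu y), stp_u d hb hκ y, hT y, rfl⟩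
      have h2 : ∀ y, Bx (K * Nat.card H') s (dep t₁ t' (t' + 1)) (brR (bv y)).F := fun y =>
        iho (t' + 1) H' hH' _ S₀' (brR (bv y))
          ⟨d.D y, inferInstance, inferInstance, d.v y, T y, brAd (bv y), stp_v d hb hι y, hT y, rfl⟩
          hS₀'
      have h3 : ∀ y, Bx (K * Nat.card (d.D y)) s (dep t₁ t' t') (T y).F := fun y => by
        rw [← Iw.refl_F]
        exact iho t' (d.D y) (hD y) (T y) (T y) (Iw.refl (T y)) (hT y) (hT y)
      have h4 := step A A' w d T bu bv hK hb hbs ht₁ hFP hN hι hκ (core_dep_pos t₁ (t' + 1) t)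
        (core_dep_pos t₁ t' t') h1 h2 h3
      rw [dep]
      exact h4

end MP0775d3.Zf
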