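import Pool.Agent.Lib.MP_0775d3_lc.Zf.IwA

/-! Project ZF: double cosets of two subgroups. Numbers, and the steps. -/

set_option linter.unusedSectionVars false
set_option linter.unusedVariables false

namespace MP0775d3.Zf

open MP0775d3.Ox

variable {G H H' : Type} [Group G] [Group H] [Group H'] {ι : H →* G} {κ : H' →* G} (d : Dd ι κ)

/-- PROOF. `bij'`. -/
theorem dd_card [Finite G] [Finite H] : ∑ y, Nat.card H * Fintype.card (d.R y) = Nat.card G := by
  rw [← Nat.card_congr (Equiv.ofBijective _ d.bij'), Nat.card_sigma]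
  refine Finset.sum_congr rfl fun y _ => ?_
  rw [Nat.card_prod, Nat.card_eq_fintype_card (α := d.R y)]

/-- PROOF. `bij`. -/
theorem dd_card' [Finite H'] (y : d.X) : Nat.card (d.D y) * Fintype.card (d.R y) = Nat.card H' := by
  rw [← Nat.card_congr (Equiv.ofBijective _ (d.bij y)), Nat.card_prod,
    Nat.card_eq_fintype_card (α := d.R y)]

private theorem ddn_stp {G₀ H₀ D₀ : Type} [Group G₀] [Group H₀] [Group D₀] [Finite G₀] {b : ℝ}
    (hb : 1 ≤ b) {L : Subgroup G₀} (hL : (L.index : ℝ) ≤ b ∨ (L.Normal ∧ L.index.Prime))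
    (f : H₀ →* G₀) (u : D₀ →* H₀) (hu : Function.Injective u) (he : u.range = L.comap f) :
    Stp b u := by
  refine ⟨hu, ?_⟩
  have h1 : u.range.index = L.relIndex f.range := by rw [he, Subgroup.index_comap]
  rcases hL with hL | ⟨hn, hp⟩
  · refine Or.inl (le_trans ?_ hL)
    have h2 : L.relIndex f.range ≤ L.relIndex ⊤ :=
      Subgroup.relIndex_le_of_le_right le_top (by
        rw [Subgroup.relIndex_top_right]
        exact Subgroup.index_ne_zero_of_finite)
    rw [Subgroup.relIndex_top_right] at h2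
    rw [h1]
    exact_mod_cast h2
  · have h2 : u.range.index ∣ L.index := by
      rw [h1]
      exact Subgroup.relIndex_dvd_index_of_normal L f.range
    rcases (Nat.dvd_prime hp).1 h2 with h3 | h3
    · refine Or.inl ?_
      rw [h3, Nat.cast_one]
      exact hb
    · refine Or.inr ⟨?_, ?_⟩
      · rw [he]
        exact hn.comap f
      · rw [h3]
        exact hp

/-- PROOF. `(d.u y).range` is the preimage under `ι` of `K = x * κ.range * x⁻¹` (`comm`, `full`), which has the index of
`κ.range`: the index of the preimage is at most the index of `K` (`Subgroup.relIndex`, or the injection of the cosets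
`H ⧸ ι⁻¹ K → G ⧸ K`). If `κ.range` is normal then `K = κ.range`, the preimage is normal and its index divides the prime
index (`H ⧸ ι⁻¹ K` embeds in the group `G ⧸ K`): it is prime, or `1 ≤ b`. -/
theorem stp_u [Finite G] [Finite H] [Finite H'] {b : ℝ} (hb : 1 ≤ b) (hκ : Stp b κ) (y : d.X) :
    Stp b (d.u y) := by
  refine ddn_stp hb hκ.2 ((MulAut.conj (d.x y)⁻¹).toMonoidHom.comp ι) (d.u y) (d.uinj y) ?_
  ext h
  rw [MonoidHom.mem_range, Subgroup.mem_comap, MonoidHom.mem_range]
  have e : ((MulAut.conj (d.x y)⁻¹).toMonoidHom.comp ι) h = (d.x y)⁻¹ * ι h * d.x y := by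
    change (d.x y)⁻¹ * ι h * ((d.x y)⁻¹)⁻¹ = _
    rw [inv_inv]
  rw [e]
  constructor
  · rintro ⟨k, rfl⟩
    refine ⟨d.v y k, ?_⟩
    rw [mul_assoc, d.comm, inv_mul_cancel_left]
  · rintro ⟨h', hh⟩
    obtain ⟨k, hk, -⟩ := d.full y h h' (by
      rw [hh, mul_assoc, mul_inv_cancel_left])
    exact ⟨k, hk⟩

/-- PROOF. The same: `(d.v y).range` is the preimage under `κ` of `x⁻¹ * ι.range * x`. -/
theorem stp_v [Finite G] [Finite H] [Finite H'] {b : ℝ} (hb : 1 ≤ b) (hι : Stp b ι) (y : d.X) :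
    Stp b (d.v y) := by
  refine ddn_stp hb hι.2 ((MulAut.conj (d.x y)).toMonoidHom.comp κ) (d.v y) (d.vinj y) ?_
  ext h'
  rw [MonoidHom.mem_range, Subgroup.mem_comap, MonoidHom.mem_range]
  have e : ((MulAut.conj (d.x y)).toMonoidHom.comp κ) h' = d.x y * κ h' * (d.x y)⁻¹ := rfl
  rw [e]
  constructor
  · rintro ⟨k, rfl⟩
    refine ⟨d.u y k, ?_⟩
    rw [← d.comm, mul_inv_cancel_right]
  · rintro ⟨h, hh⟩
    obtain ⟨k, -, hk⟩ := d.full y h h' (by
      rw [hh, inv_mul_cancel_right])
    exact ⟨k, hk⟩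

end MP0775d3.Zf
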