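import Pool.Agent.Lib.MP_0775d3_lc.Ox.AdaptC
import Pool.Agent.Lib.MP_0775d3_lc.Ox.Schur

/-! Project ZF: Fourier transforms with pairs of bases. Definitions. -/

set_option linter.unusedSectionVars false
set_option linter.unusedVariables false

namespace MP0775d3.Zf

open Matrix MP0775d3.Cf MP0775d3.Ox

variable {G H H' D : Type} [Group G] [Group H] [Group H'] [Group D]

/-- Two systems of the same group, with intertwining matrices. -/
structure Iw (S S' : Sys G) where
  e : S.I → S'.I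
  he : Function.Bijective e
  B : ∀ i, Matrix (S.D i) (S'.D (e i)) ℂ
  B' : ∀ i, Matrix (S'.D (e i)) (S.D i) ℂ
  inv : ∀ i, B i * B' i = 1
  inv' : ∀ i, B' i * B i = 1
  eq : ∀ i g, S.π i g * B i = B i * S'.π (e i) g

/-- The Fourier matrix with left bases from `S` and right bases from `S'`. -/
def Iw.F {S S' : Sys G} (w : Iw S S') : Matrix (Σ i, S.D i × S'.D (w.e i)) G ℂ :=
  Matrix.of fun z g => (S.π z.1 g * w.B z.1) z.2.1 z.2.2

/-- Its inverse. -/
noncomputable def Iw.F' {S S' : Sys G} (w : Iw S S') :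
    Matrix G (Σ i, S.D i × S'.D (w.e i)) ℂ :=
  Matrix.of fun g z => ((Fintype.card (S.D z.1) : ℂ) / Nat.card G) *
    (w.B' z.1 * S.π z.1 g⁻¹) z.2.2 z.2.1

/-- The same system twice. -/
def Iw.refl (S : Sys G) : Iw S S where
  e i := i
  he := Function.bijective_id
  B i := (1 : Matrix (S.D i) (S.D i) ℂ)
  B' i := (1 : Matrix (S.D i) (S.D i) ℂ)
  inv _ := Matrix.mul_one _
  inv' _ := Matrix.mul_one _
  eq i g := (Matrix.mul_one _).trans (Matrix.one_mul _).symm

/-- The step of a chain: index at most `b`, or normal of prime index. -/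
def Stp (b : ℝ) (ι : H →* G) : Prop :=
  Function.Injective ι ∧ ((ι.range.index : ℝ) ≤ b ∨ (ι.range.Normal ∧ ι.range.index.Prime))

/-- A chain of `t` subgroups, each of index at most `b` or normal of prime index in the one before; the
last one has at most `b` elements. -/
def Cn (b : ℝ) : ℕ → ∀ (G : Type) [Group G], Prop
  | 0, G, _ => (Nat.card G : ℝ) ≤ b
  | t + 1, G, _ => ∃ (H : Type) (_ : Group H) (_ : Finite H) (ι : H →* G), Stp b ι ∧ Cn b t H

/-- A system of representations adapted to a chain of `t` subgroups. -/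
def Cs (b : ℝ) : ℕ → ∀ (G : Type) [Group G], Sys G → Prop
  | 0, G, _, _ => (Nat.card G : ℝ) ≤ b
  | t + 1, G, _, S => ∃ (H : Type) (_ : Group H) (_ : Finite H) (ι : H →* G) (S₀ : Sys H)
      (A : Ad ι S₀), Stp b ι ∧ Cs b t H S₀ ∧ S = A.sys

/-- The double cosets `H x H'` with their intersections `D = H ∩ x H' x⁻¹` and coset representatives. -/
structure Dd (ι : H →* G) (κ : H' →* G) where
  X : Type
  [fX : Fintype X]
  [dX : DecidableEq X]
  D : X → Type
  [gD : ∀ x, Group (D x)]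
  [nD : ∀ x, Finite (D x)]
  u : ∀ x, D x →* H
  v : ∀ x, D x →* H'
  x : X → G
  R : X → Type
  [fR : ∀ x, Fintype (R x)]
  [dR : ∀ x, DecidableEq (R x)]
  r : ∀ x, R x → H'
  comm : ∀ y d, ι (u y d) * x y = x y * κ (v y d)
  full : ∀ y h h', ι h * x y = x y * κ h' → ∃ d, u y d = h ∧ v y d = h'
  bij : ∀ y, Function.Bijective fun p : D y × R y => v y p.1 * r y p.2
  bij' : Function.Bijective fun p : (Σ y, H × R y) => ι p.2.1 * x p.1 * κ (r p.1 p.2.2)
  uinj : ∀ y, Function.Injective (u y)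
  vinj : ∀ y, Function.Injective (v y)

attribute [instance] Dd.fX Dd.dX Dd.gD Dd.nD Dd.fR Dd.dR

/-- The system adapted to `D` that belongs to branching data. -/
def brAd {ι : D →* H} {S : Sys H} {T : Sys D} (b : Br ι S T) : Ad ι T where
  I := S.I
  P := b.M
  ρ i h := b.B' i * S.π i h * b.B i
  ne i := by
    rw [← Fintype.card_pos_iff, ← card_of_inv (b.inv i) (b.inv' i)]
    exact Fintype.card_pos
  one i := by rw [S.one, Matrix.mul_one, b.inv']
  mul i g h := by
    calc b.B' i * S.π i (g * h) * b.B i = b.B' i * (S.π i g * 1 * S.π i h) * b.B i := by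
          rw [S.mul, Matrix.mul_one]
      _ = b.B' i * (S.π i g * (b.B i * b.B' i) * S.π i h) * b.B i := by rw [b.inv]
      _ = b.B' i * S.π i g * b.B i * (b.B' i * S.π i h * b.B i) := by simp only [Matrix.mul_assoc]
  sq := by
    rw [← S.sq]
    exact Finset.sum_congr rfl fun i _ => by rw [card_of_inv (b.inv i) (b.inv' i)]
  tr g hg := by
    rw [← S.tr g hg]
    refine Finset.sum_congr rfl fun i _ => ?_
    rw [← card_of_inv (b.inv i) (b.inv' i), Matrix.trace_mul_comm, ← Matrix.mul_assoc, b.inv,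
      Matrix.one_mul]
  res i d := by
    rw [Matrix.mul_assoc, b.eq, ← Matrix.mul_assoc, b.inv', Matrix.one_mul]

/-- From `S` to the adapted system. -/
def brL {ι : D →* H} {S : Sys H} {T : Sys D} (b : Br ι S T) : Iw S (brAd b).sys where
  e i := i
  he := Function.bijective_id
  B := b.B
  B' := b.B'
  inv := b.inv
  inv' := b.inv'
  eq i g := by
    change S.π i g * b.B i = b.B i * (b.B' i * S.π i g * b.B i)
    rw [Matrix.mul_assoc, ← Matrix.mul_assoc (b.B i), b.inv, Matrix.one_mul]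

/-- From the adapted system to `S`. -/
def brR {ι : D →* H} {S : Sys H} {T : Sys D} (b : Br ι S T) : Iw (brAd b).sys S where
  e i := i
  he := Function.bijective_id
  B := b.B'
  B' := b.B
  inv := b.inv'
  inv' := b.inv
  eq i g := by
    change b.B' i * S.π i g * b.B i * b.B' i = b.B' i * S.π i g
    rw [Matrix.mul_assoc, b.inv, Matrix.mul_one]

section

variable {ι : H →* G} {κ : H' →* G} {S : Sys H} {S' : Sys H'} (A : Ad ι S) (A' : Ad κ S')
  (w : Iw A.sys A'.sys) (d : Dd ι κ) (T : ∀ y, Sys (d.D y)) (bu : ∀ y, Br (d.u y) S (T y))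
  (bv : ∀ y, Br (d.v y) S' (T y))

/-- The rows of a block: the multiplicities in the representations of `G`. -/
abbrev RW (z : S.I × S'.I) : Type := Σ l : A.I, A.P l z.1 × A'.P (w.e l) z.2

/-- The columns of a block: the multiplicities on the double cosets. -/
abbrev KW (z : S.I × S'.I) : Type := Σ y, Σ k, (bu y).M z.1 k × (bv y).M z.2 k

/-- The block of `ρ l g * B l`. -/
def MX (l : A.I) (g : G) {i : S.I} {j : S'.I} (p : A.P l i) (q : A'.P (w.e l) j) :
    Matrix (S.D i) (S'.D j) ℂ :=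
  Matrix.of fun a b => (A.sys.π l g * w.B l) ⟨i, (a, p)⟩ ⟨j, (b, q)⟩

/-- The two-sided coordinates on `G`. -/
noncomputable def WW : Matrix (Σ z : S.I × S'.I, (S.D z.1 × S'.D z.2) × KW d T bu bv z) G ℂ :=
  Matrix.of fun z g => if z.2.2.1 = ((Equiv.ofBijective _ d.bij').symm g).1 then
    ∑ c : (T z.2.2.1).D z.2.2.2.1,
      (S.π z.1.1 ((Equiv.ofBijective _ d.bij').symm g).2.1 * (bu z.2.2.1).B z.1.1) z.2.1.1
        ⟨z.2.2.2.1, (c, z.2.2.2.2.1)⟩ *
      ((bv z.2.2.1).B' z.1.2 * S'.π z.1.2 (d.r _ ((Equiv.ofBijective _ d.bij').symm g).2.2))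
        ⟨z.2.2.2.1, (c, z.2.2.2.2.2)⟩ z.2.1.2
    else 0

/-- The representations are expressed by the coordinates `W`, with coefficients that only see the
multiplicities. -/
def Tw {K : S.I × S'.I → Type} [∀ z, Fintype (K z)]
    (W : Matrix (Σ z : S.I × S'.I, (S.D z.1 × S'.D z.2) × K z) G ℂ)
    (Y : ∀ z : S.I × S'.I, Matrix (RW A A' w z) (K z) ℂ) : Prop :=
  ∀ g l i j (p : A.P l i) (q : A'.P (w.e l) j) a b, MX A A' w l g p q a b =
    ∑ κ, Y (i, j) ⟨l, (p, q)⟩ κ * W ⟨(i, j), ((a, b), κ)⟩ g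

end

end MP0775d3.Zf
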