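import Pool.Agent.Lib.MP_0775d3_lc.Zf.ClsA
import Pool.Agent.Lib.MP_0775d3_lc.Cf.CalcD

/-! Project ZF: the matrices of Fourier transforms. -/

set_option linter.unusedSectionVars false
set_option linter.unusedVariables false

namespace MP0775d3.Zf

open Matrix MP0775d3.Cf MP0775d3.Ox MP0775d3.Kron MP0775d3.Ev

/-- The matrix of a Fourier transform of `G`, that is of an isomorphism of the group algebra with a product of matrix
algebras: the columns belong to the elements of `G`, the rows to the matrix entries. -/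
noncomputable def dft {G : Type} [Group G] {k : ℕ} {d : Fin k → ℕ}
    (Φ : MonoidAlgebra ℂ G ≃ₐ[ℂ] ∀ i, Matrix (Fin (d i)) (Fin (d i)) ℂ) :
    Matrix (Σ i, Fin (d i) × Fin (d i)) G ℂ :=
  Matrix.of fun z g => Φ (MonoidAlgebra.single g 1) z.1 z.2.1 z.2.2

/-- PROOF. As `Sys.mass`. -/
theorem exists_dft {G : Type} [Group G] [Finite G] (S : Sys G) : ∃ (k : ℕ) (d : Fin k → ℕ)
    (Φ : MonoidAlgebra ℂ G ≃ₐ[ℂ] ∀ i, Matrix (Fin (d i)) (Fin (d i)) ℂ)
    (e : (Σ i, Fin (d i) × Fin (d i)) → Σ i, S.D i × S.D i), Function.Injective e ∧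
      dft Φ = S.F.submatrix e id := by
  classical
  have hfin : Fintype G := Fintype.ofFinite G
  obtain ⟨ε⟩ : Nonempty (Fin (Fintype.card S.I) ≃ S.I) := ⟨(Fintype.equivFin S.I).symm⟩
  let d : Fin (Fintype.card S.I) → ℕ := fun i => Fintype.card (S.D (ε i))
  let f : ∀ i, Fin (d i) ≃ S.D (ε i) := fun i => (Fintype.equivFin (S.D (ε i))).symm
  let ψ : ∀ i, G →* Matrix (Fin (d i)) (Fin (d i)) ℂ := fun i =>
    { toFun := fun g => (S.π (ε i) g).submatrix (f i) (f i)
      map_one' := by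
        rw [S.one]
        exact Matrix.submatrix_one_equiv (f i)
      map_mul' := fun g h => by
        rw [S.mul]
        exact (Matrix.submatrix_mul_equiv (S.π (ε i) g) (S.π (ε i) h) (f i) (f i) (f i)).symm }
  let Φ : MonoidAlgebra ℂ G →ₐ[ℂ] ∀ i, Matrix (Fin (d i)) (Fin (d i)) ℂ :=
    AlgHom.pi fun i => MonoidAlgebra.lift ℂ _ G (ψ i)
  have hΦ : ∀ x i a b, Φ x i a b = ∑ g, x.coeff g * S.π (ε i) g (f i a) (f i b) := by
    intro x i a b
    have h1 : Φ x i = ∑ g, x.coeff g • ψ i g := by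
      refine Eq.trans (MonoidAlgebra.lift_apply (ψ i) x) ?_
      exact Finsupp.sum_fintype x.coeff (fun g c => c • ψ i g) (fun g => zero_smul ℂ _)
    have h2 : Φ x i a b = (∑ g, x.coeff g • ψ i g) a b := by rw [h1]
    rw [h2, Matrix.sum_apply]
    rfl
  have hinj : Function.Injective Φ := by
    refine (injective_iff_map_eq_zero Φ).2 fun x hx => ?_
    have h1 : S.F *ᵥ (fun g => x.coeff g) = 0 := by
      funext z
      obtain ⟨i, a, b⟩ := z
      obtain ⟨i, rfl⟩ := ε.surjective i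
      have h2 := hΦ x i ((f i).symm a) ((f i).symm b)
      rw [hx, Equiv.apply_symm_apply, Equiv.apply_symm_apply] at h2
      rw [Matrix.mulVec, dotProduct]
      refine Eq.trans ?_ h2.symm
      exact Finset.sum_congr rfl fun g _ => mul_comm _ _
    have h3 : (S.F' * S.F) *ᵥ (fun g => x.coeff g) = 0 := by
      rw [← Matrix.mulVec_mulVec, h1, Matrix.mulVec_zero]
    rw [S.F'_mul_F, Matrix.one_mulVec] at h3
    exact MonoidAlgebra.ext (Finsupp.ext fun g => congrFun h3 g)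
  have hdim : Module.finrank ℂ (MonoidAlgebra ℂ G) =
      Module.finrank ℂ (∀ i, Matrix (Fin (d i)) (Fin (d i)) ℂ) := by
    rw [Module.finrank_eq_card_basis (MonoidAlgebra.basis G ℂ), Module.finrank_pi_fintype]
    have h1 : ∀ i, Module.finrank ℂ (Matrix (Fin (d i)) (Fin (d i)) ℂ) =
        Fintype.card (S.D (ε i)) * Fintype.card (S.D (ε i)) := by
      intro i
      rw [Module.finrank_matrix, Module.finrank_self, mul_one, Fintype.card_fin]
    rw [Finset.sum_congr rfl fun i _ => h1 i,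
      Equiv.sum_comp ε (fun i => Fintype.card (S.D i) * Fintype.card (S.D i)), S.sq,
      Nat.card_eq_fintype_card]
  have hsurj : Function.Surjective Φ :=
    (LinearMap.injective_iff_surjective_of_finrank_eq_finrank hdim (f := Φ.toLinearMap)).1 hinj
  refine ⟨_, d, AlgEquiv.ofBijective Φ ⟨hinj, hsurj⟩,
    fun z => ⟨ε z.1, (f z.1 z.2.1, f z.1 z.2.2)⟩, ?_, ?_⟩
  · rintro ⟨i, a, b⟩ ⟨j, a', b'⟩ h
    have hij : i = j := ε.injective (congrArg Sigma.fst h)
    subst hij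
    have h1 := eq_of_heq (Sigma.mk.inj h).2
    have h2 : a = a' := (f i).injective (congrArg Prod.fst h1)
    have h3 : b = b' := (f i).injective (congrArg Prod.snd h1)
    rw [h2, h3]
  · ext z g
    obtain ⟨i, a, b⟩ := z
    change Φ (MonoidAlgebra.single g 1) i a b = S.π (ε i) g (f i a) (f i b)
    rw [hΦ, Finset.sum_eq_single g]
    · rw [MonoidAlgebra.coeff_single, Finsupp.single_eq_same, one_mul]
    · intro x _ hx
      rw [MonoidAlgebra.coeff_single, Finsupp.single_eq_of_ne hx, zero_mul]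
    · intro h
      exact absurd (Finset.mem_univ g) h

private theorem four_pow (C : ℝ) {a : ℝ} (ha : 0 < a) :
    ∃ n₀ : ℕ, ∀ n : ℕ, n₀ ≤ n → C ≤ (n : ℝ) ^ a := by
  have h1 : Filter.Tendsto (fun n : ℕ => (n : ℝ) ^ a) Filter.atTop Filter.atTop :=
    (tendsto_rpow_atTop ha).comp tendsto_natCast_atTop_atTop
  exact Filter.eventually_atTop.1 (Filter.tendsto_atTop.1 h1 C)

/-- Every group with a chain of subgroups has a Fourier transform that is a product of `t` box matrices; its matrix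
has rank at most `n ^ (1 - γ)` up to `n ^ δ` changes in each row and column. -/
theorem z_four (δ : ℝ) (hδ : 0 < δ) : ∃ h : ℝ, 0 < h ∧ ∃ t : ℕ, ∃ C : ℝ, ∃ γ : ℝ, 0 < γ ∧
    ∃ n₀ : ℕ, ∀ (G : Type) [Group G] [Fintype G], n₀ ≤ Fintype.card G →
      Ch ((Fintype.card G : ℝ) ^ h) G → ∃ (k : ℕ) (d : Fin k → ℕ)
        (Φ : MonoidAlgebra ℂ G ≃ₐ[ℂ] ∀ i, Matrix (Fin (d i)) (Fin (d i)) ℂ),
        Bx (C * Fintype.card G) ((Fintype.card G : ℝ) ^ δ) t (dft Φ) ∧
        ∀ e : G ≃ (Σ i, Fin (d i) × Fin (d i)),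
          Dec ((dft Φ).submatrix e id) ((Fintype.card G : ℝ) ^ (1 - γ))
            ((Fintype.card G : ℝ) ^ δ) := by
  classical
  obtain ⟨t, ht, C, hC, hfs⟩ := zfs (δ / 8) (by positivity)
  obtain ⟨γ, hγ, n₁, hdec⟩ := bx_dec (δ / 2) (δ / 2) (half_pos hδ) (half_pos hδ) t
  obtain ⟨n₂, hn₂⟩ := four_pow C (show 0 < δ / 4 by positivity)
  obtain ⟨n₃, hn₃⟩ := four_pow C hγ
  refine ⟨δ / 8, by positivity, t, C, γ, hγ, n₁ + n₂ + n₃ + 1, ?_⟩
  intro G _ _ hn hG
  have h2 : C ≤ (Fintype.card G : ℝ) ^ (δ / 4) := hn₂ _ (by omega)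
  have h3 : C ≤ (Fintype.card G : ℝ) ^ γ := hn₃ _ (by omega)
  have h1 : n₁ ≤ Fintype.card G := by omega
  obtain ⟨n, hnn⟩ : ∃ n : ℝ, n = (Fintype.card G : ℝ) := ⟨_, rfl⟩
  have hn1 : 1 ≤ n := by
    rw [hnn]
    exact_mod_cast (show 1 ≤ Fintype.card G by omega)
  have hn0 : 0 < n := by linarith
  have hnc : (Nat.card G : ℝ) = n := by rw [hnn, Nat.card_eq_fintype_card]
  rw [← hnn] at h2 h3 hG
  obtain ⟨S, hS⟩ := hfs n hn1 G hnc.le hG
  rw [hnc] at hS
  have hs : C * n ^ (2 * (δ / 8)) ≤ n ^ (δ / 2) := by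
    calc C * n ^ (2 * (δ / 8)) ≤ n ^ (δ / 4) * n ^ (2 * (δ / 8)) :=
          mul_le_mul_of_nonneg_right h2 (by positivity)
      _ = n ^ (δ / 2) := by
        rw [← Real.rpow_add hn0]
        congr 1
        ring
  have hs1 : 1 ≤ n ^ (δ / 2) := Real.one_le_rpow hn1 (by positivity)
  have hB : Bx (C * n) (n ^ (δ / 2)) t S.F := hS.mono le_rfl hs le_rfl hs1
  have hδ' : n ^ (δ / 2) ≤ n ^ δ := Real.rpow_le_rpow_of_exponent_le hn1 (by linarith)
  obtain ⟨k, d, Φ, e, he, hΦ⟩ := exists_dft S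
  refine ⟨k, d, Φ, ?_, fun e' => ?_⟩
  · rw [hΦ, ← hnn]
    exact (hB.mono le_rfl hδ' le_rfl (Real.one_le_rpow hn1 hδ.le)).submatrix he
      Function.injective_id
  · have hw : C * n ≤ n ^ (1 + γ) := by
      rw [Real.rpow_add hn0, Real.rpow_one, mul_comm n]
      exact mul_le_mul_of_nonneg_right h3 hn0.le
    have h4 : Bx (n ^ (1 + γ)) (n ^ (δ / 2)) t ((dft Φ).submatrix e' id) := by
      rw [hΦ, Matrix.submatrix_submatrix]
      exact (hB.mono hw le_rfl le_rfl hs1).submatrix (he.comp e'.injective)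
        Function.injective_id
    rw [hnn] at h4
    have h5 := hdec G h1 _ h4
    have e1 : δ / 2 + δ / 2 = δ := by ring
    rw [e1] at h5
    exact h5

end MP0775d3.Zf
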