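import Pool.Agent.Lib.MP_0775d3_lc.Zf.ClsC
import Pool.Agent.Lib.MP_0775d3_lc.Zf.Four
import Pool.Agent.Lib.MP_0775d3_lc.Ev.Real

/-! Project ZF: the theorem. -/

set_option linter.unusedSectionVars false
set_option linter.unusedVariables false

namespace MP0775d3.Zf

open Matrix MP0775d3.Cf MP0775d3.Ox MP0775d3.Kron MP0775d3.Ev MP0775d3.Sl2

/-- `G` is a direct product of groups of `SL₂` type (any number of them) and of a group with a chain of subgroups,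
each of index at most `b` or normal of prime index in the one before. -/
def InProd (b : ℝ) (G : Type) [Group G] : Prop :=
  ∃ r, Mult (fun P _ => IsSL2Type P) (fun D _ => HasChain b D) r G

theorem InProd.inZ {b : ℝ} {G : Type} [Group G] (h : InProd b G) : InZ b G := by
  obtain ⟨r, h⟩ := h
  exact ⟨r, Mult.imp (fun P _ hP => hP) (fun D _ hD => hD.ch) h⟩

theorem InZ.mono {b b' : ℝ} (hb : b ≤ b') {G : Type} [Group G] (h : InZ b G) : InZ b' G := by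
  obtain ⟨r, h⟩ := h
  exact ⟨r, Mult.imp (fun P _ hP => hP) (fun D _ hD => hD.mono hb) h⟩

/-- The theorem. -/
theorem final (δ : ℝ) (hδ : 0 < δ) : ∃ h : ℝ, 0 < h ∧ ∃ t : ℕ, ∃ C : ℝ, ∃ γ : ℝ, 0 < γ ∧
    ∃ n₀ : ℕ, ∀ (G : Type) [Group G] [Fintype G], n₀ ≤ Fintype.card G →
      (HasChain ((Fintype.card G : ℝ) ^ h) G →
        (∃ (k : ℕ) (d : Fin k → ℕ)
          (Φ : MonoidAlgebra ℂ G ≃ₐ[ℂ] ∀ i, Matrix (Fin (d i)) (Fin (d i)) ℂ),
          Bx (C * Fintype.card G) ((Fintype.card G : ℝ) ^ δ) t (dft Φ) ∧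
          ∀ e : G ≃ (Σ i, Fin (d i) × Fin (d i)),
            Dec ((dft Φ).submatrix e id) ((Fintype.card G : ℝ) ^ (1 - γ))
              ((Fintype.card G : ℝ) ^ δ)) ∧
        ∀ L m : ℝ, 1 ≤ L → HighMass G L m → ∀ (F : Type) [RCLike F] (f : G → F),
          Dec (groupMat f) (2 * m + (Fintype.card G : ℝ) ^ (1 - γ))
            (L * (Fintype.card G : ℝ) ^ δ)) ∧
      (InProd ((Fintype.card G : ℝ) ^ h) G → ∀ (F : Type) [RCLike F] (f : G → F),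
        IsClassFun f →
        Dec (groupMat f) ((Fintype.card G : ℝ) ^ (1 - γ)) ((Fintype.card G : ℝ) ^ δ)) := by
  classical
  obtain ⟨h₁, hh₁, t, C, γ₁, hγ₁, n₁, H₁⟩ := z_four δ hδ
  obtain ⟨h₂, hh₂, n₂, H₂⟩ := ev_main δ hδ
  obtain ⟨h₃, hh₃, γ₃, hγ₃, n₃, H₃⟩ := z_main δ hδ
  refine ⟨min h₁ (min h₂ h₃), lt_min hh₁ (lt_min hh₂ hh₃), t, C, min γ₁ (min h₂ γ₃),
    lt_min hγ₁ (lt_min hh₂ hγ₃), n₁ + n₂ + n₃ + 1, ?_⟩
  intro G _ _ hn
  have hn1 : (1 : ℝ) ≤ Fintype.card G := by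
    exact_mod_cast (show 1 ≤ Fintype.card G by omega)
  have hp : ∀ {a b : ℝ}, a ≤ b → (Fintype.card G : ℝ) ^ a ≤ (Fintype.card G : ℝ) ^ b := fun h =>
    Real.rpow_le_rpow_of_exponent_le hn1 h
  have e1 : min h₁ (min h₂ h₃) ≤ h₁ := min_le_left _ _
  have e2 : min h₁ (min h₂ h₃) ≤ h₂ := (min_le_right _ _).trans (min_le_left _ _)
  have e3 : min h₁ (min h₂ h₃) ≤ h₃ := (min_le_right _ _).trans (min_le_right _ _)
  have g1 : min γ₁ (min h₂ γ₃) ≤ γ₁ := min_le_left _ _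
  have g2 : min γ₁ (min h₂ γ₃) ≤ h₂ := (min_le_right _ _).trans (min_le_left _ _)
  have g3 : min γ₁ (min h₂ γ₃) ≤ γ₃ := (min_le_right _ _).trans (min_le_right _ _)
  refine ⟨fun hG => ⟨?_, ?_⟩, fun hG F _ f hf => ?_⟩
  · obtain ⟨k, d, Φ, h4, h5⟩ := H₁ G (by omega) (hG.ch.mono (hp e1))
    exact ⟨k, d, Φ, h4, fun e => (h5 e).mono (hp (by linarith)) le_rfl⟩
  · intro L m hL hm F _ f
    refine (H₂ G (by omega) (hG.ch.mono (hp e2)).hasChain L m hL hm F f).mono ?_ le_rfl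
    have := hp (show 1 - h₂ ≤ 1 - min γ₁ (min h₂ γ₃) by linarith)
    linarith
  · exact (H₃ G (by omega) (hG.inZ.mono (hp e3)) F f hf).mono (hp (by linarith)) le_rfl

end MP0775d3.Zf
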