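import Pool.Agent.Lib.MP_0775d3_lc.Zf.Core
import Pool.Agent.Lib.MP_0775d3_lc.Zf.Coarse
import Pool.Agent.Lib.MP_0775d3_lc.Cf.FbB

/-! Project ZF: the Fourier transform is a box circuit. -/

set_option linter.unusedSectionVars false
set_option linter.unusedVariables false

namespace MP0775d3.Zf

open Matrix MP0775d3.Cf MP0775d3.Ox

private theorem fs_dep_pos (t₁ a b : ℕ) : 1 ≤ dep t₁ a b := by
  cases a with
  | zero =>
    unfold dep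
    exact le_rfl
  | succ a =>
    cases b with
    | zero =>
      unfold dep
      exact le_rfl
    | succ b =>
      unfold dep
      omega

/-- PROOF. `b = N ^ δ`, `K = ⌈1 / δ⌉₊`, so `|G| ≤ N ≤ b ^ K`. `coarse` for `G → G` the identity: `Cn (b ^ 2) (2 * K + 1) G`. `cs_exists`, `core` for
`Iw.refl S` (`Iw.refl_F`) with `b ^ 2`, and `FP C N (C * N ^ (2 * δ)) t₁` from `fb_abelian` as in `Ox.tame_fs` (file Ox/Main.lean). -/
theorem fs_main (δ : ℝ) (hδ : 0 < δ) : ∃ t : ℕ, 1 ≤ t ∧ ∃ C : ℝ, 1 ≤ C ∧ ∀ N : ℝ, 1 ≤ N →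
    ∀ (G : Type) [Group G] [Finite G], (Nat.card G : ℝ) ≤ N → ∀ k : ℕ, PCh (N ^ δ) k G →
      ∃ S : Sys G, Bx (C * Nat.card G) (C * N ^ (2 * δ)) t S.F := by
  obtain ⟨t₁, ht₁, C, hC, h2⟩ := fb_abelian δ hδ
  refine ⟨dep t₁ (2 * ⌈1 / δ⌉₊ + 1) (2 * ⌈1 / δ⌉₊ + 1), fs_dep_pos _ _ _, C, hC,
    fun N hN G _ _ hG k hk => ?_⟩
  have hN0 : (0 : ℝ) ≤ N := zero_le_one.trans hN
  have hb0 : (1 : ℝ) ≤ N ^ δ := Real.one_le_rpow hN hδ.le
  have e : (N ^ δ) ^ 2 = N ^ (2 * δ) := by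
    rw [← Real.rpow_natCast, ← Real.rpow_mul hN0, mul_comm]
    norm_num
  have hb : (1 : ℝ) ≤ N ^ (2 * δ) := Real.one_le_rpow hN (by linarith)
  have hle : N ^ δ ≤ N ^ (2 * δ) := Real.rpow_le_rpow_of_exponent_le hN (by linarith)
  have hcard : (Nat.card G : ℝ) ≤ (N ^ δ) ^ ⌈1 / δ⌉₊ := by
    refine hG.trans ?_
    rw [← Real.rpow_natCast, ← Real.rpow_mul hN0]
    have h3 : 1 ≤ δ * ((⌈1 / δ⌉₊ : ℕ) : ℝ) := by
      have h4 := Nat.le_ceil (1 / δ)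
      rw [div_le_iff₀ hδ] at h4
      linarith
    calc N = N ^ (1 : ℝ) := (Real.rpow_one N).symm
      _ ≤ N ^ (δ * ((⌈1 / δ⌉₊ : ℕ) : ℝ)) := Real.rpow_le_rpow_of_exponent_le hN h3
  have hidx : (((MonoidHom.id G).range.index : ℕ) : ℝ) ≤ N ^ δ := by
    rw [MonoidHom.range_eq_top.2 Function.surjective_id, Subgroup.index_top]
    exact_mod_cast hb0
  have hCn : Cn (N ^ (2 * δ)) (2 * ⌈1 / δ⌉₊ + 1) G := by
    rw [← e]
    exact coarse hb0 _ k G hk G (MonoidHom.id G) Function.injective_id hidx hcard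
  obtain ⟨S, hS⟩ := cs_exists _ G hCn
  refine ⟨S, ?_⟩
  have hs1 : N ^ (2 * δ) ≤ C * N ^ (2 * δ) := le_mul_of_one_le_left (by linarith) hC
  have hs : 1 ≤ C * N ^ (2 * δ) := hb.trans hs1
  have hFP : FP C N (C * N ^ (2 * δ)) t₁ := by
    intro p hp hpN
    have : NeZero p := ⟨hp.ne_zero⟩
    have hcard' : Nat.card (Multiplicative (ZMod p)) = p :=
      (Nat.card_congr Multiplicative.toAdd).trans (Nat.card_zmod p)
    have h3 := h2 N hN (Multiplicative (ZMod p)) (fun a b => mul_comm a b)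
      (by rw [hcard']; exact hpN)
    rw [hcard'] at h3
    exact h3.mono le_rfl (mul_le_mul_of_nonneg_left hle (by linarith)) le_rfl hs
  have h := core hC hb hs1 ht₁ hFP (2 * ⌈1 / δ⌉₊ + 1) (2 * ⌈1 / δ⌉₊ + 1) G hG S S (Iw.refl S) hS hS
  have h5 := Iw.refl_F S
  exact Eq.mp (congrArg (fun M => Bx (C * Nat.card G) (C * N ^ (2 * δ))
    (dep t₁ (2 * ⌈1 / δ⌉₊ + 1) (2 * ⌈1 / δ⌉₊ + 1)) M) h5) h

end MP0775d3.Zf
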