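import Pool.Agent.Lib.MP_0775d3_lc.Zf.Defs

/-! Project ZF: pairs of systems. -/

set_option linter.unusedSectionVars false
set_option linter.unusedVariables false

namespace MP0775d3.Zf

open Matrix MP0775d3.Cf MP0775d3.Ox

variable {G H : Type} [Group G] [Group H]

/-- PROOF. `card_of_inv`. -/
theorem Iw.card {S S' : Sys G} (w : Iw S S') (i : S.I) :
    Fintype.card (S.D i) = Fintype.card (S'.D (w.e i)) := by
  exact card_of_inv (w.inv i) (w.inv' i)

/-- PROOF. `w.F z g * w.F' g z'` summed over `g`: write `(π g * B) a b = ∑ c, π g a c * B c b` and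
`(B' * π g⁻¹) b' a' = ∑ c', B' b' c' * π g⁻¹ c' a'`; the sum over `g` of `S.F ⟨i, (a, c)⟩ g * S.F' g ⟨i', (a', c')⟩` is
`if ⟨i, (a, c)⟩ = ⟨i', (a', c')⟩ then 1 else 0` (`Sys.F_mul_F'`); then `B' * B = 1` (`inv'`). -/
theorem Iw.F_mul_F' [Fintype G] {S S' : Sys G} (w : Iw S S') : w.F * w.F' = 1 := by
  classical
  have key : ∀ (i i' : S.I) (a c : S.D i) (a' c' : S.D i'),
      ∑ g, S.π i g a c * (((Fintype.card (S.D i') : ℂ) / Nat.card G) * S.π i' g⁻¹ c' a') =
        if (⟨i, (a, c)⟩ : Σ i, S.D i × S.D i) = ⟨i', (a', c')⟩ then 1 else 0 := by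
    intro i i' a c a' c'
    have h1 := congrFun (congrFun S.F_mul_F' (⟨i, (a, c)⟩ : Σ i, S.D i × S.D i)) ⟨i', (a', c')⟩
    rw [Matrix.mul_apply, Matrix.one_apply] at h1
    exact h1
  ext z z'
  obtain ⟨i, a, b⟩ := z
  obtain ⟨i', a', b'⟩ := z'
  have h1 : (w.F * w.F') ⟨i, (a, b)⟩ ⟨i', (a', b')⟩ =
      ∑ g, (∑ c, S.π i g a c * w.B i c b) * (((Fintype.card (S.D i') : ℂ) / Nat.card G) *
        ∑ c', w.B' i' b' c' * S.π i' g⁻¹ c' a') := by
    rw [Matrix.mul_apply]
    refine Finset.sum_congr rfl fun g _ => ?_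
    rw [← Matrix.mul_apply, ← Matrix.mul_apply]
    rfl
  have h2 : ∀ g, (∑ c, S.π i g a c * w.B i c b) * (((Fintype.card (S.D i') : ℂ) / Nat.card G) *
        ∑ c', w.B' i' b' c' * S.π i' g⁻¹ c' a') =
      ∑ c, ∑ c', w.B i c b * w.B' i' b' c' *
        (S.π i g a c * (((Fintype.card (S.D i') : ℂ) / Nat.card G) * S.π i' g⁻¹ c' a')) := by
    intro g
    rw [Finset.mul_sum, Finset.sum_mul]
    refine Finset.sum_congr rfl fun c _ => ?_
    rw [Finset.mul_sum]
    refine Finset.sum_congr rfl fun c' _ => ?_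
    ring
  have h3 : (w.F * w.F') ⟨i, (a, b)⟩ ⟨i', (a', b')⟩ =
      ∑ c, ∑ c', w.B i c b * w.B' i' b' c' *
        (if (⟨i, (a, c)⟩ : Σ i, S.D i × S.D i) = ⟨i', (a', c')⟩ then 1 else 0) := by
    rw [h1, Finset.sum_congr rfl fun g _ => h2 g, Finset.sum_comm]
    refine Finset.sum_congr rfl fun c _ => ?_
    rw [Finset.sum_comm]
    refine Finset.sum_congr rfl fun c' _ => ?_
    rw [← Finset.mul_sum, key]
  rw [h3, Matrix.one_apply]
  by_cases hi : i = i'
  · subst hi
    by_cases ha : a = a'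
    · subst ha
      have h4 : ∀ c c' : S.D i, w.B i c b * w.B' i b' c' *
          (if (⟨i, (a, c)⟩ : Σ i, S.D i × S.D i) = ⟨i, (a, c')⟩ then (1 : ℂ) else 0) =
          if c = c' then w.B' i b' c * w.B i c b else 0 := by
        intro c c'
        by_cases hc : c = c'
        · subst hc
          rw [if_pos rfl, if_pos rfl]
          ring
        · rw [if_neg hc, if_neg, mul_zero]
          intro h
          exact hc (congrArg Prod.snd (eq_of_heq (Sigma.mk.inj_iff.mp h).2))
      simp only [h4, Finset.sum_ite_eq, Finset.mem_univ, if_true]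
      rw [← Matrix.mul_apply, w.inv', Matrix.one_apply]
      by_cases hb : b' = b
      · subst hb
        rw [if_pos rfl, if_pos rfl]
      · rw [if_neg hb, if_neg]
        intro h
        exact hb (congrArg Prod.snd (eq_of_heq (Sigma.mk.inj_iff.mp h).2)).symm
    · rw [if_neg]
      · refine Finset.sum_eq_zero fun c _ => Finset.sum_eq_zero fun c' _ => ?_
        rw [if_neg, mul_zero]
        intro h
        exact ha (congrArg Prod.fst (eq_of_heq (Sigma.mk.inj_iff.mp h).2))
      · intro h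
        exact ha (congrArg Prod.fst (eq_of_heq (Sigma.mk.inj_iff.mp h).2))
  · rw [if_neg]
    · refine Finset.sum_eq_zero fun c _ => Finset.sum_eq_zero fun c' _ => ?_
      rw [if_neg, mul_zero]
      intro h
      exact hi (congrArg Sigma.fst h)
    · intro h
      exact hi (congrArg Sigma.fst h)

/-- PROOF. `Matrix.mul_one`; definitional otherwise. -/
theorem Iw.refl_F (S : Sys G) : (Iw.refl S).F = S.F := by
  ext z g
  change (S.π z.1 g * (1 : Matrix (S.D z.1) (S.D z.1) ℂ)) z.2.1 z.2.2 = S.π z.1 g z.2.1 z.2.2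
  rw [Matrix.mul_one]

/-- PROOF. `w.card`, `S.sq`. -/
theorem Iw.card_sum {S S' : Sys G} (w : Iw S S') :
    Fintype.card (Σ i, S.D i × S'.D (w.e i)) = Nat.card G := by
  rw [Fintype.card_sigma, ← S.sq]
  refine Finset.sum_congr rfl fun i _ => ?_
  rw [Fintype.card_prod, ← w.card i]

/-- The multiplicities of an adapted system. PROOF. `Br.count` for the branching data of `A.sys` with `M = A.P`, `B = 1`,
`B' = 1`, `eq` from `A.res`. -/
theorem ad_count [Finite G] {ι : H →* G} (hι : Function.Injective ι) {S : Sys H} (A : Ad ι S)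
    (i : S.I) : (∑ l, Fintype.card (A.sys.D l) * Fintype.card (A.P l i)) * Nat.card H =
      Nat.card G * Fintype.card (S.D i) := by
  let b : Br ι A.sys S :=
    { M := A.P
      B := fun l => (1 : Matrix (Σ i, S.D i × A.P l i) (Σ i, S.D i × A.P l i) ℂ)
      B' := fun l => (1 : Matrix (Σ i, S.D i × A.P l i) (Σ i, S.D i × A.P l i) ℂ)
      inv := fun l => Matrix.mul_one _
      inv' := fun l => Matrix.mul_one _
      eq := fun l h => by
        refine (Matrix.mul_one _).trans ?_
        refine Eq.trans ?_ (Matrix.one_mul _).symm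
        exact A.res l h }
  exact b.count hι i

/-- PROOF. `|A.P l i| * |S.D i| ≤ |A.sys.D l|` (`Fintype.card_sigma`), so `|A.P l i| ^ 2 * |S.D i| ≤ |A.sys.D l| * |A.P l i|`; `ad_count` and
`|G| = |H| * index` (`Subgroup.card_mul_index`, `ι` injective), divide by `|S.D i| > 0`. -/
theorem ad_sq [Finite G] {ι : H →* G} (hι : Function.Injective ι) {S : Sys H} (A : Ad ι S)
    (i : S.I) : ∑ l, (Fintype.card (A.P l i) : ℝ) ^ 2 ≤ ι.range.index := by
  have hH : Finite H := Finite.of_injective ι hι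
  have hDpos : (0 : ℝ) < Fintype.card (S.D i) := by exact_mod_cast Fintype.card_pos
  have hHpos : (0 : ℝ) < Nat.card H := by exact_mod_cast Nat.card_pos
  have hcard : Nat.card G = Nat.card H * ι.range.index := by
    rw [← ι.range.card_mul_index]
    congr 1
    exact Nat.card_congr (MonoidHom.ofInjective hι).toEquiv.symm
  have h1 : ∀ l, Fintype.card (S.D i) * Fintype.card (A.P l i) ≤ Fintype.card (A.sys.D l) := by
    intro l
    change _ ≤ Fintype.card (Σ i, S.D i × A.P l i)
    rw [Fintype.card_sigma, ← Fintype.card_prod]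
    exact Finset.single_le_sum (f := fun j => Fintype.card (S.D j × A.P l j))
      (fun j _ => Nat.zero_le _) (Finset.mem_univ i)
  have h2 := ad_count hι A i
  have h3 : (∑ l, (Fintype.card (A.sys.D l) : ℝ) * Fintype.card (A.P l i)) * Nat.card H =
      Nat.card G * Fintype.card (S.D i) := by exact_mod_cast h2
  have h4 : (Fintype.card (S.D i) : ℝ) * ∑ l, (Fintype.card (A.P l i) : ℝ) ^ 2 ≤
      ∑ l, (Fintype.card (A.sys.D l) : ℝ) * Fintype.card (A.P l i) := by
    rw [Finset.mul_sum]
    refine Finset.sum_le_sum fun l _ => ?_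
    have h5 : (Fintype.card (S.D i) : ℝ) * Fintype.card (A.P l i) ≤ Fintype.card (A.sys.D l) := by
      exact_mod_cast h1 l
    calc (Fintype.card (S.D i) : ℝ) * (Fintype.card (A.P l i) : ℝ) ^ 2 =
        (Fintype.card (S.D i) * Fintype.card (A.P l i)) * Fintype.card (A.P l i) := by ring
      _ ≤ _ := mul_le_mul_of_nonneg_right h5 (Nat.cast_nonneg _)
  have h6 : (∑ l, (Fintype.card (A.sys.D l) : ℝ) * Fintype.card (A.P l i)) =
      ι.range.index * Fintype.card (S.D i) := by
    have h7 : (Nat.card G : ℝ) = Nat.card H * ι.range.index := by exact_mod_cast hcard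
    rw [h7] at h3
    have h8 : (∑ l, (Fintype.card (A.sys.D l) : ℝ) * Fintype.card (A.P l i)) * Nat.card H =
        (ι.range.index * Fintype.card (S.D i)) * Nat.card H := by rw [h3]; ring
    exact mul_right_cancel₀ hHpos.ne' h8
  rw [h6, mul_comm] at h4
  exact le_of_mul_le_mul_right h4 hDpos

end MP0775d3.Zf
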