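import Pool.Agent.Lib.MP_0775d3_lc.Zf.Defs
import Pool.Agent.Lib.MP_0775d3_lc.Cf.CalcC

/-! Project ZF: the layer of the matrices `J`. -/

set_option linter.unusedSectionVars false
set_option linter.unusedVariables false

namespace MP0775d3.Zf

open Matrix MP0775d3.Cf MP0775d3.Ox

variable {H' D : Type} [Group H'] [Group D] {v : D →* H'} {S' : Sys H'} {T : Sys D}
  (bv : Br v S' T) {R : Type} [Fintype R] [DecidableEq R] (r : R → H')

/-- The matrix `J k`. -/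
def Jk (k : T.I) : Matrix (Σ j, bv.M j k × S'.D j) (T.D k × R) ℂ :=
  Matrix.of fun z q => (bv.B' z.1 * S'.π z.1 (r q.2)) ⟨k, (q.1, z.2.1)⟩ z.2.2

/-- The sum of the matrices `J k`, each of them `|E k|` times. -/
def JE (E : T.I → Type) [∀ k, DecidableEq (E k)] :
    Matrix (Σ k, E k × (Σ j, bv.M j k × S'.D j)) (Σ k, E k × (T.D k × R)) ℂ :=
  Matrix.blockDiagonal' fun k => Matrix.kroneckerMap (· * ·) (1 : Matrix (E k) (E k) ℂ) (Jk bv r k)

private theorem ja_mul (j : S'.I) (k : T.I) (c : T.D k) (ν : bv.M j k) (b : S'.D j) (d : D) (h : H') :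
    (bv.B' j * S'.π j (v d * h)) ⟨k, (c, ν)⟩ b =
      ∑ c', T.π k d c c' * (bv.B' j * S'.π j h) ⟨k, (c', ν)⟩ b := by
  rw [S'.mul, ← Matrix.mul_assoc, Br.eq', Matrix.mul_assoc, Matrix.mul_apply, Fintype.sum_sigma,
    Finset.sum_eq_single k]
  · rw [Fintype.sum_prod_type]
    refine Finset.sum_congr rfl fun c' _ => ?_
    rw [Finset.sum_eq_single ν]
    · rw [Sys.rep, Matrix.blockDiagonal'_apply_eq]
      change T.π k d c c' * (1 : Matrix (bv.M j k) (bv.M j k) ℂ) ν ν * _ = _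
      rw [Matrix.one_apply_eq, mul_one]
    · intro ν' _ hν
      rw [Sys.rep, Matrix.blockDiagonal'_apply_eq]
      change T.π k d c c' * (1 : Matrix (bv.M j k) (bv.M j k) ℂ) ν ν' * _ = _
      rw [Matrix.one_apply_ne hν.symm, mul_zero, zero_mul]
    · intro h
      exact absurd (Finset.mem_univ _) h
  · intro k' _ hk'
    refine Finset.sum_eq_zero fun p _ => ?_
    rw [Sys.rep, Matrix.blockDiagonal'_apply_ne _ _ _ hk'.symm, zero_mul]
  · intro h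
    exact absurd (Finset.mem_univ _) h

/-- PROOF. `brR.F ⟨j, (z, b)⟩ h = (bv.B' j * S'.π j h) z b` (`inv`), and `Ox.br_mul` (copied from Ox/WB.lean for `v : D →* H'`): for
`h = v d * h₁` it is `∑ c', T.π k d c c' * (bv.B' j * S'.π j h₁) ⟨k, (c', ν)⟩ b`. -/
theorem brR_apply (j : S'.I) (k : T.I) (c : T.D k) (ν : bv.M j k) (b : S'.D j) (e : D) (h : H') :
    (brR bv).F ⟨j, ((⟨k, (c, ν)⟩ : Σ k, T.D k × bv.M j k), b)⟩ (v e * h) =
      ∑ c', T.π k e c c' * (bv.B' j * S'.π j h) ⟨k, (c', ν)⟩ b := by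
  have h0 : (brR bv).F ⟨j, ((⟨k, (c, ν)⟩ : Σ k, T.D k × bv.M j k), b)⟩ (v e * h) =
      (bv.B' j * S'.π j (v e * h) * bv.B j * bv.B' j) ⟨k, (c, ν)⟩ b := rfl
  rw [h0, Matrix.mul_assoc, bv.inv, Matrix.mul_one]
  exact ja_mul bv j k c ν b e h

private theorem ja_same (E : T.I → Type) [∀ k, DecidableEq (E k)] (k : T.I) (e e' : E k)
    (x : Σ j, bv.M j k × S'.D j) (y : T.D k × R) :
    JE bv r E ⟨k, (e, x)⟩ ⟨k, (e', y)⟩ = if e = e' then Jk bv r k x y else 0 := by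
  rw [JE, Matrix.blockDiagonal'_apply_eq]
  change (1 : Matrix (E k) (E k) ℂ) e e' * Jk bv r k x y = _
  rw [Matrix.one_apply, ite_mul, one_mul, zero_mul]

private theorem ja_ne (E : T.I → Type) [∀ k, DecidableEq (E k)] {k k' : T.I} (h : k ≠ k')
    (p : E k × (Σ j, bv.M j k × S'.D j)) (q : E k' × (T.D k' × R)) :
    JE bv r E ⟨k, p⟩ ⟨k', q⟩ = 0 := by
  rw [JE, Matrix.blockDiagonal'_apply_ne _ _ _ h]

/-- The first factor. -/
private def jaP : Matrix (Σ k, T.D k × (Σ j, bv.M j k × S'.D j)) (D × R) ℂ :=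
  (brR bv).F.submatrix
    (fun z => ⟨z.2.2.1, ((⟨z.1, (z.2.1, z.2.2.2.1)⟩ : Σ k, T.D k × bv.M z.2.2.1 k), z.2.2.2.2)⟩)
    (fun p => v p.1 * r p.2)

/-- The second factor. -/
private noncomputable def jaQ (T : Sys D) (R : Type) [DecidableEq R] :
    Matrix (D × R) (Σ k, T.D k × (T.D k × R)) ℂ :=
  (Matrix.of fun (p : D × R) (q : (Σ k, T.D k × T.D k) × R) =>
    if p.2 = q.2 then T.F' p.1 q.1 else 0).submatrix id
    (fun z => ((⟨z.1, (z.2.1, z.2.2.1)⟩ : Σ k, T.D k × T.D k), z.2.2.2))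

private theorem jaP_apply (k : T.I) (c : T.D k) (j : S'.I) (ν : bv.M j k) (b : S'.D j) (d : D)
    (ρ : R) : jaP bv r ⟨k, (c, ⟨j, (ν, b)⟩)⟩ (d, ρ) =
      ∑ c', T.π k d c c' * (bv.B' j * S'.π j (r ρ)) ⟨k, (c', ν)⟩ b :=
  brR_apply bv j k c ν b d (r ρ)

private theorem jaQ_apply (d : D) (ρ ρ' : R) (k : T.I) (c₁ c₂ : T.D k) :
    jaQ T R (d, ρ) ⟨k, (c₁, (c₂, ρ'))⟩ = if ρ = ρ' then T.F' d ⟨k, (c₁, c₂)⟩ else 0 := rfl

private theorem ja_mul' [Fintype D] : JE bv r T.D = jaP bv r * jaQ T R := by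
  ext ⟨k, c, j, ν, b⟩ ⟨k₂, c₁, c₂, ρ₂⟩
  rw [Matrix.mul_apply, Fintype.sum_prod_type]
  have h1 : ∀ d : D, ∑ ρ : R, jaP bv r ⟨k, (c, ⟨j, (ν, b)⟩)⟩ (d, ρ) *
      jaQ T R (d, ρ) ⟨k₂, (c₁, (c₂, ρ₂))⟩ =
      ∑ c' : T.D k, (bv.B' j * S'.π j (r ρ₂)) ⟨k, (c', ν)⟩ b *
        (T.F' d ⟨k₂, (c₁, c₂)⟩ * T.π k d c c') := by
    intro d
    rw [Finset.sum_eq_single ρ₂]
    · rw [jaQ_apply, if_pos rfl, jaP_apply, Finset.sum_mul]
      refine Finset.sum_congr rfl fun c' _ => ?_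
      ring
    · intro ρ _ h
      rw [jaQ_apply, if_neg h, mul_zero]
    · intro h
      exact absurd (Finset.mem_univ _) h
  rw [Finset.sum_congr rfl fun d _ => h1 d, Finset.sum_comm]
  have h2 : ∀ c' : T.D k, ∑ d : D, (bv.B' j * S'.π j (r ρ₂)) ⟨k, (c', ν)⟩ b *
      (T.F' d ⟨k₂, (c₁, c₂)⟩ * T.π k d c c') = (bv.B' j * S'.π j (r ρ₂)) ⟨k, (c', ν)⟩ b *
      (if (⟨k, (c, c')⟩ : Σ i, T.D i × T.D i) = ⟨k₂, (c₁, c₂)⟩ then 1 else 0) := by
    intro c'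
    rw [← Finset.mul_sum, Sys.unit_apply]
  rw [Finset.sum_congr rfl fun c' _ => h2 c']
  by_cases hk : k = k₂
  · subst hk
    rw [ja_same, Finset.sum_eq_single c₂]
    · by_cases hc : c = c₁
      · rw [if_pos hc, hc, if_pos rfl, mul_one]
        rfl
      · rw [if_neg hc, if_neg, mul_zero]
        intro h
        exact hc (congrArg Prod.fst (eq_of_heq (Sigma.mk.inj h).2))
    · intro c' _ hc'
      rw [if_neg, mul_zero]
      intro h
      exact hc' (congrArg Prod.snd (eq_of_heq (Sigma.mk.inj h).2))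
    · intro h
      exact absurd (Finset.mem_univ _) h
  · rw [ja_ne bv r T.D hk]
    refine (Finset.sum_eq_zero fun c' _ => ?_).symm
    rw [if_neg, mul_zero]
    intro h
    exact hk (Sigma.mk.inj h).1

private theorem jaP_bx (hr : Function.Injective fun p : D × R => v p.1 * r p.2) {w s : ℝ} {t : ℕ}
    (h : Bx w s t (brR bv).F) : Bx w s t (jaP bv r) := by
  refine h.submatrix ?_ hr
  rintro ⟨k, c, j, ν, b⟩ ⟨k', c', j', ν', b'⟩ h
  obtain ⟨rfl, h1⟩ := Sigma.mk.inj h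
  have h2 := eq_of_heq h1
  have h3 : (⟨k, (c, ν)⟩ : Σ k, T.D k × bv.M j k) = ⟨k', (c', ν')⟩ := congrArg Prod.fst h2
  obtain rfl : b = b' := congrArg Prod.snd h2
  obtain ⟨rfl, h5⟩ := Sigma.mk.inj h3
  have h6 := eq_of_heq h5
  obtain rfl : c = c' := congrArg Prod.fst h6
  obtain rfl : ν = ν' := congrArg Prod.snd h6
  rfl

private theorem jaQ_bx {w s : ℝ} {t : ℕ} (ht : 1 ≤ t) (h : Bx w s t T.F) :
    Bx (Fintype.card R * w) s t (jaQ T R) := by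
  refine (Bx.tensor_one (Y := R) (T.bx' ht h) ht).submatrix Function.injective_id ?_
  rintro ⟨k, c₁, c₂, ρ⟩ ⟨k', c₁', c₂', ρ'⟩ h
  simp only [Prod.mk.injEq, Sigma.mk.injEq] at h
  obtain ⟨⟨rfl, h⟩, rfl⟩ := h
  simp only [heq_eq_eq, Prod.mk.injEq] at h
  obtain ⟨rfl, rfl⟩ := h
  rfl

/-- PROOF. `JE bv r T.D` is the product of `(brR bv).F`, columns numbered by `(d, ρ) ↦ v d * r ρ`, and of `T.F' ⊗ 1_R`: with
rows read at `⟨k, (c, ⟨j, (ν, b)⟩)⟩ ↦ ⟨j, (⟨k, (c, ν)⟩, b)⟩` and columns at `⟨k, (c₁, (c₂, ρ))⟩ ↦ (⟨k, (c₁, c₂)⟩, ρ)` (`brR_apply`;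
`∑ d, T.π k d c c' * T.F' d ⟨k₂, (c₁, c₂)⟩ = if ⟨k, (c, c')⟩ = ⟨k₂, (c₁, c₂)⟩ then 1 else 0`: `Sys.unit_apply`). `Sys.bx'`,
`Bx.tensor_one`, `Bx.submatrix`, `Bx.mul`; `|R| * |D| = |H'|`. -/
theorem je_bx [Finite H'] [Finite D] (hr : Function.Bijective fun p : D × R => v p.1 * r p.2)
    {K s : ℝ} {t₂ t₃ : ℕ} (hK : 0 ≤ K) (hs : 1 ≤ s) (ht₃ : 1 ≤ t₃)
    (h2 : Bx (K * Nat.card H') s t₂ (brR bv).F) (h3 : Bx (K * Nat.card D) s t₃ T.F) :
    Bx (K * Nat.card H') s (t₂ + t₃ + 1) (JE bv r T.D) := by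
  classical
  have := Fintype.ofFinite D
  rw [ja_mul']
  have h4 : (Fintype.card R : ℝ) * (K * Nat.card D) = K * Nat.card H' := by
    have h5 := Nat.card_congr (Equiv.ofBijective _ hr)
    rw [Nat.card_prod, Nat.card_eq_fintype_card (α := R)] at h5
    rw [← h5]
    push_cast
    ring
  have h6 := jaQ_bx (R := R) ht₃ h3
  rw [h4] at h6
  exact (jaP_bx bv r hr.injective h2).mul h6 hs

/-- PROOF. `Bx.one_tensor` with `Y = Fin q`, read along `⟨k, (e, x)⟩ ↦ (first component of φ k e, ⟨k, (second component, x)⟩)`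
for rows and columns, where `φ k : E k ≃ Fin q × T.D k` (`h`); `Bx.submatrix`. -/
theorem je_copies {q : ℕ} {E : T.I → Type} [∀ k, Fintype (E k)] [∀ k, DecidableEq (E k)]
    (h : ∀ k, Fintype.card (E k) = q * Fintype.card (T.D k)) {w s : ℝ} {t : ℕ} (ht : 1 ≤ t)
    (hJ : Bx w s t (JE bv r T.D)) : Bx (q * w) s t (JE bv r E) := by
  classical
  have hφ : ∀ k, Nonempty (E k ≃ Fin q × T.D k) := fun k =>
    ⟨Fintype.equivOfCardEq (by rw [h k, Fintype.card_prod, Fintype.card_fin])⟩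
  obtain ⟨φ⟩ : Nonempty (∀ k, E k ≃ Fin q × T.D k) := ⟨fun k => Classical.choice (hφ k)⟩
  have h1 := Bx.one_tensor (Y := Fin q) hJ ht
  rw [Fintype.card_fin] at h1
  have h2 := h1.submatrix
    (f := fun z : (Σ k, E k × (Σ j, bv.M j k × S'.D j)) => ((φ z.1 z.2.1).1,
      (⟨z.1, ((φ z.1 z.2.1).2, z.2.2)⟩ : Σ k, T.D k × (Σ j, bv.M j k × S'.D j))))
    (g := fun z : (Σ k, E k × (T.D k × R)) => ((φ z.1 z.2.1).1,
      (⟨z.1, ((φ z.1 z.2.1).2, z.2.2)⟩ : Σ k, T.D k × (T.D k × R))))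
    (by
      rintro ⟨k, e, x⟩ ⟨k', e', x'⟩ h3
      simp only [Prod.mk.injEq, Sigma.mk.injEq] at h3
      obtain ⟨h3, rfl, h4⟩ := h3
      simp only [heq_eq_eq, Prod.mk.injEq] at h4
      obtain ⟨h4, rfl⟩ := h4
      have h5 : e = e' := (φ k).injective (Prod.ext h3 h4)
      rw [h5])
    (by
      rintro ⟨k, e, x⟩ ⟨k', e', x'⟩ h3
      simp only [Prod.mk.injEq, Sigma.mk.injEq] at h3
      obtain ⟨h3, rfl, h4⟩ := h3
      simp only [heq_eq_eq, Prod.mk.injEq] at h4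
      obtain ⟨h4, rfl⟩ := h4
      have h5 : e = e' := (φ k).injective (Prod.ext h3 h4)
      rw [h5])
  have h3 : JE bv r E = (Matrix.of fun (p : Fin q × (Σ k, T.D k × (Σ j, bv.M j k × S'.D j)))
      (p' : Fin q × (Σ k, T.D k × (T.D k × R))) =>
      if p.1 = p'.1 then JE bv r T.D p.2 p'.2 else 0).submatrix
      (fun z : (Σ k, E k × (Σ j, bv.M j k × S'.D j)) => ((φ z.1 z.2.1).1,
        (⟨z.1, ((φ z.1 z.2.1).2, z.2.2)⟩ : Σ k, T.D k × (Σ j, bv.M j k × S'.D j))))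
      (fun z : (Σ k, E k × (T.D k × R)) => ((φ z.1 z.2.1).1,
        (⟨z.1, ((φ z.1 z.2.1).2, z.2.2)⟩ : Σ k, T.D k × (T.D k × R)))) := by
    ext ⟨k, e, x⟩ ⟨k', e', y⟩
    rw [Matrix.submatrix_apply, Matrix.of_apply]
    by_cases hk : k = k'
    · subst hk
      change _ = if (φ k e).1 = (φ k e').1 then
        JE bv r T.D ⟨k, ((φ k e).2, x)⟩ ⟨k, ((φ k e').2, y)⟩ else 0
      rw [ja_same, ja_same]
      by_cases he : e = e'
      · rw [if_pos he, he, if_pos rfl, if_pos rfl]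
      · rw [if_neg he]
        split_ifs with h5 h6
        · exact absurd ((φ k).injective (Prod.ext h5 h6)) he
        · rfl
        · rfl
    · change _ = if (φ k e).1 = (φ k' e').1 then
        JE bv r T.D ⟨k, ((φ k e).2, x)⟩ ⟨k', ((φ k' e').2, y)⟩ else 0
      rw [ja_ne bv r E hk, ja_ne bv r T.D hk, ite_self]
  rw [h3]
  exact h2

end MP0775d3.Zf
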