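import Pool.Agent.Lib.MP_0775d3_lc.Zf.IwA

/-! Project ZF: from two-sided coordinates to the Fourier matrix. -/

set_option linter.unusedSectionVars false
set_option linter.unusedVariables false

namespace MP0775d3.Zf

open Matrix MP0775d3.Cf MP0775d3.Ox

variable {G H H' : Type} [Group G] [Group H] [Group H'] {ι : H →* G} {κ : H' →* G} {S : Sys H}
  {S' : Sys H'} (A : Ad ι S) (A' : Ad κ S') (w : Iw A.sys A'.sys)
  {K : S.I × S'.I → Type} [∀ z, Fintype (K z)] [∀ z, DecidableEq (K z)]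
  (W : Matrix (Σ z : S.I × S'.I, (S.D z.1 × S'.D z.2) × K z) G ℂ)
  (Y : ∀ z : S.I × S'.I, Matrix (RW A A' w z) (K z) ℂ)

/-- The reading of the rows. -/
private def tw_f (x : Σ l, A.sys.D l × A'.sys.D (w.e l)) :
    Σ z : S.I × S'.I, RW A A' w z × (S.D z.1 × S'.D z.2) :=
  ⟨(x.2.1.1, x.2.2.1), (⟨x.1, (x.2.1.2.2, x.2.2.2.2)⟩, (x.2.1.2.1, x.2.2.2.1))⟩

private theorem tw_f_inj : Function.Injective (tw_f A A' w) :=
  Function.LeftInverse.injective (g := fun y =>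
    (⟨y.2.1.1, (⟨y.1.1, (y.2.2.1, y.2.1.2.1)⟩, ⟨y.1.2, (y.2.2.2, y.2.1.2.2)⟩)⟩ :
      Σ l, A.sys.D l × A'.sys.D (w.e l))) fun _ => rfl

/-- The reading of the columns. -/
private def tw_g (x : Σ z : S.I × S'.I, (S.D z.1 × S'.D z.2) × K z) :
    Σ z : S.I × S'.I, K z × (S.D z.1 × S'.D z.2) := ⟨x.1, (x.2.2, x.2.1)⟩

private theorem tw_g_inj : Function.Injective (tw_g (S := S) (S' := S') (K := K)) :=
  Function.LeftInverse.injective (g := fun y =>
    (⟨y.1, (y.2.2, y.2.1)⟩ : Σ z : S.I × S'.I, (S.D z.1 × S'.D z.2) × K z)) fun _ => rfl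

/-- The middle matrix. -/
private noncomputable def tw_B : Matrix
    (Σ z : S.I × S'.I, RW A A' w z × (S.D z.1 × S'.D z.2))
    (Σ z : S.I × S'.I, K z × (S.D z.1 × S'.D z.2)) ℂ :=
  Matrix.blockDiagonal' fun z : S.I × S'.I => Matrix.kroneckerMap (· * ·) (Y z)
    (1 : Matrix (S.D z.1 × S'.D z.2) (S.D z.1 × S'.D z.2) ℂ)

private theorem tw_same (z : S.I × S'.I) (y : RW A A' w z) (k : K z)
    (ab cd : S.D z.1 × S'.D z.2) :
    tw_B A A' w Y ⟨z, (y, ab)⟩ ⟨z, (k, cd)⟩ = if ab = cd then Y z y k else 0 := by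
  rw [tw_B, Matrix.blockDiagonal'_apply_eq, Matrix.kroneckerMap_apply, Matrix.one_apply, mul_ite,
    mul_one, mul_zero]

private theorem tw_ne {z z' : S.I × S'.I} (hz : z ≠ z')
    (x : RW A A' w z × (S.D z.1 × S'.D z.2)) (y : K z' × (S.D z'.1 × S'.D z'.2)) :
    tw_B A A' w Y ⟨z, x⟩ ⟨z', y⟩ = 0 := by
  rw [tw_B, Matrix.blockDiagonal'_apply_ne _ _ _ hz]

private theorem tw_eq (h : Tw A A' w W Y) : w.F =
    ((tw_B A A' w Y).submatrix (tw_f A A' w) (tw_g (S := S) (S' := S') (K := K))) * W := by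
  classical
  ext x g
  obtain ⟨l, ⟨i, a, p⟩, j, b, q⟩ := x
  have h1 : w.F ⟨l, ⟨i, a, p⟩, j, b, q⟩ g = MX A A' w l g p q a b := rfl
  rw [h1, h g l i j p q a b, Matrix.mul_apply, Fintype.sum_sigma,
    Finset.sum_eq_single (i, j)]
  · rw [Fintype.sum_prod_type, Finset.sum_eq_single (a, b)]
    · refine Finset.sum_congr rfl fun k _ => ?_
      congr 1
      refine Eq.symm ((tw_same A A' w Y (i, j) ⟨l, (p, q)⟩ k (a, b) (a, b)).trans ?_)
      exact if_pos rfl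
    · intro cd _ hcd
      refine Finset.sum_eq_zero fun k _ => ?_
      have h2 : ((tw_B A A' w Y).submatrix (tw_f A A' w) (tw_g (S := S) (S' := S') (K := K)))
          ⟨l, ⟨i, a, p⟩, j, b, q⟩ ⟨(i, j), (cd, k)⟩ = 0 :=
        (tw_same A A' w Y (i, j) ⟨l, (p, q)⟩ k (a, b) cd).trans (if_neg fun h => hcd h.symm)
      rw [h2, zero_mul]
    · intro h2
      exact absurd (Finset.mem_univ _) h2
  · intro z _ hz
    refine Finset.sum_eq_zero fun y _ => ?_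
    have h2 : ((tw_B A A' w Y).submatrix (tw_f A A' w) (tw_g (S := S) (S' := S') (K := K)))
        ⟨l, ⟨i, a, p⟩, j, b, q⟩ ⟨z, y⟩ = 0 :=
      tw_ne A A' w Y (z := (i, j)) (z' := z) (fun h => hz h.symm) (⟨l, (p, q)⟩, (a, b))
        (y.2, y.1)
    rw [h2, zero_mul]
  · intro h2
    exact absurd (Finset.mem_univ _) h2

/-- PROOF. As `Ox.Two.bx` (file Ox/Ts.lean): `w.F = Mid * W`, `Mid` the matrix `blockDiagonal' fun z => Y z ⊗ 1`, with rows
read at `⟨l, (⟨i, (a, p)⟩, ⟨j, (b, q)⟩)⟩ ↦ ⟨(i, j), (⟨l, (p, q)⟩, (a, b))⟩` and columns at `⟨z, (ab, κ)⟩ ↦ ⟨z, (κ, ab)⟩` (both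
injective): `bx_sigma`, `Bx.submatrix`, `Bx.mono`, `Bx.mul`. -/
theorem Tw.bx (h : Tw A A' w W Y) {v s : ℝ} {t t' : ℕ} (hs : 1 ≤ s) (hW : Bx v s t W)
    (wz : S.I × S'.I → ℝ) (hz : ∑ z, wz z ≤ v)
    (hY : ∀ z, Bx (wz z) s t' (Matrix.kroneckerMap (· * ·) (Y z)
      (1 : Matrix (S.D z.1 × S'.D z.2) (S.D z.1 × S'.D z.2) ℂ))) :
    Bx v s (t' + t + 1) w.F := by
  classical
  have h0 : Bx (∑ z, wz z) s t' (tw_B A A' w Y) := bx_sigma hY
  have h1 := h0.submatrix (tw_f_inj A A' w) (tw_g_inj (S := S) (S' := S') (K := K))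
  have h2 := (h1.mono hz le_rfl le_rfl hs).mul hW hs
  rw [tw_eq A A' w W Y h]
  exact h2

/-- PROOF. As `Ox.Two.rows`: fix `a : S.D z.1`, `b : S'.D z.2`; the vector on the rows of `w.F` that is `v ⟨l, (p, q)⟩` at
`⟨l, (⟨z.1, (a, p)⟩, ⟨z.2, (b, q)⟩)⟩` and `0` elsewhere is killed by `w.F`, hence zero (`Iw.F_mul_F'`). -/
theorem Tw.rows [Finite G] (h : Tw A A' w W Y) (z : S.I × S'.I) (v : RW A A' w z → ℂ)
    (hv : ∀ κ, ∑ y, v y * Y z y κ = 0) : v = 0 := by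
  classical
  have hfin : Fintype G := Fintype.ofFinite G
  obtain ⟨i, j⟩ := z
  obtain ⟨a⟩ := S.ne i
  obtain ⟨b⟩ := S'.ne j
  obtain ⟨e, he⟩ : ∃ e : RW A A' w (i, j) → Σ l, A.sys.D l × A'.sys.D (w.e l),
      e = fun y => ⟨y.1, (⟨i, (a, y.2.1)⟩, ⟨j, (b, y.2.2)⟩)⟩ := ⟨_, rfl⟩
  have hinj : Function.Injective e := by
    rintro ⟨l, p, q⟩ ⟨l', p', q'⟩ h1
    have h2 := congrArg (tw_f A A' w) h1
    rw [he] at h2
    have h3 := eq_of_heq (Sigma.mk.inj h2).2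
    exact (Prod.mk.inj h3).1
  have hF : ∀ g, ∑ y, v y * w.F (e y) g = 0 := by
    intro g
    have h1 : ∀ y, w.F (e y) g = ∑ k, Y (i, j) y k * W ⟨(i, j), ((a, b), k)⟩ g := by
      rintro ⟨l, p, q⟩
      rw [he]
      exact h g l i j p q a b
    simp only [h1, Finset.mul_sum]
    rw [Finset.sum_comm]
    refine Finset.sum_eq_zero fun k _ => ?_
    have h2 := hv k
    rw [Finset.sum_congr rfl fun y _ => (mul_assoc (v y) (Y (i, j) y k) _).symm,
      ← Finset.sum_mul, h2, zero_mul]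
  funext y₀
  have h1 : v y₀ = ∑ y, v y * (w.F * w.F') (e y) (e y₀) := by
    rw [w.F_mul_F', Finset.sum_eq_single y₀]
    · rw [Matrix.one_apply_eq, mul_one]
    · intro y _ hy
      rw [Matrix.one_apply_ne fun h => hy (hinj h), mul_zero]
    · intro h2
      exact absurd (Finset.mem_univ _) h2
  rw [h1]
  simp only [Matrix.mul_apply, Finset.mul_sum]
  rw [Finset.sum_comm]
  refine Finset.sum_eq_zero fun g _ => ?_
  rw [Finset.sum_congr rfl fun y _ => (mul_assoc (v y) (w.F (e y) g) _).symm,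
    ← Finset.sum_mul, hF g, zero_mul]

/-- PROOF. As `Ox.Two.card`. -/
theorem Tw.card [Finite G] (h : Tw A A' w W Y) (z : S.I × S'.I) :
    Fintype.card (RW A A' w z) ≤ Fintype.card (K z) := by
  classical
  have h1 : Function.Injective (Matrix.vecMulLinear (Y z)) := by
    rw [← LinearMap.ker_eq_bot, LinearMap.ker_eq_bot']
    intro v hv
    exact h.rows A A' w W Y z v fun κ => congrFun hv κ
  have h2 := LinearMap.finrank_le_finrank_of_injective h1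
  rwa [Module.finrank_fintype_fun_eq_card, Module.finrank_fintype_fun_eq_card] at h2

end MP0775d3.Zf
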