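import Pool.Agent.Lib.MP_0775d3_lc.Zf.DdN
import Pool.Agent.Lib.MP_0775d3_lc.Zf.Tw
import Pool.Agent.Lib.MP_0775d3_lc.Zf.Coef

/-! Project ZF: numbers. -/

set_option linter.unusedSectionVars false
set_option linter.unusedVariables false

namespace MP0775d3.Zf

open Matrix MP0775d3.Cf MP0775d3.Ox

variable {G H H' : Type} [Group G] [Group H] [Group H'] {ι : H →* G} {κ : H' →* G} {S : Sys H}
  {S' : Sys H'} (A : Ad ι S) (A' : Ad κ S') (w : Iw A.sys A'.sys) (d : Dd ι κ)
  (T : ∀ y, Sys (d.D y)) (bu : ∀ y, Br (d.u y) S (T y)) (bv : ∀ y, Br (d.v y) S' (T y))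

/-- The rows of a block, counted. -/
private theorem num_rw (z : S.I × S'.I) : Fintype.card (RW A A' w z) =
    ∑ l, Fintype.card (A.P l z.1) * Fintype.card (A'.P (w.e l) z.2) := by
  rw [Fintype.card_sigma]
  exact Finset.sum_congr rfl fun l _ => Fintype.card_prod _ _

/-- The rows of a block, counted, over the reals. -/
private theorem num_rw' (z : S.I × S'.I) : (Fintype.card (RW A A' w z) : ℝ) =
    ∑ l, (Fintype.card (A.P l z.1) : ℝ) * (Fintype.card (A'.P (w.e l) z.2) : ℝ) := by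
  rw [num_rw]
  push_cast
  rfl

/-- The second sum, with the indices changed. -/
private theorem num_re (j : S'.I) : ∑ l, (Fintype.card (A'.P (w.e l) j) : ℝ) ^ 2 =
    ∑ l, (Fintype.card (A'.P l j) : ℝ) ^ 2 :=
  w.he.sum_comp fun l => (Fintype.card (A'.P l j) : ℝ) ^ 2

private theorem num_y [Finite H] [Finite H'] (y : d.X) :
    ∑ k, (∑ i, Fintype.card (S.D i) * Fintype.card ((bu y).M i k)) *
      (∑ j, Fintype.card (S'.D j) * Fintype.card ((bv y).M j k)) =
      Nat.card H * Fintype.card (d.R y) := by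
  have hD0 : 0 < Nat.card (d.D y) := Nat.card_pos
  have hH' := dd_card' d y
  have hB : ∀ k, ∑ j, Fintype.card (S'.D j) * Fintype.card ((bv y).M j k) =
      Fintype.card (d.R y) * Fintype.card ((T y).D k) := by
    intro k
    have h1 := (bv y).count (d.vinj y) k
    refine Nat.eq_of_mul_eq_mul_right hD0 ?_
    rw [h1, ← hH']
    ring
  have h2 : ∀ k, (∑ i, Fintype.card (S.D i) * Fintype.card ((bu y).M i k)) *
      (∑ j, Fintype.card (S'.D j) * Fintype.card ((bv y).M j k)) * Nat.card (d.D y) =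
      Nat.card H * Fintype.card (d.R y) *
        (Fintype.card ((T y).D k) * Fintype.card ((T y).D k)) := by
    intro k
    have h1 := (bu y).count (d.uinj y) k
    rw [hB]
    calc (∑ i, Fintype.card (S.D i) * Fintype.card ((bu y).M i k)) *
          (Fintype.card (d.R y) * Fintype.card ((T y).D k)) * Nat.card (d.D y)
        = ((∑ i, Fintype.card (S.D i) * Fintype.card ((bu y).M i k)) * Nat.card (d.D y)) *
          (Fintype.card (d.R y) * Fintype.card ((T y).D k)) := by ring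
      _ = Nat.card H * Fintype.card ((T y).D k) *
          (Fintype.card (d.R y) * Fintype.card ((T y).D k)) := by rw [h1]
      _ = _ := by ring
  refine Nat.eq_of_mul_eq_mul_right hD0 ?_
  rw [Finset.sum_mul, Finset.sum_congr rfl fun k _ => h2 k, ← Finset.mul_sum, (T y).sq]

/-- PROOF. As `Ox.dcK_sum`: for each `y`, `∑ i j k, |D i| |D' j| |M i k| |M' j k| = ∑ k, (∑ i, |D i| |M i k|) * (∑ j, |D' j| |M' j k|)`;
times `|D y| ^ 2` it is `∑ k, |H| * |H'| * |T.D k| ^ 2 = |H| * |H'| * |D y|` (`Br.count` twice with `uinj`, `vinj`, `Sys.sq`);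
`|H'| = |D y| * |R y|` (`dd_card'`), `dd_card`. -/
theorem kw_sum [Finite G] [Finite H] [Finite H'] : ∑ z : S.I × S'.I,
    Fintype.card (KW d T bu bv z) * (Fintype.card (S.D z.1) * Fintype.card (S'.D z.2)) =
      Nat.card G := by
  have h0 : ∀ z : S.I × S'.I, Fintype.card (KW d T bu bv z) =
      ∑ y, ∑ k, Fintype.card ((bu y).M z.1 k) * Fintype.card ((bv y).M z.2 k) := by
    intro z
    rw [Fintype.card_sigma]
    refine Finset.sum_congr rfl fun y _ => ?_
    rw [Fintype.card_sigma]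
    exact Finset.sum_congr rfl fun k _ => Fintype.card_prod _ _
  have h1 : ∀ z : S.I × S'.I, Fintype.card (KW d T bu bv z) *
      (Fintype.card (S.D z.1) * Fintype.card (S'.D z.2)) =
      ∑ y, ∑ k, (Fintype.card (S.D z.1) * Fintype.card ((bu y).M z.1 k)) *
        (Fintype.card (S'.D z.2) * Fintype.card ((bv y).M z.2 k)) := by
    intro z
    rw [h0, Finset.sum_mul]
    refine Finset.sum_congr rfl fun y _ => ?_
    rw [Finset.sum_mul]
    exact Finset.sum_congr rfl fun k _ => by ring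
  rw [Finset.sum_congr rfl fun z _ => h1 z, Finset.sum_comm, ← dd_card d]
  refine Finset.sum_congr rfl fun y _ => ?_
  rw [Finset.sum_comm, ← num_y d T bu bv y]
  refine Finset.sum_congr rfl fun k _ => ?_
  rw [Finset.sum_mul_sum, Fintype.sum_prod_type]

/-- PROOF. `∑ z, |RW z| |D z.1| |D' z.2| = ∑ l, (∑ i, |P l i| |D i|) * (∑ j, |P' (e l) j| |D' j|) = ∑ l, |A.sys.D l| * |A'.sys.D (e l)|`, `Iw.card`,
`Sys.sq`. -/
theorem rw_sum : ∑ z : S.I × S'.I,
    Fintype.card (RW A A' w z) * (Fintype.card (S.D z.1) * Fintype.card (S'.D z.2)) =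
      Nat.card G := by
  have h1 : ∀ z : S.I × S'.I, Fintype.card (RW A A' w z) *
      (Fintype.card (S.D z.1) * Fintype.card (S'.D z.2)) =
      ∑ l, (Fintype.card (S.D z.1) * Fintype.card (A.P l z.1)) *
        (Fintype.card (S'.D z.2) * Fintype.card (A'.P (w.e l) z.2)) := by
    intro z
    rw [num_rw, Finset.sum_mul]
    exact Finset.sum_congr rfl fun l _ => by ring
  have h2 : ∀ l, ∑ i, Fintype.card (S.D i) * Fintype.card (A.P l i) =
      Fintype.card (A.sys.D l) := by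
    intro l
    refine Eq.symm ((Fintype.card_sigma).trans ?_)
    exact Finset.sum_congr rfl fun i _ => Fintype.card_prod _ _
  have h3 : ∀ l, ∑ j, Fintype.card (S'.D j) * Fintype.card (A'.P l j) =
      Fintype.card (A'.sys.D l) := by
    intro l
    refine Eq.symm ((Fintype.card_sigma).trans ?_)
    exact Finset.sum_congr rfl fun i _ => Fintype.card_prod _ _
  rw [Finset.sum_congr rfl fun z _ => h1 z, Finset.sum_comm, ← A.sys.sq]
  refine Finset.sum_congr rfl fun l _ => ?_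
  have h4 := w.card l
  calc ∑ z : S.I × S'.I, (Fintype.card (S.D z.1) * Fintype.card (A.P l z.1)) *
        (Fintype.card (S'.D z.2) * Fintype.card (A'.P (w.e l) z.2))
      = (∑ i, Fintype.card (S.D i) * Fintype.card (A.P l i)) *
        ∑ j, Fintype.card (S'.D j) * Fintype.card (A'.P (w.e l) j) := by
        rw [Finset.sum_mul_sum, Fintype.sum_prod_type]
    _ = Fintype.card (A.sys.D l) * Fintype.card (A'.sys.D (w.e l)) := by rw [h2, h3]
    _ = Fintype.card (A.sys.D l) * Fintype.card (A.sys.D l) := by rw [h4]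

/-- PROOF. `Tw.card` gives `≤` for all `z` (with `dd_two`); the sums `rw_sum` and `kw_sum` are equal and the weights are
positive (`Sys.ne`). -/
theorem rw_kw [Finite G] [Finite H] [Finite H'] (z : S.I × S'.I) :
    Fintype.card (RW A A' w z) = Fintype.card (KW d T bu bv z) := by
  obtain ⟨Y, hY, -⟩ := dd_two A A' w d T bu bv
  have hle : ∀ z ∈ (Finset.univ : Finset (S.I × S'.I)), Fintype.card (RW A A' w z) *
      (Fintype.card (S.D z.1) * Fintype.card (S'.D z.2)) ≤
      Fintype.card (KW d T bu bv z) * (Fintype.card (S.D z.1) * Fintype.card (S'.D z.2)) :=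
    fun z _ => Nat.mul_le_mul_right _ (hY.card A A' w (WW d T bu bv) Y z)
  have hs := (Finset.sum_eq_sum_iff_of_le hle).1
    ((rw_sum A A' w).trans (kw_sum d T bu bv).symm) z (Finset.mem_univ z)
  exact Nat.eq_of_mul_eq_mul_right
    (Nat.mul_pos (Fintype.card_pos_iff.2 (S.ne z.1)) (Fintype.card_pos_iff.2 (S'.ne z.2))) hs

/-- PROOF. `|RW z| = ∑ l, |P l z.1| * |P' (e l) z.2|`, Cauchy - Schwarz (`Finset.sum_mul_sq_le_sq_mul_sq` or
`2 x y ≤ x ^ 2 + y ^ 2`); `w.he` to reindex the second sum. -/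
theorem rw_small {b : ℝ} (h1 : ∀ i, ∑ l, (Fintype.card (A.P l i) : ℝ) ^ 2 ≤ b)
    (h2 : ∀ j, ∑ l, (Fintype.card (A'.P l j) : ℝ) ^ 2 ≤ b) (z : S.I × S'.I) :
    (Fintype.card (RW A A' w z) : ℝ) ≤ b := by
  rw [num_rw']
  obtain ⟨x, hx⟩ : ∃ x : A.I → ℝ, x = fun l => (Fintype.card (A.P l z.1) : ℝ) := ⟨_, rfl⟩
  obtain ⟨y, hy⟩ : ∃ y : A.I → ℝ, y = fun l => (Fintype.card (A'.P (w.e l) z.2) : ℝ) := ⟨_, rfl⟩
  have h3 : ∑ l, x l ^ 2 ≤ b := by
    rw [hx]
    exact h1 z.1
  have h4 : ∑ l, y l ^ 2 ≤ b := by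
    rw [hy]
    exact (num_re A A' w z.2).le.trans (h2 z.2)
  have h5 : ∑ l, x l * y l ≤ b := by
    have h6 : ∑ l, 2 * (x l * y l) ≤ ∑ l, (x l ^ 2 + y l ^ 2) :=
      Finset.sum_le_sum fun l _ => by nlinarith [sq_nonneg (x l - y l)]
    rw [← Finset.mul_sum, Finset.sum_add_distrib] at h6
    linarith
  rw [hx, hy] at h5
  exact h5

/-- PROOF. `|P l i| * |P' l j| ≤ |P' l j| ≤ |P' l j| ^ 2`. -/
theorem rw_left {b : ℝ} (h1 : ∀ l i, Fintype.card (A.P l i) ≤ 1)
    (h2 : ∀ j, ∑ l, (Fintype.card (A'.P l j) : ℝ) ^ 2 ≤ b) (z : S.I × S'.I) :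
    (Fintype.card (RW A A' w z) : ℝ) ≤ b := by
  rw [num_rw']
  refine le_trans (Finset.sum_le_sum fun l _ => ?_) ((num_re A A' w z.2).le.trans (h2 z.2))
  have h3 : (Fintype.card (A.P l z.1) : ℝ) ≤ 1 := by exact_mod_cast h1 l z.1
  have h4 : (Fintype.card (A'.P (w.e l) z.2) : ℝ) ≤
      (Fintype.card (A'.P (w.e l) z.2) : ℝ) ^ 2 := by
    exact_mod_cast Nat.le_self_pow two_ne_zero _
  exact (mul_le_of_le_one_left (Nat.cast_nonneg _) h3).trans h4

/-- PROOF. The same. -/
theorem rw_right {b : ℝ} (h1 : ∀ i, ∑ l, (Fintype.card (A.P l i) : ℝ) ^ 2 ≤ b)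
    (h2 : ∀ l j, Fintype.card (A'.P l j) ≤ 1) (z : S.I × S'.I) :
    (Fintype.card (RW A A' w z) : ℝ) ≤ b := by
  rw [num_rw']
  refine le_trans (Finset.sum_le_sum fun l _ => ?_) (h1 z.1)
  have h3 : (Fintype.card (A'.P (w.e l) z.2) : ℝ) ≤ 1 := by exact_mod_cast h2 (w.e l) z.2
  have h4 : (Fintype.card (A.P l z.1) : ℝ) ≤ (Fintype.card (A.P l z.1) : ℝ) ^ 2 := by
    exact_mod_cast Nat.le_self_pow two_ne_zero _
  exact (mul_le_of_le_one_right (Nat.cast_nonneg _) h3).trans h4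

end MP0775d3.Zf
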