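import Pool.Agent.Lib.MP_0775d3_lc.Ox.PrB

/-! Project ZF: prime index. Matching systems, twists. -/

set_option linter.unusedSectionVars false
set_option linter.unusedVariables false

namespace MP0775d3.Zf

open Matrix MP0775d3.Cf MP0775d3.Ox

variable {G H : Type} [Group G] [Group H]

private theorem prA_chi_pow (χ : G → ℂ) (h1 : χ 1 = 1) (h2 : ∀ g h, χ (g * h) = χ g * χ h)
    (g : G) (n : ℕ) : χ (g ^ n) = χ g ^ n := by
  induction n with
  | zero => rw [pow_zero, pow_zero, h1]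
  | succ n ih => rw [pow_succ, pow_succ, h2, ih]

/-- PROOF. `Ox.exists_pd` for the subgroup `ι.range` and `H ≃* ι.range` (`MonoidHom.ofInjective`). -/
theorem exists_pd' [Finite G] (ι : H →* G) (hι : Function.Injective ι) (hN : ι.range.Normal)
    (hp : ι.range.index.Prime) : Nonempty (Pd ι ι.range.index) := by
  obtain ⟨d⟩ := exists_pd ι.range hN hp
  have he : ∀ h, ((MonoidHom.ofInjective hι h : ι.range) : G) = ι h := fun h => rfl
  have hs : ∀ x : ι.range, ι ((MonoidHom.ofInjective hι).symm x) = (x : G) := fun x => by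
    rw [← he, MulEquiv.apply_symm_apply]
  refine ⟨⟨d.g, ((MonoidHom.ofInjective hι).trans d.α).trans (MonoidHom.ofInjective hι).symm,
    fun h => ?_, (MonoidHom.ofInjective hι).symm d.c, ?_, ?_⟩⟩
  · change ι ((MonoidHom.ofInjective hι).symm (d.α (MonoidHom.ofInjective hι h))) = _
    rw [hs]
    exact d.hα _
  · rw [hs]
    exact d.hc
  · have h1 := d.bij.comp
      ((MonoidHom.ofInjective hι).toEquiv.prodCongr (Equiv.refl (Fin ι.range.index))).bijective
    exact h1

/-- Two systems of the same group consist of the same representations. PROOF. Exactly as `Ox.exists_eqv` (file Ox/PrA.lean): `exists_br`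
for `MonoidHom.id G`, `S`, `S'`; `Br.card`, `Br.count`. -/
theorem sys_match [Finite G] (S S' : Sys G) (j : S.I) : ∃ (i : S'.I)
    (V : Matrix (S.D j) (S'.D i) ℂ) (V' : Matrix (S'.D i) (S.D j) ℂ), V * V' = 1 ∧ V' * V = 1 ∧
      ∀ g, S.π j g * V = V * S'.π i g := by
  classical
  obtain ⟨b⟩ := exists_br (MonoidHom.id G) S S'
  have hc := b.card j
  have hk : ∀ k, ∑ i, Fintype.card (S.D i) * Fintype.card (b.M i k) = Fintype.card (S'.D k) := by
    intro k
    have h1 := b.count (show Function.Injective (MonoidHom.id G) from Function.injective_id) k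
    rw [mul_comm] at h1
    exact Nat.eq_of_mul_eq_mul_left Nat.card_pos h1
  have hpos : ∀ k, 0 < Fintype.card (S.D k) := fun k => Fintype.card_pos
  have hpos' : ∀ k, 0 < Fintype.card (S'.D k) := fun k => Fintype.card_pos
  obtain ⟨i, hi⟩ : ∃ i, 0 < Fintype.card (b.M j i) := by
    by_contra hcon
    have h1 : ∑ k, Fintype.card (S'.D k) * Fintype.card (b.M j k) = 0 := by
      refine Finset.sum_eq_zero fun k _ => ?_
      have h2 : Fintype.card (b.M j k) = 0 := by
        by_contra h3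
        exact hcon ⟨k, Nat.pos_of_ne_zero h3⟩
      rw [h2, mul_zero]
    rw [h1] at hc
    exact absurd hc (hpos j).ne
  have hle1 : Fintype.card (S'.D i) * Fintype.card (b.M j i) ≤ Fintype.card (S.D j) := by
    rw [← hc]
    exact Finset.single_le_sum (f := fun k => Fintype.card (S'.D k) * Fintype.card (b.M j k))
      (fun _ _ => Nat.zero_le _) (Finset.mem_univ i)
  have hle2 : Fintype.card (S.D j) * Fintype.card (b.M j i) ≤ Fintype.card (S'.D i) := by
    rw [← hk i]
    exact Finset.single_le_sum (f := fun j => Fintype.card (S.D j) * Fintype.card (b.M j i))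
      (fun _ _ => Nat.zero_le _) (Finset.mem_univ j)
  have hji : Fintype.card (S.D j) ≤ Fintype.card (S'.D i) :=
    (Nat.le_mul_of_pos_right _ hi).trans hle2
  have hone : Fintype.card (b.M j i) = 1 := by
    refine le_antisymm ?_ hi
    refine Nat.le_of_mul_le_mul_left ?_ (hpos' i)
    rw [mul_one]
    exact hle1.trans hji
  have hzero : ∀ k, k ≠ i → Fintype.card (b.M j k) = 0 := by
    intro k hki
    have h1 : Fintype.card (S'.D k) * Fintype.card (b.M j k) +
        Fintype.card (S'.D i) * Fintype.card (b.M j i) ≤ Fintype.card (S.D j) := by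
      rw [← hc, ← Finset.sum_pair (f := fun k => Fintype.card (S'.D k) *
        Fintype.card (b.M j k)) hki]
      exact Finset.sum_le_sum_of_subset (Finset.subset_univ _)
    rw [hone, mul_one] at h1
    have h2 : Fintype.card (S'.D k) * Fintype.card (b.M j k) = 0 := by omega
    exact (Nat.mul_eq_zero.1 h2).resolve_left (hpos' k).ne'
  obtain ⟨μ, hμ⟩ := Fintype.card_eq_one_iff.1 hone
  obtain ⟨e, he⟩ : ∃ e : S'.D i → Σ k, S'.D k × b.M j k, e = fun a => ⟨i, (a, μ)⟩ := ⟨_, rfl⟩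
  have hinj : Function.Injective e := by
    intro a a' h1
    rw [he] at h1
    exact (Prod.mk.inj (eq_of_heq (Sigma.mk.inj h1).2)).1
  have hbij : Function.Bijective e := by
    refine ⟨hinj, ?_⟩
    rintro ⟨k, a, ν⟩
    rcases eq_or_ne k i with h1 | h1
    · subst h1
      refine ⟨a, ?_⟩
      rw [he, hμ ν]
    · have h2 := Fintype.card_eq_zero_iff.1 (hzero k h1)
      exact h2.elim ν
  refine ⟨i, Matrix.of fun c a => b.B j c (e a), Matrix.of fun a c => b.B' j (e a) c, ?_, ?_,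
    fun h => ?_⟩
  · ext c c'
    rw [Matrix.mul_apply]
    have h1 := congrFun (congrFun (b.inv j) c) c'
    rw [Matrix.mul_apply, ← hbij.sum_comp] at h1
    exact h1
  · ext a a'
    rw [Matrix.mul_apply]
    have h1 := congrFun (congrFun (b.inv' j) (e a)) (e a')
    rw [Matrix.mul_apply] at h1
    refine h1.trans ?_
    rw [Matrix.one_apply, Matrix.one_apply]
    exact if_congr hinj.eq_iff rfl rfl
  · ext c a
    rw [Matrix.mul_apply, Matrix.mul_apply]
    have h1 := congrFun (congrFun (b.eq j h) c) (e a)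
    rw [Matrix.mul_apply, Matrix.mul_apply, ← hbij.sum_comp] at h1
    refine Eq.trans h1 ?_
    refine Finset.sum_congr rfl fun a' _ => ?_
    have h2 : S'.rep (b.M j) h (e a') (e a) = S'.π i h a' a := by
      rw [he, S'.rep_same, if_pos rfl]
    rw [h2]
    rfl

/-- The twisted system. -/
def twist (S : Sys G) (χ : G → ℂ) (h1 : χ 1 = 1) (hm : ∀ g h, χ (g * h) = χ g * χ h) : Sys G where
  I := S.I
  D := S.D
  ne := S.ne
  π i g := χ g • S.π i g
  one i := by rw [S.one, h1, one_smul]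
  mul i g h := by rw [S.mul, hm, smul_mul_smul_comm]
  sq := S.sq
  tr g hg := by
    have h2 : ∑ i, (Fintype.card (S.D i) : ℂ) * (χ g • S.π i g).trace =
        χ g * ∑ i, (Fintype.card (S.D i) : ℂ) * (S.π i g).trace := by
      rw [Finset.mul_sum]
      refine Finset.sum_congr rfl fun i _ => ?_
      rw [Matrix.trace_smul, smul_eq_mul]
      ring
    rw [h2, S.tr g hg, mul_zero]

/-- PROOF. `sys_match` for `twist S χ` and `S`. -/
theorem match_twist [Finite G] (S : Sys G) (χ : G → ℂ) (h1 : χ 1 = 1)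
    (hm : ∀ g h, χ (g * h) = χ g * χ h) (l : S.I) : ∃ (l' : S.I)
    (V : Matrix (S.D l) (S.D l') ℂ) (V' : Matrix (S.D l') (S.D l) ℂ), V * V' = 1 ∧ V' * V = 1 ∧
      ∀ g, χ g • (S.π l g * V) = V * S.π l' g := by
  obtain ⟨i, V, V', h3, h4, h5⟩ := sys_match (twist S χ h1 hm) S l
  refine ⟨i, V, V', h3, h4, fun g => ?_⟩
  exact (Matrix.smul_mul (χ g) (S.π l g) V).symm.trans (h5 g)

/-- Characters of a quotient of prime order. PROOF. `Pd` (`exists_pd'`): `g = κ h * g₀ ^ e`, so `χ g = χ g₀ ^ e`; `g₀ ^ p` is in the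
range, so `χ g₀`, `ψ g₀` are `p`-th roots of unity, and `χ g₀ ≠ 1`, so `χ g₀` is primitive and `ψ g₀` is a power of it
(`IsPrimitiveRoot.eq_pow_of_pow_eq_one`). -/
theorem char_pow [Finite G] (κ : H →* G) (hκ : Function.Injective κ) (hN : κ.range.Normal)
    (hp : κ.range.index.Prime) (χ ψ : G → ℂ) (h1 : χ 1 = 1) (h2 : ∀ g h, χ (g * h) = χ g * χ h)
    (h3 : ∀ h, χ (κ h) = 1) (h1' : ψ 1 = 1) (h2' : ∀ g h, ψ (g * h) = ψ g * ψ h)
    (h3' : ∀ h, ψ (κ h) = 1) (hχ : ∃ g, χ g ≠ 1) :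
    ∃ m < κ.range.index, ∀ g, ψ g = χ g ^ m := by
  obtain ⟨d⟩ := exists_pd' κ hκ hN hp
  have _ : Fact κ.range.index.Prime := ⟨hp⟩
  have _ : NeZero κ.range.index := ⟨hp.ne_zero⟩
  have hx : ∀ (χ : G → ℂ), χ 1 = 1 → (∀ g h, χ (g * h) = χ g * χ h) → (∀ h, χ (κ h) = 1) →
      χ d.g ^ κ.range.index = 1 := by
    intro χ h1 h2 h3
    rw [← prA_chi_pow χ h1 h2, ← d.hc, h3]
  have hy : ∀ (χ : G → ℂ), χ 1 = 1 → (∀ g h, χ (g * h) = χ g * χ h) → (∀ h, χ (κ h) = 1) →
      ∀ (h : H) (e : ℕ), χ (κ h * d.g ^ e) = χ d.g ^ e := by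
    intro χ h1 h2 h3 h e
    rw [h2, h3, one_mul, prA_chi_pow χ h1 h2]
  have hne : χ d.g ≠ 1 := by
    intro h
    obtain ⟨g, hg⟩ := hχ
    obtain ⟨q, hq⟩ := d.bij.2 g
    apply hg
    have hq' : κ q.1 * d.g ^ (q.2 : ℕ) = g := hq
    rw [← hq', hy χ h1 h2 h3, h, one_pow]
  have hprim : IsPrimitiveRoot (χ d.g) κ.range.index := by
    have h4 := IsPrimitiveRoot.orderOf (χ d.g)
    rwa [orderOf_eq_prime (hx χ h1 h2 h3) hne] at h4
  obtain ⟨m, hm, hm'⟩ := hprim.eq_pow_of_pow_eq_one (hx ψ h1' h2' h3')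
  refine ⟨m, hm, fun g => ?_⟩
  obtain ⟨q, hq⟩ := d.bij.2 g
  have hq' : κ q.1 * d.g ^ (q.2 : ℕ) = g := hq
  rw [← hq', hy χ h1 h2 h3, hy ψ h1' h2' h3', ← hm', ← pow_mul, ← pow_mul, mul_comm]

/-- PROOF. `g ^ index` is in the range (`Subgroup.pow_index_mem`). -/
theorem char_one (κ : H →* G) (hN : κ.range.Normal) (χ : G → ℂ) (h1 : χ 1 = 1)
    (h2 : ∀ g h, χ (g * h) = χ g * χ h) (h3 : ∀ h, χ (κ h) = 1) (g : G) :
    χ g ^ κ.range.index = 1 := by
  obtain ⟨h, hh⟩ := κ.range.pow_index_mem g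
  rw [← prA_chi_pow χ h1 h2, ← hh, h3]

end MP0775d3.Zf
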