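import Pool.Agent.Lib.MP_0775d3_lc.Zf.PrA
import Pool.Agent.Lib.MP_0775d3_lc.Zf.DdN
import Pool.Agent.Lib.MP_0775d3_lc.Ox.PrE

/-! Project ZF: prime index. Multiplicity one. -/

set_option linter.unusedSectionVars false
set_option linter.unusedVariables false

namespace MP0775d3.Zf

open Matrix MP0775d3.Cf MP0775d3.Ox

variable {G H : Type} [Group G] [Group H]

private theorem prb_pow {S : Sys H} {α : H ≃* H} {i : S.I} (h : Eqv S α i i) (n : ℕ) :
    Eqv S (fun x => (α ^ n) x) i i := by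
  induction n with
  | zero =>
    change Eqv S (fun h => (α ^ 0) h) i i
    exact ⟨1, 1, one_mul 1, one_mul 1, fun h => by rw [Matrix.mul_one, Matrix.one_mul]; rfl⟩
  | succ n ih =>
    have h1 := h.trans ih
    exact h1

private theorem prb_powU {S : Sys H} {α : H ≃* H} {j : S.I} {U : Matrix (S.D j) (S.D j) ℂ}
    (hU : ∀ h, S.π j h * U = U * S.π j (α h)) (e : ℕ) (h : H) :
    S.π j h * U ^ e = U ^ e * S.π j ((α ^ e) h) := by
  induction e with
  | zero =>
    rw [pow_zero, pow_zero, Matrix.mul_one, Matrix.one_mul]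
    rfl
  | succ e ih =>
    have h1 : (α ^ (e + 1)) h = α ((α ^ e) h) := by
      rw [pow_succ']
      rfl
    rw [h1, pow_succ, ← Matrix.mul_assoc, ih, Matrix.mul_assoc, hU, Matrix.mul_assoc]

private theorem prb_scal [Finite H] {S : Sys H} {j : S.I} {β : H ≃* H}
    {V V' W W' : Matrix (S.D j) (S.D j) ℂ}
    (h1 : V * V' = 1) (h2 : V' * V = 1) (h3 : W * W' = 1)
    (hV : ∀ h, S.π j h * V = V * S.π j (β h)) (hW : ∀ h, S.π j h * W = W * S.π j (β h)) :
    ∃ c : ℂ, c ≠ 0 ∧ W = c • V := by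
  obtain ⟨c, hc⟩ := schur_one S j (V' * W) (fun h => by
    obtain ⟨k, rfl⟩ := β.surjective h
    have e1 : S.π j (β k) * V' = V' * S.π j k := by
      calc S.π j (β k) * V' = V' * V * S.π j (β k) * V' := by rw [h2, Matrix.one_mul]
        _ = V' * (S.π j k * V) * V' := by rw [hV, Matrix.mul_assoc V' V]
        _ = V' * S.π j k * (V * V') := by simp only [Matrix.mul_assoc]
        _ = V' * S.π j k := by rw [h1, Matrix.mul_one]
    rw [← Matrix.mul_assoc, e1, Matrix.mul_assoc, hW, Matrix.mul_assoc])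
  have e2 : W = c • V := by
    calc W = V * (V' * W) := by rw [← Matrix.mul_assoc, h1, Matrix.one_mul]
      _ = c • V := by rw [hc, Matrix.mul_smul, Matrix.mul_one]
  refine ⟨c, ?_, e2⟩
  rintro rfl
  rw [zero_smul] at e2
  rw [e2, Matrix.zero_mul] at h3
  exact zero_ne_one h3

private theorem prb_entry {S : Sys H} {j : S.I} {V V' : Matrix (S.D j) (S.D j) ℂ}
    (h1 : V * V' = 1) : ∃ a b, V a b ≠ 0 := by
  by_contra hcon
  push Not at hcon
  have h2 : V = 0 := by
    ext a b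
    exact hcon a b
  rw [h2, Matrix.zero_mul] at h1
  exact zero_ne_one h1

private theorem prb_sum {L : Type} {T : L → Type} [Fintype L] [∀ l, Fintype (T l)] (l : L)
    (v : T l → ℂ) : ∃ u : (Σ l, T l) → ℂ, (∀ x, u ⟨l, x⟩ = v x) ∧
      ∀ g : (Σ l, T l) → ℂ, ∑ y, u y * g y = ∑ x, v x * g ⟨l, x⟩ := by
  classical
  refine ⟨fun y => ∑ x, if y = ⟨l, x⟩ then v x else 0, fun x => ?_, fun g => ?_⟩
  · dsimp only
    rw [Finset.sum_eq_single x, if_pos rfl]
    · intro x' _ hx
      rw [if_neg]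
      intro h
      exact hx (eq_of_heq (Sigma.mk.inj h).2).symm
    · intro hx
      exact absurd (Finset.mem_univ x) hx
  · simp only [Finset.sum_mul]
    rw [Finset.sum_comm]
    refine Finset.sum_congr rfl fun x _ => ?_
    rw [Finset.sum_eq_single (⟨l, x⟩ : Σ l, T l), if_pos rfl]
    · intro y _ hy
      rw [if_neg hy, zero_mul]
    · intro hx
      exact absurd (Finset.mem_univ _) hx

private theorem prb_key [Finite G] [Finite H] {ι : H →* G} {p : ℕ} (d : Pd ι p)
    (hι : Function.Injective ι) (hp : p.Prime) {S : Sys H} (A : Ad ι S) (i : S.I) :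
    Fintype.card (Σ l, A.P l i × A.P l i) ≤ 1 ∨
      (Eqv S d.α i i ∧ ∀ l, Subsingleton (A.P l i)) := by
  classical
  have hfin : ∀ z, Fintype (PK d (S := S) z) := fun z => Fintype.ofFinite _
  have hV0 : ∀ (z : S.I × S.I) (e : PK d z), ∃ (V : Matrix (S.D z.1) (S.D z.2) ℂ)
      (V' : Matrix (S.D z.2) (S.D z.1) ℂ), V * V' = 1 ∧ V' * V = 1 ∧
      ∀ h, S.π z.1 h * V = V * S.π z.2 ((d.α ^ ((e : Fin p) : ℕ)) h) := fun z e => e.2
  choose V V' h1 h2 hV using hV0
  obtain ⟨Y, hT, hY⟩ := pW_two d V A V' h1 h2 hV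
  by_cases hj : Eqv S d.α i i
  · refine Or.inr ⟨hj, ?_⟩
    obtain ⟨U, U', hU1, hU2, hU, hUp⟩ := pd_stable d hι hp i hj
    have hUe : ∀ e : ℕ, U ^ e * U' ^ e = 1 := by
      intro e
      have hc : Commute U U' := by
        rw [Commute, SemiconjBy, hU1, hU2]
      rw [← hc.mul_pow, hU1, one_pow]
    have hc : ∀ e : PK d (S := S) (i, i), ∃ c : ℂ, c ≠ 0 ∧
        U ^ ((e : Fin p) : ℕ) = c • V (i, i) e :=
      fun e => prb_scal (h1 (i, i) e) (h2 (i, i) e) (hUe _) (hV (i, i) e) (prb_powU hU _)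
    choose c hc0 hc using hc
    have hy : ∀ l, ∃ y : Matrix (A.P l i) (A.P l i) ℂ, y ^ p = 1 ∧
        ∀ (e : ℕ) a b r q, A.ρ l (d.g ^ e) ⟨i, (a, r)⟩ ⟨i, (b, q)⟩ = (y ^ e) r q * (U ^ e) a b :=
      fun l => pd_power d A i U U' hU1 hU2 hU hUp l
    choose y hyp hy using hy
    have hYe : ∀ (l : A.I) (r q : A.P l i) (e : PK d (S := S) (i, i)),
        Y (i, i) ⟨l, (r, q)⟩ e = (y l ^ ((e : Fin p) : ℕ)) r q * c e := by
      intro l r q e
      obtain ⟨a, b, hab⟩ := prb_entry (h1 (i, i) e)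
      apply mul_right_cancel₀ hab
      have e1 := hY (i, i) l r q e a b
      rw [← e1]
      refine (hy l _ a b r q).trans ?_
      rw [hc e, Matrix.smul_apply, smul_eq_mul, mul_assoc]
    have hrows : ∀ v : (Σ l, A.P l i × A.P l i) → ℂ,
        (∀ e : Fin p, ∑ x, v x * (y x.1 ^ (e : ℕ)) x.2.1 x.2.2 = 0) → v = 0 := by
      intro v hv
      refine Two.rows A (pW d V) Y hT (i, i) v fun e => ?_
      have e1 : ∀ x : (Σ l, A.P l i × A.P l i), v x * Y (i, i) x e =
          (v x * (y x.1 ^ ((e : Fin p) : ℕ)) x.2.1 x.2.2) * c e := by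
        rintro ⟨l, r, q⟩
        rw [hYe, mul_assoc]
      refine (Finset.sum_congr rfl fun x _ => e1 x).trans ?_
      rw [← Finset.sum_mul, hv, zero_mul]
    intro l
    refine mult_one (y l) fun v hv => ?_
    obtain ⟨u, hu1, hu2⟩ := prb_sum (T := fun l => A.P l i × A.P l i) l v
    have hu0 : u = 0 := hrows u fun e => by
      rw [hu2 fun x => (y x.1 ^ (e : ℕ)) x.2.1 x.2.2]
      exact hv e
    funext x
    rw [← hu1 x, hu0]
    rfl
  · refine Or.inl (le_trans (Two.card A (pW d V) Y hT (i, i)) ?_)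
    rw [Fintype.card_le_one_iff_subsingleton]
    refine ⟨fun e e' => ?_⟩
    by_contra he
    exact hj (pK_two d hι hp (i, i) e e' he).2

private theorem prb_row {ι : H →* G} {S : Sys H} (A : Ad ι S)
    (h : H) (g : G) (l : A.I) (i : S.I) (a : S.D i) (p : A.P l i) (y : Σ i, S.D i × A.P l i) :
    A.ρ l (ι h * g) ⟨i, (a, p)⟩ y = ∑ c, S.π i h a c * A.ρ l g ⟨i, (c, p)⟩ y := by
  classical
  rw [A.mul, A.res, Matrix.mul_apply, Fintype.sum_sigma, Finset.sum_eq_single i]
  · rw [Fintype.sum_prod_type]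
    refine Finset.sum_congr rfl fun c _ => ?_
    rw [Finset.sum_eq_single p]
    · rw [S.rep_same, if_pos rfl]
    · intro q _ hq
      rw [S.rep_same, if_neg hq.symm, zero_mul]
    · intro h2
      exact absurd (Finset.mem_univ _) h2
  · intro j _ hj
    refine Finset.sum_eq_zero fun x _ => ?_
    rw [S.rep_ne _ _ hj.symm, zero_mul]
  · intro h2
    exact absurd (Finset.mem_univ _) h2

private theorem prb_diag [Finite G] (S : Sys G) (k : S.I) (v : S.D k → ℂ)
    (h : ∀ g x y, S.π k g x y * v y = v x * S.π k g x y) (x y : S.D k) : v x = v y := by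
  obtain ⟨c, hc⟩ := schur_one S k (Matrix.diagonal v) (fun g => by
    ext x y
    rw [Matrix.mul_diagonal, Matrix.diagonal_mul]
    exact h g x y)
  have h1 : ∀ x, v x = c := by
    intro x
    have h2 := congrFun (congrFun hc x) x
    rw [Matrix.diagonal_apply_eq, Matrix.smul_apply, Matrix.one_apply_eq, smul_eq_mul,
      mul_one] at h2
    exact h2
  rw [h1 x, h1 y]

/-- PROOF. `d` from `exists_pd'`; `V`, `V'` by choice from `PK d z` (as in `Ox.step_prime`), `Ox.pW_two`: `Two A (pW d V) Y`. If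
`Eqv S d.α i i` does not hold, `PK d (i, i)` has at most one element (`Ox.pK_two`), so by `Two.card`
`|Σ l, A.P l i × A.P l i| ≤ 1`. If it holds: `pd_stable`, `pd_power` give `y l` with `A.ρ l (g ^ e) = (y l ^ e) ⊗ (U ^ e)` on the block
`i`, and `Two.rows` with `mult_one` gives `Subsingleton (A.P l i)`, as in the proof of `Ox.pY_stable` (there `hsub`). -/
theorem mult_le [Finite G] [Finite H] {ι : H →* G} (hι : Function.Injective ι)
    (hN : ι.range.Normal) (hp : ι.range.index.Prime) {S : Sys H} (A : Ad ι S) (l : A.I)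
    (i : S.I) : Fintype.card (A.P l i) ≤ 1 := by
  classical
  obtain ⟨d⟩ := exists_pd' ι hι hN hp
  rcases prb_key d hι hp A i with h | ⟨-, h⟩
  · refine le_trans (Fintype.card_le_of_injective
      (fun r : A.P l i => (⟨l, (r, r)⟩ : Σ l, A.P l i × A.P l i)) ?_) h
    intro r r' hr
    exact (Prod.mk.inj (eq_of_heq (Sigma.mk.inj hr).2)).1
  · exact Fintype.card_le_one_iff_subsingleton.2 (h l)

/-- If two representations contain `i` then all that contain `i` restrict to `i`. PROOF. As in `mult_le`: two different `l` give two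
elements of `Σ l, A.P l i × A.P l i`, so `Eqv S d.α i i`. Then the entries of `A.ρ l (g ^ e)` between the blocks `i` and `i' ≠ i`
vanish (`Ox.pd_zero`, in both orders, as in the proof of `Ox.pd_power`), so the projection to the block `i` commutes with all
`A.ρ l (ι h * g ^ e)`: by `schur_one` for `A.sys` it is a scalar; it is not zero as `A.P l i` is not empty, so it is `1` and
the other blocks are empty (`S.ne`). -/
theorem irr_of_two [Finite G] [Finite H] {ι : H →* G} (hι : Function.Injective ι)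
    (hN : ι.range.Normal) (hp : ι.range.index.Prime) {S : Sys H} (A : Ad ι S) {l l' : A.I}
    {i : S.I} (hl : l ≠ l') (p : A.P l i) (p' : A.P l' i) (l'' : A.I) (p'' : A.P l'' i)
    (i' : S.I) (hi : i' ≠ i) : IsEmpty (A.P l'' i') := by
  classical
  obtain ⟨d⟩ := exists_pd' ι hι hN hp
  rcases prb_key d hι hp A i with h | ⟨hE, -⟩
  · exfalso
    rw [Fintype.card_le_one_iff] at h
    exact hl (congrArg Sigma.fst (h ⟨l, (p, p)⟩ ⟨l', (p', p')⟩))
  · refine ⟨fun r => ?_⟩
    have hpw : ∀ e : ℕ, Eqv S (fun x => (d.α ^ e) x) i i := fun e => prb_pow hE e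
    have hn1 : ∀ (e : ℕ) (j : S.I), j ≠ i → ¬ Eqv S (fun x => (d.α ^ e) x) j i :=
      fun e j hj h => hj (h.unique (hpw e))
    have hn2 : ∀ (e : ℕ) (j : S.I), j ≠ i → ¬ Eqv S (fun x => (d.α ^ e) x) i j := by
      intro e j hj h
      have h3 := Eqv.symm (α := d.α ^ e) h
      have h4 := Eqv.symm (α := d.α ^ e) (hpw e)
      exact hj (h3.unique h4)
    have hz1 : ∀ (e : ℕ) (x y : Σ i, S.D i × A.P l'' i), x.1 ≠ i → y.1 = i →
        A.ρ l'' (d.g ^ e) x y = 0 := by
      rintro e ⟨j, a, s⟩ ⟨j', b, t⟩ hx hy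
      obtain rfl : j' = i := hy
      exact pd_zero d A e l'' j j' (hn1 e j hx) a b s t
    have hz2 : ∀ (e : ℕ) (x y : Σ i, S.D i × A.P l'' i), x.1 = i → y.1 ≠ i →
        A.ρ l'' (d.g ^ e) x y = 0 := by
      rintro e ⟨j, a, s⟩ ⟨j', b, t⟩ hx hy
      obtain rfl : j = i := hx
      exact pd_zero d A e l'' j j' (hn2 e j' hy) a b s t
    have hz : ∀ (g : G) (x y : Σ i, S.D i × A.P l'' i), ¬ (x.1 = i ↔ y.1 = i) →
        A.ρ l'' g x y = 0 := by
      rintro g ⟨j, a, s⟩ y hxy
      obtain ⟨q, hq⟩ := d.bij.2 g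
      have hq' : ι q.1 * d.g ^ (q.2 : ℕ) = g := hq
      rw [← hq', prb_row]
      refine Finset.sum_eq_zero fun c _ => ?_
      by_cases hj : j = i
      · have hy : y.1 ≠ i := fun hy => hxy ⟨fun _ => hy, fun _ => hj⟩
        rw [hz2 _ ⟨j, (c, s)⟩ y hj hy, mul_zero]
      · have hy : y.1 = i := by
          by_contra hy
          exact hxy ⟨fun h => absurd h hj, fun h => absurd h hy⟩
        rw [hz1 _ ⟨j, (c, s)⟩ y hj hy, mul_zero]
    obtain ⟨a⟩ := S.ne i
    obtain ⟨b⟩ := S.ne i'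
    have h5 := prb_diag A.sys l'' (fun x : Σ i, S.D i × A.P l'' i => if x.1 = i then (1 : ℂ) else 0)
      (fun g x y => by
        change A.ρ l'' g x y * (if y.1 = i then (1 : ℂ) else 0) =
          (if x.1 = i then (1 : ℂ) else 0) * A.ρ l'' g x y
        by_cases hxy : (x.1 = i ↔ y.1 = i)
        · by_cases hx : x.1 = i
          · rw [if_pos hx, if_pos (hxy.1 hx), mul_one, one_mul]
          · rw [if_neg hx, if_neg fun h => hx (hxy.2 h), mul_zero, zero_mul]
        · rw [hz g x y hxy, mul_zero, zero_mul])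
      ⟨i, (a, p'')⟩ ⟨i', (b, r)⟩
    dsimp only at h5
    rw [if_pos rfl, if_neg hi] at h5
    exact one_ne_zero h5

/-- PROOF. `ι` bijective: for `X : Matrix (A.P l i) (A.P l i) ℂ` the matrix `1 ⊗ X` on the block `i` and `0` on the others
commutes with all `S.rep (A.P l) h = A.ρ l (ι h)`, so it is a scalar (`schur_one` for `A.sys`); with `X` a matrix unit
`(p, p)` this gives `|A.P l i| ≤ 1`. -/
theorem mult_top [Finite G] [Finite H] {ι : H →* G} (hι : Function.Injective ι)
    (ht : ι.range = ⊤) {S : Sys H} (A : Ad ι S) (l : A.I) (i : S.I) :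
    Fintype.card (A.P l i) ≤ 1 := by
  classical
  rw [Fintype.card_le_one_iff_subsingleton]
  refine ⟨fun r q => ?_⟩
  by_contra hrq
  have hsur : Function.Surjective ι := MonoidHom.range_eq_top.1 ht
  obtain ⟨a⟩ := S.ne i
  obtain ⟨v, hv⟩ : ∃ v : (Σ i, S.D i × A.P l i) → ℂ,
      v = fun x => if (∃ c : S.D i, x = ⟨i, (c, r)⟩) then (1 : ℂ) else 0 := ⟨_, rfl⟩
  have hv' : ∀ (j : S.I) (b b' : S.D j) (s : A.P l j), v ⟨j, (b, s)⟩ = v ⟨j, (b', s)⟩ := by
    intro j b b' s
    rw [hv]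
    refine if_congr ?_ rfl rfl
    constructor
    · rintro ⟨c, hc⟩
      obtain rfl : j = i := congrArg Sigma.fst hc
      have h7 := (Prod.mk.inj (eq_of_heq (Sigma.mk.inj hc).2)).2
      exact ⟨b', by rw [h7]⟩
    · rintro ⟨c, hc⟩
      obtain rfl : j = i := congrArg Sigma.fst hc
      have h7 := (Prod.mk.inj (eq_of_heq (Sigma.mk.inj hc).2)).2
      exact ⟨b, by rw [h7]⟩
  have hv1 : v ⟨i, (a, r)⟩ = 1 := by
    rw [hv]
    exact if_pos ⟨a, rfl⟩
  have hv0 : v ⟨i, (a, q)⟩ = 0 := by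
    rw [hv]
    refine if_neg ?_
    rintro ⟨c, hc⟩
    exact hrq (Prod.mk.inj (eq_of_heq (Sigma.mk.inj hc).2)).2.symm
  have hcom : ∀ (h : H) (x y : Σ i, S.D i × A.P l i),
      S.rep (A.P l) h x y * v y = v x * S.rep (A.P l) h x y := by
    rintro h ⟨j, b, s⟩ ⟨j', b', s'⟩
    by_cases hj : j = j'
    · subst hj
      by_cases hs : s = s'
      · subst hs
        rw [hv' j b' b s]
        exact mul_comm _ _
      · rw [S.rep_same, if_neg hs, zero_mul, mul_zero]
    · rw [S.rep_ne _ _ hj, zero_mul, mul_zero]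
  have h5 := prb_diag A.sys l v (fun g x y => by
      obtain ⟨h, rfl⟩ := hsur g
      change A.ρ l (ι h) x y * v y = v x * A.ρ l (ι h) x y
      rw [A.res]
      exact hcom h x y) ⟨i, (a, r)⟩ ⟨i, (a, q)⟩
  rw [hv1, hv0] at h5
  exact one_ne_zero h5

/-- PROOF. As `stp_u`: `(d.u y).range` is the preimage of `x * κ.range * x⁻¹ = κ.range`, so it is normal and its index divides the
prime index. -/
theorem u_range {H' : Type} [Group H'] {ι : H →* G} {κ : H' →* G} (d : Dd ι κ) [Finite G]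
    (hN : κ.range.Normal) (hp : κ.range.index.Prime) (y : d.X) :
    (d.u y).range = ⊤ ∨ ((d.u y).range.Normal ∧ (d.u y).range.index.Prime) := by
  have he : (d.u y).range = κ.range.comap ((MulAut.conj (d.x y)⁻¹).toMonoidHom.comp ι) := by
    ext h
    rw [MonoidHom.mem_range, Subgroup.mem_comap, MonoidHom.mem_range]
    have e : ((MulAut.conj (d.x y)⁻¹).toMonoidHom.comp ι) h = (d.x y)⁻¹ * ι h * d.x y := by
      change (d.x y)⁻¹ * ι h * ((d.x y)⁻¹)⁻¹ = _
      rw [inv_inv]
    rw [e]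
    constructor
    · rintro ⟨k, rfl⟩
      refine ⟨d.v y k, ?_⟩
      rw [mul_assoc, d.comm, inv_mul_cancel_left]
    · rintro ⟨h', hh⟩
      obtain ⟨k, hk, -⟩ := d.full y h h' (by
        rw [hh, mul_assoc, mul_inv_cancel_left])
      exact ⟨k, hk⟩
  have h1 : (d.u y).range.index =
      κ.range.relIndex ((MulAut.conj (d.x y)⁻¹).toMonoidHom.comp ι).range := by
    rw [he, Subgroup.index_comap]
  have h2 : (d.u y).range.index ∣ κ.range.index := by
    rw [h1]
    exact Subgroup.relIndex_dvd_index_of_normal κ.range _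
  rcases (Nat.dvd_prime hp).1 h2 with h3 | h3
  · exact Or.inl (Subgroup.index_eq_one.1 h3)
  · refine Or.inr ⟨?_, ?_⟩
    · rw [he]
      exact hN.comap _
    · rw [h3]
      exact hp

end MP0775d3.Zf
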