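import Pool.Agent.Lib.MP_0775d3_lc.Zf.PrA

/-! Project ZF: prime index. Ratios of representations with the same restrictions on both sides. -/

set_option linter.unusedSectionVars false
set_option linter.unusedVariables false

namespace MP0775d3.Zf

open Matrix MP0775d3.Cf MP0775d3.Ox

variable {G H H' : Type} [Group G] [Group H] [Group H']

/-- Representations `R x` of `G` in left bases, with a fixed irreducible restriction to `H`, and `R' x` in right bases, with a
fixed irreducible restriction to `H'`; `X x` intertwines. -/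
structure Rat (ι : H →* G) (κ : H' →* G) (Rw V V' : Type) [Fintype V] [DecidableEq V]
    [Fintype V'] [DecidableEq V'] where
  R : Rw → G → Matrix V V ℂ
  R' : Rw → G → Matrix V' V' ℂ
  X : Rw → Matrix V V' ℂ
  X' : Rw → Matrix V' V ℂ
  inv : ∀ x, X x * X' x = 1
  inv' : ∀ x, X' x * X x = 1
  one : ∀ x, R x 1 = 1
  mul : ∀ x g h, R x (g * h) = R x g * R x h
  eq : ∀ x g, R x g * X x = X x * R' x g
  res : ∀ x y h, R x (ι h) = R y (ι h)
  res' : ∀ x y h, R' x (κ h) = R' y (κ h)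
  sc : ∀ x (M : Matrix V V ℂ), (∀ h, R x (ι h) * M = M * R x (ι h)) → ∃ c : ℂ, M = c • 1
  sc' : ∀ x (M : Matrix V' V' ℂ), (∀ h, R' x (κ h) * M = M * R' x (κ h)) → ∃ c : ℂ, M = c • 1

variable {ι : H →* G} {κ : H' →* G} {Rw V V' : Type} [Fintype V] [DecidableEq V]
  [Fintype V'] [DecidableEq V'] (r : Rat ι κ Rw V V')

/-- Two representations with the same irreducible restriction to a normal subgroup differ by a character. -/
private theorem two_reps {G H V : Type} [Group G] [Group H] [Fintype V] [DecidableEq V] [Nonempty V]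
    {ι : H →* G} (hN : ι.range.Normal) (P Q : G → Matrix V V ℂ) (p1 : P 1 = 1)
    (pm : ∀ g h, P (g * h) = P g * P h) (q1 : Q 1 = 1) (qm : ∀ g h, Q (g * h) = Q g * Q h)
    (hres : ∀ h, P (ι h) = Q (ι h))
    (sc : ∀ M : Matrix V V ℂ, (∀ h, P (ι h) * M = M * P (ι h)) → ∃ c : ℂ, M = c • 1) :
    ∃ χ : G → ℂ, χ 1 = 1 ∧ (∀ g h, χ (g * h) = χ g * χ h) ∧ (∀ h, χ (ι h) = 1) ∧
      ∀ g, Q g = χ g • P g := by
  have key : ∀ g, ∃ c : ℂ, P g⁻¹ * Q g = c • (1 : Matrix V V ℂ) := by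
    intro g
    refine sc _ fun h => ?_
    obtain ⟨h₁, hh⟩ := hN.conj_mem (ι h) ⟨h, rfl⟩ g
    have e1 : ι h * g⁻¹ = g⁻¹ * ι h₁ := by rw [hh]; group
    have e2 : ι h₁ * g = g * ι h := by rw [hh]; group
    calc P (ι h) * (P g⁻¹ * Q g) = P (ι h * g⁻¹) * Q g := by rw [pm, Matrix.mul_assoc]
      _ = P g⁻¹ * (Q (ι h₁) * Q g) := by rw [e1, pm, Matrix.mul_assoc, hres]
      _ = P g⁻¹ * (Q g * Q (ι h)) := by rw [← qm, e2, qm]
      _ = P g⁻¹ * Q g * P (ι h) := by rw [hres, Matrix.mul_assoc]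
  choose χ hχ using key
  have hinv : ∀ g, P g * P g⁻¹ = 1 := fun g => by rw [← pm, mul_inv_cancel, p1]
  have hQ : ∀ g, Q g = χ g • P g := by
    intro g
    calc Q g = P g * (P g⁻¹ * Q g) := by rw [← Matrix.mul_assoc, hinv, Matrix.one_mul]
      _ = χ g • P g := by rw [hχ, Matrix.mul_smul, Matrix.mul_one]
  have canc : ∀ (a b : ℂ) (g : G), a • P g = b • P g → a = b := by
    intro a b g h
    have h2 : a • (1 : Matrix V V ℂ) = b • 1 := by
      rw [← hinv g, ← Matrix.smul_mul, ← Matrix.smul_mul, h]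
    have h3 := congrFun (congrFun h2 (Classical.arbitrary V)) (Classical.arbitrary V)
    simpa using h3
  refine ⟨χ, ?_, ?_, ?_, hQ⟩
  · apply canc _ _ 1
    rw [← hQ, q1, p1, one_smul]
  · intro g h
    apply canc _ _ (g * h)
    rw [← hQ, qm, hQ, hQ, pm, Matrix.smul_mul, Matrix.mul_smul, smul_smul]
  · intro h
    apply canc _ _ (ι h)
    rw [← hQ, hres, one_smul]

/-- PROOF. `R x g⁻¹ * R y g` commutes with all `R x (ι h)`: `g * ι h * g⁻¹ = ι h₁` by normality and `R x`, `R y` agree on the range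
(`res`). So it is `χ g • 1` (`sc`), and `χ` is multiplicative (`R x (g * h)⁻¹ * R y (g * h)`), `χ (ι h) = 1`. -/
theorem rat_left [Nonempty V] (hN : ι.range.Normal) (x y : Rw) : ∃ χ : G → ℂ, χ 1 = 1 ∧
    (∀ g h, χ (g * h) = χ g * χ h) ∧ (∀ h, χ (ι h) = 1) ∧ ∀ g, r.R y g = χ g • r.R x g := by
  exact two_reps hN (r.R x) (r.R y) (r.one x) (r.mul x) (r.one y) (r.mul y) (r.res x y) (r.sc x)

/-- PROOF. The same for `R' x g = X' x * R x g * X x`, which is multiplicative. -/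
theorem rat_right [Nonempty V'] (hN : κ.range.Normal) (x y : Rw) : ∃ χ : G → ℂ, χ 1 = 1 ∧
    (∀ g h, χ (g * h) = χ g * χ h) ∧ (∀ h, χ (κ h) = 1) ∧ ∀ g, r.R' y g = χ g • r.R' x g := by
  have hR : ∀ z g, r.R' z g = r.X' z * r.R z g * r.X z := by
    intro z g
    rw [Matrix.mul_assoc, r.eq, ← Matrix.mul_assoc, r.inv', Matrix.one_mul]
  have h1 : ∀ z, r.R' z 1 = 1 := by
    intro z
    rw [hR, r.one, Matrix.mul_one, r.inv']
  have hm : ∀ z g h, r.R' z (g * h) = r.R' z g * r.R' z h := by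
    intro z g h
    calc r.R' z (g * h) = r.X' z * (r.R z g * 1 * r.R z h) * r.X z := by
          rw [hR, r.mul, Matrix.mul_one]
      _ = r.X' z * (r.R z g * (r.X z * r.X' z) * r.R z h) * r.X z := by rw [r.inv]
      _ = r.X' z * r.R z g * r.X z * (r.X' z * r.R z h * r.X z) := by
          simp only [Matrix.mul_assoc]
      _ = _ := by rw [← hR, ← hR]
  exact two_reps hN (r.R' x) (r.R' y) (h1 x) (hm x) (h1 y) (hm y) (r.res' x y) (r.sc' x)

/-- PROOF. `R' x g = X' x * R x g * X x`; `R y g * X y = X y * R' y g`. -/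
theorem rat_N (x y : Rw) (χ₁ χ : G → ℂ) (h1 : ∀ g, r.R y g = χ₁ g • r.R x g)
    (h2 : ∀ g, r.R' y g = χ g • r.R' x g) (g : G) :
    χ₁ g • (r.R x g * (r.X y * r.X' x)) = χ g • (r.X y * r.X' x * r.R x g) := by
  have hR : r.R' x g * r.X' x = r.X' x * r.R x g := by
    calc r.R' x g * r.X' x = (r.X' x * r.X x) * r.R' x g * r.X' x := by
          rw [r.inv', Matrix.one_mul]
      _ = r.X' x * (r.X x * r.R' x g) * r.X' x := by simp only [Matrix.mul_assoc]
      _ = r.X' x * r.R x g * (r.X x * r.X' x) := by rw [← r.eq]; simp only [Matrix.mul_assoc]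
      _ = r.X' x * r.R x g := by rw [r.inv, Matrix.mul_one]
  calc χ₁ g • (r.R x g * (r.X y * r.X' x)) = r.R y g * r.X y * r.X' x := by
        rw [h1, Matrix.smul_mul, Matrix.smul_mul, Matrix.mul_assoc]
    _ = r.X y * (χ g • r.R' x g) * r.X' x := by rw [r.eq, h2]
    _ = χ g • (r.X y * (r.R' x g * r.X' x)) := by
        rw [Matrix.mul_smul, Matrix.smul_mul, Matrix.mul_assoc]
    _ = χ g • (r.X y * r.X' x * r.R x g) := by rw [hR, Matrix.mul_assoc]

/-- PROOF. Induction on `m`. -/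
theorem rel_pow {R : G → Matrix V V ℂ} {N : Matrix V V ℂ} {χ₁ χ : G → ℂ}
    (h : ∀ g, χ₁ g • (R g * N) = χ g • (N * R g)) (m : ℕ) (g : G) :
    χ₁ g ^ m • (R g * N ^ m) = χ g ^ m • (N ^ m * R g) := by
  induction m with
  | zero => simp
  | succ m ih =>
    calc χ₁ g ^ (m + 1) • (R g * N ^ (m + 1)) = χ₁ g • ((χ₁ g ^ m • (R g * N ^ m)) * N) := by
          rw [pow_succ N, ← Matrix.mul_assoc, Matrix.smul_mul, smul_smul, pow_succ']
      _ = χ g ^ m • (N ^ m * (χ₁ g • (R g * N))) := by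
          rw [ih, Matrix.smul_mul, smul_comm, Matrix.mul_smul, Matrix.mul_assoc]
      _ = χ g ^ (m + 1) • (N ^ (m + 1) * R g) := by
          rw [h, Matrix.mul_smul, smul_smul, ← pow_succ, ← Matrix.mul_assoc, ← pow_succ]

end MP0775d3.Zf
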