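import Pool.Agent.Lib.MP_0775d3_lc.Zf.PrC

/-! Project ZF: prime index. All ratios are powers of one. -/

set_option linter.unusedSectionVars false
set_option linter.unusedVariables false

namespace MP0775d3.Zf

open Matrix MP0775d3.Cf MP0775d3.Ox

variable {G H H' : Type} [Group G] [Group H] [Group H'] {ι : H →* G} {κ : H' →* G}
  {Rw V V' : Type} [Fintype V] [DecidableEq V] [Fintype V'] [DecidableEq V']
  (r : Rat ι κ Rw V V')

private theorem prd_canc {V : Type} [Fintype V] [DecidableEq V] [Nonempty V] {A A' : Matrix V V ℂ}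
    (h : A * A' = 1) {a b : ℂ} (hab : a • A = b • A) : a = b := by
  have h2 : a • (1 : Matrix V V ℂ) = b • 1 := by
    rw [← h, ← Matrix.smul_mul, ← Matrix.smul_mul, hab]
  have h3 := congrFun (congrFun h2 (Classical.arbitrary V)) (Classical.arbitrary V)
  simpa using h3

private theorem prd_ne {V : Type} [Fintype V] [DecidableEq V] [Nonempty V] {A A' : Matrix V V ℂ}
    (h : A * A' = 1) {a : ℂ} (ha : A = a • 1) : a ≠ 0 := by
  rintro rfl
  rw [zero_smul] at ha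
  rw [ha, Matrix.zero_mul] at h
  have h3 := congrFun (congrFun h (Classical.arbitrary V)) (Classical.arbitrary V)
  rw [Matrix.one_apply_eq, Matrix.zero_apply] at h3
  exact zero_ne_one h3

private theorem prd_pow {V : Type} [Fintype V] [DecidableEq V] {N N' : Matrix V V ℂ}
    (h : N * N' = 1) (h' : N' * N = 1) (m : ℕ) : N ^ m * N' ^ m = 1 := by
  have hc : Commute N N' := by
    change N * N' = N' * N
    rw [h, h']
  rw [← hc.mul_pow, h, one_pow]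

/-- PROOF. `χ₁` from `rat_left`, `χ` from `rat_right`, `N = X x₁ * X' x₀`, `N' = X x₀ * X' x₁`, `rat_N`. `χ` is not trivial: else `N`
commutes with all `R x₀ (ι h)` (`χ₁ (ι h) = 1`), so it is a scalar, and `rat_N` gives `χ₁ = 1` (`N ≠ 0`, `R x₀ g ≠ 0`), so
`R x₁ = R x₀`. For `x` any row: `ψ₁` from `rat_left`, `ψ` from `rat_right` (for `x₀`, `x`); `ψ = χ ^ m`, `m < κ.range.index`
(`char_pow`). `N_x = X x * X' x₀` satisfies `ψ₁ g • (R x₀ g * N_x) = χ g ^ m • (N_x * R x₀ g)`, `N ^ m` satisfies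
`χ₁ g ^ m • (R x₀ g * N ^ m) = χ g ^ m • (N ^ m * R x₀ g)` (`rel_pow`), so `M = N_x * N' ^ m` satisfies
`ψ₁ g • (R x₀ g * M) = χ₁ g ^ m • (M * R x₀ g)`; for `g = ι h` it commutes, so `M = s • 1`, `s ≠ 0` (`M` is invertible),
`ψ₁ = χ₁ ^ m` and `X x = s • (N ^ m * X x₀)`. `N ^ p`, `p = κ.range.index`: `χ ^ p = 1` (`char_one`), so it commutes with
`R x₀ (ι h)`: `c • 1`, `c ≠ 0`; then `rel_pow` gives `χ₁ ^ p = 1`. -/
theorem rat_pow [Finite G] [Nonempty V] [Nonempty V'] (hκ : Function.Injective κ)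
    (hN : ι.range.Normal) (hN' : κ.range.Normal) (hp : κ.range.index.Prime) (x₀ x₁ : Rw)
    (hne : r.R x₀ ≠ r.R x₁) : ∃ (χ₁ χ : G → ℂ) (N N' : Matrix V V ℂ) (c : ℂ),
      χ₁ 1 = 1 ∧ (∀ g h, χ₁ (g * h) = χ₁ g * χ₁ h) ∧ (∀ h, χ₁ (ι h) = 1) ∧
      χ 1 = 1 ∧ (∀ g h, χ (g * h) = χ g * χ h) ∧ (∀ h, χ (κ h) = 1) ∧
      N * N' = 1 ∧ N' * N = 1 ∧ (∀ g, χ₁ g • (r.R x₀ g * N) = χ g • (N * r.R x₀ g)) ∧
      (∀ g, r.R x₁ g = χ₁ g • r.R x₀ g) ∧ (∀ g, χ₁ g ^ κ.range.index = 1) ∧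
      c ≠ 0 ∧ N ^ κ.range.index = c • 1 ∧
      ∀ x, ∃ m < κ.range.index, ∃ s : ℂ, s ≠ 0 ∧ (∀ g, r.R x g = χ₁ g ^ m • r.R x₀ g) ∧
        r.X x = s • (N ^ m * r.X x₀) := by
  obtain ⟨χ₁, a1, am, ai, aR⟩ := rat_left r hN x₀ x₁
  obtain ⟨χ, b1, bm, bi, bR⟩ := rat_right r hN' x₀ x₁
  have hRinv : ∀ g, r.R x₀ g * r.R x₀ g⁻¹ = 1 := fun g => by rw [← r.mul, mul_inv_cancel, r.one]
  obtain ⟨N, hNd⟩ : ∃ N, N = r.X x₁ * r.X' x₀ := ⟨_, rfl⟩
  obtain ⟨N', hNd'⟩ : ∃ N', N' = r.X x₀ * r.X' x₁ := ⟨_, rfl⟩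
  have hNN : N * N' = 1 := by
    rw [hNd, hNd']
    calc r.X x₁ * r.X' x₀ * (r.X x₀ * r.X' x₁) = r.X x₁ * (r.X' x₀ * r.X x₀) * r.X' x₁ := by
          simp only [Matrix.mul_assoc]
      _ = 1 := by rw [r.inv', Matrix.mul_one, r.inv]
  have hNN' : N' * N = 1 := by
    rw [hNd, hNd']
    calc r.X x₀ * r.X' x₁ * (r.X x₁ * r.X' x₀) = r.X x₀ * (r.X' x₁ * r.X x₁) * r.X' x₀ := by
          simp only [Matrix.mul_assoc]
      _ = 1 := by rw [r.inv', Matrix.mul_one, r.inv]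
  have hrel : ∀ g, χ₁ g • (r.R x₀ g * N) = χ g • (N * r.R x₀ g) := by
    intro g
    rw [hNd]
    exact rat_N r x₀ x₁ χ₁ χ aR bR g
  have hχ : ∃ g, χ g ≠ 1 := by
    by_contra hcon
    push Not at hcon
    obtain ⟨c, hc⟩ := r.sc x₀ N fun h => by
      have h1 := hrel (ι h)
      rw [ai, hcon, one_smul, one_smul] at h1
      exact h1
    have hc0 : c ≠ 0 := prd_ne hNN hc
    apply hne
    funext g
    have h1 := hrel g
    rw [hcon, one_smul, hc, Matrix.mul_smul, Matrix.mul_one, Matrix.smul_mul, Matrix.one_mul,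
      smul_smul] at h1
    have h2 : χ₁ g * c = c := prd_canc (hRinv g) h1
    have h3 : χ₁ g = 1 := mul_right_cancel₀ hc0 (by rw [h2, one_mul])
    rw [aR, h3, one_smul]
  have hχ0 : ∀ g, χ g ≠ 0 := by
    intro g hg
    have h1 : χ (g * g⁻¹) = 0 := by rw [bm, hg, zero_mul]
    rw [mul_inv_cancel, b1] at h1
    exact one_ne_zero h1
  obtain ⟨c, hc⟩ := r.sc x₀ (N ^ κ.range.index) fun h => by
    have h1 := rel_pow hrel κ.range.index (ι h)
    rw [ai, one_pow, one_smul, char_one κ hN' χ b1 bm bi, one_smul] at h1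
    exact h1
  have hc0 : c ≠ 0 := prd_ne (prd_pow hNN hNN' _) hc
  refine ⟨χ₁, χ, N, N', c, a1, am, ai, b1, bm, bi, hNN, hNN', hrel, aR, ?_, hc0, hc, ?_⟩
  · intro g
    have h1 := rel_pow hrel κ.range.index g
    rw [char_one κ hN' χ b1 bm bi, one_smul, hc, Matrix.mul_smul, Matrix.mul_one,
      Matrix.smul_mul, Matrix.one_mul, smul_smul] at h1
    have h2 : χ₁ g ^ κ.range.index * c = c := prd_canc (hRinv g) h1
    exact mul_right_cancel₀ hc0 (by rw [h2, one_mul])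
  · intro x
    obtain ⟨ψ₁, c1, cm, ci, cR⟩ := rat_left r hN x₀ x
    obtain ⟨ψ, d1, dm, di, dR⟩ := rat_right r hN' x₀ x
    obtain ⟨m, hm, hψ⟩ := char_pow κ hκ hN' hp χ ψ b1 bm bi d1 dm di hχ
    have hx : ∀ g, ψ₁ g • (r.R x₀ g * (r.X x * r.X' x₀)) =
        χ g ^ m • (r.X x * r.X' x₀ * r.R x₀ g) := by
      intro g
      rw [← hψ]
      exact rat_N r x₀ x ψ₁ ψ cR dR g
    have hpw := rel_pow hrel m
    have e1 : N ^ m * N' ^ m = 1 := prd_pow hNN hNN' m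
    have e2 : N' ^ m * N ^ m = 1 := prd_pow hNN' hNN m
    obtain ⟨Y, hY⟩ : ∃ Y, Y = r.X x * r.X' x₀ := ⟨_, rfl⟩
    rw [← hY] at hx
    have hYX : Y * r.X x₀ = r.X x := by
      rw [hY, Matrix.mul_assoc, r.inv', Matrix.mul_one]
    have hYi : Y * (r.X x₀ * r.X' x) = 1 := by
      rw [← Matrix.mul_assoc, hYX, r.inv]
    obtain ⟨s, hs⟩ := r.sc x₀ (Y * N' ^ m) fun h => by
      have h1 := hx (ι h)
      rw [ci, one_smul] at h1
      have h2 := hpw (ι h)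
      rw [ai, one_pow, one_smul] at h2
      have h3 : N' ^ m * r.R x₀ (ι h) = χ (ι h) ^ m • (r.R x₀ (ι h) * N' ^ m) := by
        calc N' ^ m * r.R x₀ (ι h) = N' ^ m * (r.R x₀ (ι h) * N ^ m) * N' ^ m := by
              rw [Matrix.mul_assoc, Matrix.mul_assoc, e1, Matrix.mul_one]
          _ = χ (ι h) ^ m • (N' ^ m * N ^ m * r.R x₀ (ι h) * N' ^ m) := by
              rw [h2, Matrix.mul_smul, Matrix.smul_mul]
              simp only [Matrix.mul_assoc]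
          _ = _ := by rw [e2, Matrix.one_mul]
      calc r.R x₀ (ι h) * (Y * N' ^ m) = r.R x₀ (ι h) * Y * N' ^ m := by rw [Matrix.mul_assoc]
        _ = Y * (χ (ι h) ^ m • (r.R x₀ (ι h) * N' ^ m)) := by
            rw [h1, Matrix.smul_mul, Matrix.mul_smul, Matrix.mul_assoc]
        _ = Y * N' ^ m * r.R x₀ (ι h) := by rw [← h3, Matrix.mul_assoc]
    have hs0 : s ≠ 0 := by
      refine prd_ne (A' := N ^ m * (r.X x₀ * r.X' x)) ?_ hs
      calc Y * N' ^ m * (N ^ m * (r.X x₀ * r.X' x)) = Y * (N' ^ m * N ^ m) * (r.X x₀ * r.X' x) := by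
            simp only [Matrix.mul_assoc]
        _ = 1 := by rw [e2, Matrix.mul_one, hYi]
    have hYN : Y = s • N ^ m := by
      calc Y = Y * N' ^ m * N ^ m := by rw [Matrix.mul_assoc, e2, Matrix.mul_one]
        _ = s • N ^ m := by rw [hs, Matrix.smul_mul, Matrix.one_mul]
    refine ⟨m, hm, s, hs0, ?_, ?_⟩
    · intro g
      have h1 := hx g
      rw [hYN, Matrix.mul_smul, Matrix.smul_mul, smul_comm, smul_comm (χ g ^ m), ← hpw g] at h1
      have h2 : (s * ψ₁ g) • (r.R x₀ g * N ^ m) = (s * χ₁ g ^ m) • (r.R x₀ g * N ^ m) := by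
        rw [← smul_smul, ← smul_smul]
        exact h1
      have h3 : r.R x₀ g * N ^ m * (N' ^ m * r.R x₀ g⁻¹) = 1 := by
        calc r.R x₀ g * N ^ m * (N' ^ m * r.R x₀ g⁻¹) =
            r.R x₀ g * (N ^ m * N' ^ m) * r.R x₀ g⁻¹ := by simp only [Matrix.mul_assoc]
          _ = 1 := by rw [e1, Matrix.mul_one, hRinv]
      have h4 := mul_left_cancel₀ hs0 (prd_canc h3 h2)
      rw [cR, h4]
    · rw [← hYX, hYN, Matrix.smul_mul]

end MP0775d3.Zf
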