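import Pool.Agent.Lib.MP_0775d3_lc.Zf.PrD
import Pool.Agent.Lib.MP_0775d3_lc.Zf.Defs

/-! Project ZF: prime index. The ratios of a block. -/

set_option linter.unusedSectionVars false
set_option linter.unusedVariables false

namespace MP0775d3.Zf

open Matrix MP0775d3.Cf MP0775d3.Ox

variable {G H H' : Type} [Group G] [Group H] [Group H'] {ι : H →* G} {κ : H' →* G} {S : Sys H}
  {S' : Sys H'} (A : Ad ι S) (A' : Ad κ S') (w : Iw A.sys A'.sys) (z : S.I × S'.I)

private theorem pre_ne [Finite H] (S : Sys H) {M N : S.I → Type} [∀ k, Fintype (M k)]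
    [∀ k, Fintype (N k)] [∀ k, DecidableEq (M k)] [∀ k, DecidableEq (N k)]
    (X : Matrix (Σ k, S.D k × M k) (Σ k, S.D k × N k) ℂ)
    (X' : Matrix (Σ k, S.D k × N k) (Σ k, S.D k × M k) ℂ) (h : X * X' = 1)
    (hX : ∀ d, S.rep M d * X = X * S.rep N d) (i : S.I) (p : M i) : Nonempty (N i) := by
  by_contra hN
  rw [not_nonempty_iff] at hN
  obtain ⟨Y, _, _, h3⟩ := schur S X hX
  have a : S.D i := Classical.arbitrary _
  have h1 : (X * X') ⟨i, (a, p)⟩ ⟨i, (a, p)⟩ = 0 := by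
    rw [Matrix.mul_apply]
    refine Finset.sum_eq_zero ?_
    rintro ⟨k, ⟨c, ν⟩⟩ _
    by_cases hk : i = k
    · subst hk
      exact hN.elim ν
    · rw [h3 i k _ _ hk, zero_mul]
  rw [h, Matrix.one_apply_eq] at h1
  exact one_ne_zero h1

private theorem pre_blk {ι : H →* G} {S : Sys H} (A : Ad ι S) (l : A.I) (i : S.I)
    (p : A.P l i) (h1 : ∀ i', i' ≠ i → IsEmpty (A.P l i')) (h2 : Subsingleton (A.P l i)) :
    ∃ e : S.D i ≃ A.sys.D l, ∀ a, e a = (⟨i, (a, p)⟩ : Σ i', S.D i' × A.P l i') := by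
  refine ⟨Equiv.ofBijective (fun a => (⟨i, (a, p)⟩ : Σ i', S.D i' × A.P l i')) ⟨fun a b h => ?_, ?_⟩,
    fun a => rfl⟩
  · have h' := (Sigma.mk.inj_iff.1 h).2
    exact (Prod.mk.inj (eq_of_heq h')).1
  · rintro ⟨k, ⟨c, ν⟩⟩
    by_cases hk : k = i
    · subst hk
      exact ⟨c, by rw [Subsingleton.elim p ν]⟩
    · exact ((h1 k hk).false ν).elim

private theorem pre_res {ι : H →* G} {S : Sys H} (A : Ad ι S) (l : A.I) (i : S.I)
    (p : A.P l i) (e : S.D i ≃ A.sys.D l)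
    (he : ∀ a, e a = (⟨i, (a, p)⟩ : Σ i', S.D i' × A.P l i')) (h : H) :
    (A.sys.π l (ι h)).submatrix e e = S.π i h := by
  ext a b
  rw [Matrix.submatrix_apply, he, he]
  change A.ρ l (ι h) ⟨i, (a, p)⟩ ⟨i, (b, p)⟩ = _
  rw [A.res, Sys.rep_same, if_pos rfl]

/-- PROOF. `R x g a a' = A.ρ x.1 g ⟨i, (a, p)⟩ ⟨i, (a', p)⟩` with `p = x.2.1`, `R' x g b b'` the same with `A'`, `w.e x.1`, `q = x.2.2`,
`X x = MX x.1 1 p q`, `X' x b a = w.B' x.1 ⟨j, (b, q)⟩ ⟨i, (a, p)⟩`. By the hypotheses `⟨i, (a, p)⟩` are all elements of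
`Σ i', S.D i' × A.P x.1 i'` (and the same on the right), so these are the matrices `A.ρ x.1 g`, `A'.ρ (w.e x.1) g`, `w.B x.1`,
`w.B' x.1` themselves, reindexed by a bijection. `R x (ι h) = S.π i h` (`A.res`, `rep_same`), `sc` is `schur_one S`. Last part:
`R x = R y` makes the reindexed identity an intertwiner of `A.sys.π x.1` and `A.sys.π y.1`, so `x.1 = y.1` (`schur_ne` for `A.sys`),
and the multiplicities are subsingletons. -/
theorem exists_rat [Finite G] [Finite H] [Finite H']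
    (h1 : ∀ l (p : A.P l z.1) i', i' ≠ z.1 → IsEmpty (A.P l i'))
    (h2 : ∀ l, Subsingleton (A.P l z.1))
    (h1' : ∀ l (p : A'.P l z.2) j', j' ≠ z.2 → IsEmpty (A'.P l j'))
    (h2' : ∀ l, Subsingleton (A'.P l z.2)) :
    ∃ r : Rat ι κ (RW A A' w z) (S.D z.1) (S'.D z.2),
      (∀ x g, r.R x g * r.X x = MX A A' w x.1 g x.2.1 x.2.2) ∧
      (∀ x h, r.R x (ι h) = S.π z.1 h) ∧ (∀ x h, r.R' x (κ h) = S'.π z.2 h) ∧
      (∀ x g a a', r.R x g a a' = A.ρ x.1 g ⟨z.1, (a, x.2.1)⟩ ⟨z.1, (a', x.2.1)⟩) ∧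
      ∀ x y, r.R x = r.R y → x = y := by
  classical
  choose eL heL using fun x : RW A A' w z =>
    pre_blk A x.1 z.1 x.2.1 (h1 x.1 x.2.1) (h2 x.1)
  choose eR heR using fun x : RW A A' w z =>
    pre_blk A' (w.e x.1) z.2 x.2.2 (h1' (w.e x.1) x.2.2) (h2' (w.e x.1))
  have hr1 : ∀ x h, (A.sys.π x.1 (ι h)).submatrix (eL x) (eL x) = S.π z.1 h := fun x h =>
    pre_res A x.1 z.1 x.2.1 (eL x) (heL x) h
  have hr2 : ∀ x h, (A'.sys.π (w.e x.1) (κ h)).submatrix (eR x) (eR x) = S'.π z.2 h := fun x h =>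
    pre_res A' (w.e x.1) z.2 x.2.2 (eR x) (heR x) h
  refine ⟨{
    R := fun x g => (A.sys.π x.1 g).submatrix (eL x) (eL x)
    R' := fun x g => (A'.sys.π (w.e x.1) g).submatrix (eR x) (eR x)
    X := fun x => (w.B x.1).submatrix (eL x) (eR x)
    X' := fun x => (w.B' x.1).submatrix (eR x) (eL x)
    inv := fun x => ?_
    inv' := fun x => ?_
    one := fun x => ?_
    mul := fun x g h => ?_
    eq := fun x g => ?_
    res := fun x y h => ?_
    res' := fun x y h => ?_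
    sc := fun x M hM => ?_
    sc' := fun x M hM => ?_ }, ?_, ?_, ?_, ?_, ?_⟩
  · rw [Matrix.submatrix_mul_equiv, w.inv, Matrix.submatrix_one_equiv]
  · rw [Matrix.submatrix_mul_equiv, w.inv', Matrix.submatrix_one_equiv]
  · rw [A.sys.one, Matrix.submatrix_one_equiv]
  · rw [A.sys.mul, ← Matrix.submatrix_mul_equiv _ _ (eL x) (eL x) (eL x)]
  · rw [Matrix.submatrix_mul_equiv, w.eq, ← Matrix.submatrix_mul_equiv _ _ (eL x) (eR x) (eR x)]
  · rw [hr1, hr1]
  · rw [hr2, hr2]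
  · refine schur_one S z.1 M fun h => ?_
    have h3 := hM h
    rwa [hr1] at h3
  · refine schur_one S' z.2 M fun h => ?_
    have h3 := hM h
    rwa [hr2] at h3
  · intro x g
    change (A.sys.π x.1 g).submatrix (eL x) (eL x) * (w.B x.1).submatrix (eL x) (eR x) = _
    rw [Matrix.submatrix_mul_equiv]
    ext a b
    rw [Matrix.submatrix_apply, heL, heR]
    rfl
  · exact hr1
  · exact hr2
  · intro x g a a'
    change (A.sys.π x.1 g) (eL x a) (eL x a') = _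
    rw [heL, heL]
    rfl
  · intro x y hxy
    have h3 : ∀ g, (A.sys.π x.1 g).submatrix (eL x) (eL x) =
        (A.sys.π y.1 g).submatrix (eL y) (eL y) := fun g => congrFun hxy g
    obtain ⟨l, p, q⟩ := x
    obtain ⟨l', p', q'⟩ := y
    by_cases hl : l = l'
    · subst hl
      have h4 := h2 l
      have h5 := h2' (w.e l)
      rw [Subsingleton.elim p p', Subsingleton.elim q q']
    · exfalso
      set e := eL ⟨l, p, q⟩ with he
      set e' := eL ⟨l', p', q'⟩ with he'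
      have h6 : ((1 : Matrix (S.D z.1) (S.D z.1) ℂ).submatrix e.symm e'.symm) = 0 := by
        refine schur_ne A.sys hl _ fun g => ?_
        have h7 := h3 g
        have h8 : A.sys.π l g = ((A.sys.π l g).submatrix e e).submatrix e.symm e.symm := by
          rw [Matrix.submatrix_submatrix, Equiv.self_comp_symm, Matrix.submatrix_id_id]
        have h9 : A.sys.π l' g = ((A.sys.π l' g).submatrix e' e').submatrix e'.symm e'.symm := by
          rw [Matrix.submatrix_submatrix, Equiv.self_comp_symm, Matrix.submatrix_id_id]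
        rw [h8, h9, Matrix.submatrix_mul_equiv, Matrix.submatrix_mul_equiv, Matrix.mul_one,
          Matrix.one_mul]
        exact congrArg (fun M : Matrix (S.D z.1) (S.D z.1) ℂ => M.submatrix e.symm e'.symm) h7
      have a : S.D z.1 := Classical.arbitrary _
      have h7 := congrFun (congrFun h6 (e a)) (e' a)
      rw [Matrix.submatrix_apply, Equiv.symm_apply_apply, Equiv.symm_apply_apply,
        Matrix.one_apply_eq, Matrix.zero_apply] at h7
      exact one_ne_zero h7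

/-- All powers occur. PROOF. `match_twist` for `A.sys`, the character `χ₁ ^ m` and `l₀ = x₀.1`: `l'`, `V` with
`χ₁ g ^ m • (A.sys.π l₀ g * V) = V * A.sys.π l' g`. On the range of `ι` (`χ₁ = 1`): `S.rep (P l₀) h * V = V * S.rep (P l') h`, so by `schur`
`V` is block diagonal, and as `V` is invertible and `P l₀ z.1` is not empty, `P l' z.1` is not empty. Identify the rows of
`A.sys.D l₀` with `S.D z.1` (`h1`, `h2`), `N₀` the matrix `N` on them: `W = N' ^ m * V` satisfies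
`χ g ^ m • (A.sys.π l₀ g * W) = W * A.sys.π l' g` (`rel_pow`), so `U = w.B' l₀ * W * w.B l'` satisfies
`χ g ^ m • (A'.sys.π (w.e l₀) g * U) = U * A'.sys.π (w.e l') g`; on the range of `κ` as before: `P' (w.e l') z.2` is not empty. So there is
`x = ⟨l', (p, q)⟩`. On the block `z.1` the matrix `V` commutes with `S.π z.1 h` (`schur`): a scalar, not zero; so
`R x g = χ₁ g ^ m • R x₀ g`. -/
theorem rat_full [Finite G] [Finite H] [Finite H']
    (h1 : ∀ l (p : A.P l z.1) i', i' ≠ z.1 → IsEmpty (A.P l i'))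
    (h2 : ∀ l, Subsingleton (A.P l z.1))
    (r : Rat ι κ (RW A A' w z) (S.D z.1) (S'.D z.2))
    (hr : ∀ x g a a', r.R x g a a' = A.ρ x.1 g ⟨z.1, (a, x.2.1)⟩ ⟨z.1, (a', x.2.1)⟩)
    (x₀ : RW A A' w z) (χ₁ χ : G → ℂ) (N N' : Matrix (S.D z.1) (S.D z.1) ℂ) (e1 : χ₁ 1 = 1)
    (e2 : ∀ g h, χ₁ (g * h) = χ₁ g * χ₁ h) (e3 : ∀ h, χ₁ (ι h) = 1) (e4 : ∀ h, χ (κ h) = 1)
    (e5 : N * N' = 1) (e6 : N' * N = 1)
    (e7 : ∀ g, χ₁ g • (r.R x₀ g * N) = χ g • (N * r.R x₀ g)) (m : ℕ) :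
    ∃ x, ∀ g, r.R x g = χ₁ g ^ m • r.R x₀ g := by
  classical
  obtain ⟨l₀, p₀, q₀⟩ := x₀
  obtain ⟨l', V, V', hV, hV', hVg⟩ := match_twist A.sys (fun g => χ₁ g ^ m) (by rw [e1, one_pow])
    (fun g h => by rw [e2, mul_pow]) l₀
  -- the left multiplicity
  have hVg' : ∀ g, χ₁ g ^ m • (A.sys.π l₀ g * V) = V * A.sys.π l' g := hVg
  have hS : ∀ h, A.sys.π l₀ (ι h) * V = V * A.sys.π l' (ι h) := by
    intro h
    have h3 := hVg' (ι h)
    rwa [e3, one_pow, one_smul] at h3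
  obtain ⟨p'⟩ : Nonempty (A.P l' z.1) := by
    refine pre_ne S V V' hV (fun h => ?_) z.1 p₀
    have h3 := hS h
    have h4 : A.sys.π l₀ (ι h) = S.rep (A.P l₀) h := A.res l₀ h
    have h5 : A.sys.π l' (ι h) = S.rep (A.P l') h := A.res l' h
    rw [h4, h5] at h3
    exact h3
  obtain ⟨e, he⟩ := pre_blk A l₀ z.1 p₀ (h1 l₀ p₀) (h2 l₀)
  obtain ⟨e', he'⟩ := pre_blk A l' z.1 p' (h1 l' p') (h2 l')
  have hR0 : ∀ g, (A.sys.π l₀ g).submatrix e e = r.R ⟨l₀, p₀, q₀⟩ g := by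
    intro g
    ext a a'
    rw [Matrix.submatrix_apply, he, he, hr]
    rfl
  have hR0' : ∀ g, A.sys.π l₀ g = (r.R ⟨l₀, p₀, q₀⟩ g).submatrix e.symm e.symm := by
    intro g
    rw [← hR0, Matrix.submatrix_submatrix, Equiv.self_comp_symm, Matrix.submatrix_id_id]
  -- powers
  have hNN : N ^ m * N' ^ m = 1 := by
    have h3 : Commute N N' := by
      rw [Commute, SemiconjBy, e5, e6]
    rw [← h3.mul_pow, e5, one_pow]
  have hNN' : N' ^ m * N ^ m = 1 := by
    have h3 : Commute N' N := by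
      rw [Commute, SemiconjBy, e5, e6]
    rw [← h3.mul_pow, e6, one_pow]
  have hpow : ∀ g, χ g ^ m • (r.R ⟨l₀, p₀, q₀⟩ g * N' ^ m) =
      χ₁ g ^ m • (N' ^ m * r.R ⟨l₀, p₀, q₀⟩ g) := by
    intro g
    have h3 := rel_pow e7 m g
    have h4 := congrArg (fun M => N' ^ m * M * N' ^ m) h3
    simp only [Matrix.mul_smul, Matrix.smul_mul] at h4
    rw [← Matrix.mul_assoc (N' ^ m) (N ^ m), hNN', Matrix.one_mul, Matrix.mul_assoc (N' ^ m) (_ * _),
      Matrix.mul_assoc _ (N ^ m) (N' ^ m), hNN, Matrix.mul_one] at h4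
    exact h4.symm
  -- the right multiplicity
  set N₁ : Matrix (A.sys.D l₀) (A.sys.D l₀) ℂ := (N' ^ m).submatrix e.symm e.symm with hN1
  set N₂ : Matrix (A.sys.D l₀) (A.sys.D l₀) ℂ := (N ^ m).submatrix e.symm e.symm with hN2
  have hN12 : N₁ * N₂ = 1 := by
    rw [hN1, hN2, Matrix.submatrix_mul_equiv, hNN', Matrix.submatrix_one_equiv]
  have hW : ∀ g, χ g ^ m • (A.sys.π l₀ g * (N₁ * V)) = N₁ * V * A.sys.π l' g := by
    intro g
    have h3 : χ g ^ m • (A.sys.π l₀ g * N₁) = χ₁ g ^ m • (N₁ * A.sys.π l₀ g) := by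
      rw [hR0' g, hN1, Matrix.submatrix_mul_equiv, Matrix.submatrix_mul_equiv]
      have h4 := congrArg (fun M : Matrix (S.D z.1) (S.D z.1) ℂ => M.submatrix e.symm e.symm)
        (hpow g)
      exact h4
    rw [← Matrix.mul_assoc, ← Matrix.smul_mul, h3, Matrix.smul_mul, Matrix.mul_assoc N₁,
      ← Matrix.mul_smul, hVg', Matrix.mul_assoc]
  have hB' : ∀ l g, w.B' l * A.sys.π l g = A'.sys.π (w.e l) g * w.B' l := by
    intro l g
    calc w.B' l * A.sys.π l g = w.B' l * (A.sys.π l g * w.B l) * w.B' l := by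
          rw [Matrix.mul_assoc, Matrix.mul_assoc (A.sys.π l g), w.inv, Matrix.mul_one]
      _ = A'.sys.π (w.e l) g * w.B' l := by
          rw [w.eq, ← Matrix.mul_assoc (w.B' l), w.inv', Matrix.one_mul]
  have hU : ∀ g, χ g ^ m • (A'.sys.π (w.e l₀) g * (w.B' l₀ * (N₁ * V) * w.B l')) =
      w.B' l₀ * (N₁ * V) * w.B l' * A'.sys.π (w.e l') g := by
    intro g
    rw [← Matrix.mul_assoc, ← Matrix.mul_assoc, ← hB', Matrix.mul_assoc (w.B' l₀),
      ← Matrix.smul_mul, ← Matrix.mul_smul, hW, Matrix.mul_assoc _ (w.B l'), ← w.eq]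
    simp only [Matrix.mul_assoc]
  obtain ⟨q'⟩ : Nonempty (A'.P (w.e l') z.2) := by
    refine pre_ne S' (w.B' l₀ * (N₁ * V) * w.B l') (w.B' l' * (V' * N₂) * w.B l₀) ?_ (fun h => ?_)
      z.2 q₀
    · have h3 : w.B' l₀ * (N₁ * V) * w.B l' * (w.B' l' * (V' * N₂) * w.B l₀) =
          w.B' l₀ * (N₁ * (V * ((w.B l' * w.B' l') * V')) * N₂) * w.B l₀ := by
        simp only [Matrix.mul_assoc]
      have h4 : w.B' l₀ * (N₁ * V) * w.B l' * (w.B' l' * (V' * N₂) * w.B l₀) = 1 := by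
        rw [h3, w.inv, Matrix.one_mul, hV, Matrix.mul_one, hN12, Matrix.mul_one, w.inv']
      exact h4
    · have h3 := hU (κ h)
      have h4 : A'.sys.π (w.e l₀) (κ h) = S'.rep (A'.P (w.e l₀)) h := A'.res (w.e l₀) h
      have h5 : A'.sys.π (w.e l') (κ h) = S'.rep (A'.P (w.e l')) h := A'.res (w.e l') h
      rw [e4, one_pow, one_smul, h4, h5] at h3
      exact h3
  refine ⟨⟨l', (p', q')⟩, fun g => ?_⟩
  have hR1 : ∀ g, (A.sys.π l' g).submatrix e' e' = r.R ⟨l', p', q'⟩ g := by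
    intro g
    ext a a'
    rw [Matrix.submatrix_apply, he', he', hr]
    rfl
  -- the scalar
  set V₁ : Matrix (S.D z.1) (S.D z.1) ℂ := V.submatrix e e' with hV1
  have hV2 : V₁ * V'.submatrix e' e = 1 := by
    rw [hV1, Matrix.submatrix_mul_equiv, hV, Matrix.submatrix_one_equiv]
  have hV3 : ∀ g, χ₁ g ^ m • (r.R ⟨l₀, p₀, q₀⟩ g * V₁) = V₁ * r.R ⟨l', p', q'⟩ g := by
    intro g
    rw [← hR0, ← hR1, hV1, Matrix.submatrix_mul_equiv, Matrix.submatrix_mul_equiv, ← hVg']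
    rfl
  obtain ⟨c, hc⟩ : ∃ c : ℂ, V₁ = c • 1 := by
    refine schur_one S z.1 V₁ fun h => ?_
    have h3 := hV3 (ι h)
    rw [e3, one_pow, one_smul, ← hR0, ← hR1, pre_res A l₀ z.1 p₀ e he,
      pre_res A l' z.1 p' e' he'] at h3
    exact h3
  have hc0 : c ≠ 0 := by
    rintro rfl
    rw [hc, zero_smul, Matrix.zero_mul] at hV2
    have a : S.D z.1 := Classical.arbitrary _
    have h3 := congrFun (congrFun hV2 a) a
    rw [Matrix.one_apply_eq, Matrix.zero_apply] at h3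
    exact zero_ne_one h3
  have h3 := hV3 g
  rw [hc, Matrix.mul_smul, Matrix.smul_mul, Matrix.mul_one, Matrix.one_mul, smul_comm] at h3
  exact (smul_right_injective _ hc0 h3).symm

end MP0775d3.Zf
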