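import Pool.Agent.Lib.MP_0775d3_lc.Zf.Defs
import Pool.Agent.Lib.MP_0775d3_lc.Cf.FbA

/-! Project ZF: prime index. Coefficients and blocks. -/

set_option linter.unusedSectionVars false
set_option linter.unusedVariables false

namespace MP0775d3.Zf

open Matrix MP0775d3.Cf MP0775d3.Ox

/-- PROOF. `M = b.B' i * N * b.B i` commutes with all `T.rep e` (`Br.eq`, `Br.eq'`); by `schur` and `|b.M i k| ≤ 1` it is diagonal, with
the entry `n k` at all `⟨k, (c, μ)⟩` (`n k = 0` if `b.M i k` is empty; choose any). `M ^ m = b.B' i * N ^ m * b.B i` (`inv`) is the diagonal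
matrix of the `n k ^ m`, so `M ^ p = c • 1` gives `n k ^ p = c`; and `b.B' i * (N ^ m * Q) * C = M ^ m * (b.B' i * Q * C)`. -/
theorem br_pow {D H : Type} [Group D] [Group H] [Finite D] {u : D →* H} {S : Sys H} {T : Sys D}
    (b : Br u S T) (i : S.I) (hM : ∀ k, Fintype.card (b.M i k) ≤ 1)
    (N : Matrix (S.D i) (S.D i) ℂ) (hN : ∀ e, S.π i (u e) * N = N * S.π i (u e)) (p : ℕ) (c : ℂ)
    (hc : N ^ p = c • 1) : ∃ n : T.I → ℂ, (∀ k, b.M i k → n k ^ p = c) ∧
      ∀ (m : ℕ) {J : Type} (Q : Matrix (S.D i) J ℂ) (k : T.I) (a : T.D k) (μ : b.M i k) (y : J),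
        (b.B' i * (N ^ m * Q)) ⟨k, (a, μ)⟩ y = n k ^ m * (b.B' i * Q) ⟨k, (a, μ)⟩ y := by
  classical
  have hsub : ∀ k, Subsingleton (b.M i k) := fun k => Fintype.card_le_one_iff_subsingleton.mp (hM k)
  have hrep : ∀ e, T.rep (b.M i) e * b.B' i = b.B' i * S.π i (u e) := by
    intro e
    calc T.rep (b.M i) e * b.B' i = b.B' i * b.B i * T.rep (b.M i) e * b.B' i := by
          rw [b.inv', Matrix.one_mul]
      _ = b.B' i * (b.B i * T.rep (b.M i) e) * b.B' i := by rw [Matrix.mul_assoc (b.B' i)]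
      _ = b.B' i * (S.π i (u e) * b.B i) * b.B' i := by rw [b.eq]
      _ = b.B' i * S.π i (u e) * (b.B i * b.B' i) := by simp only [Matrix.mul_assoc]
      _ = b.B' i * S.π i (u e) := by rw [b.inv, Matrix.mul_one]
  have hcomm : ∀ e, T.rep (b.M i) e * (b.B' i * N * b.B i) =
      (b.B' i * N * b.B i) * T.rep (b.M i) e := by
    intro e
    calc T.rep (b.M i) e * (b.B' i * N * b.B i) = T.rep (b.M i) e * b.B' i * N * b.B i := by
          simp only [Matrix.mul_assoc]
      _ = b.B' i * (S.π i (u e) * N) * b.B i := by rw [hrep]; simp only [Matrix.mul_assoc]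
      _ = b.B' i * N * (S.π i (u e) * b.B i) := by rw [hN]; simp only [Matrix.mul_assoc]
      _ = (b.B' i * N * b.B i) * T.rep (b.M i) e := by rw [b.eq]; simp only [Matrix.mul_assoc]
  obtain ⟨Y, hY1, hY2, hY3⟩ := schur T (b.B' i * N * b.B i) hcomm
  have hpow : ∀ m : ℕ, (b.B' i * N * b.B i) ^ m * b.B' i = b.B' i * N ^ m := by
    intro m
    induction m with
    | zero => rw [pow_zero, pow_zero, Matrix.one_mul, Matrix.mul_one]
    | succ m ih =>
      calc (b.B' i * N * b.B i) ^ (m + 1) * b.B' i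
          = (b.B' i * N * b.B i) ^ m * (b.B' i * N * (b.B i * b.B' i)) := by
            rw [pow_succ]; simp only [Matrix.mul_assoc]
        _ = (b.B' i * N * b.B i) ^ m * b.B' i * N := by
            rw [b.inv, Matrix.mul_one]; simp only [Matrix.mul_assoc]
        _ = b.B' i * N ^ (m + 1) := by rw [ih, pow_succ, Matrix.mul_assoc]
  obtain ⟨n, hn⟩ : ∃ n : T.I → ℂ, ∀ k μ, Y k μ μ = n k := by
    refine ⟨fun k => if h : Nonempty (b.M i k) then Y k h.some h.some else 0, fun k μ => ?_⟩
    have h0 : Nonempty (b.M i k) := ⟨μ⟩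
    haveI := hsub k
    dsimp only
    rw [dif_pos h0, Subsingleton.elim h0.some μ]
  have hdiag : b.B' i * N * b.B i = Matrix.diagonal fun z => n z.1 := by
    ext z z'
    obtain ⟨k, c, μ⟩ := z
    obtain ⟨k', c', μ'⟩ := z'
    by_cases hk : k = k'
    · subst hk
      haveI := hsub k
      obtain rfl : μ = μ' := Subsingleton.elim _ _
      by_cases hcc : c = c'
      · subst hcc
        rw [hY1, hn, Matrix.diagonal_apply_eq]
      · rw [hY2 k c c' μ μ hcc, Matrix.diagonal_apply_ne]
        intro h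
        exact hcc (congrArg Prod.fst (eq_of_heq (Sigma.mk.inj_iff.mp h).2))
    · rw [hY3 k k' _ _ hk, Matrix.diagonal_apply_ne]
      intro h
      exact hk (congrArg Sigma.fst h)
  have hdp : ∀ m : ℕ, (b.B' i * N * b.B i) ^ m = Matrix.diagonal fun z => n z.1 ^ m := by
    intro m
    rw [hdiag, Matrix.diagonal_pow]
    rfl
  refine ⟨n, fun k μ => ?_, fun m J Q k a μ y => ?_⟩
  · have h1 : (b.B' i * N * b.B i) ^ p = c • 1 := by
      calc (b.B' i * N * b.B i) ^ p = (b.B' i * N * b.B i) ^ p * (b.B' i * b.B i) := by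
            rw [b.inv', Matrix.mul_one]
        _ = b.B' i * N ^ p * b.B i := by rw [← Matrix.mul_assoc, hpow]
        _ = c • 1 := by
            rw [hc, Matrix.mul_smul, Matrix.mul_one, Matrix.smul_mul, b.inv']
    have h2 := congrFun (congrFun ((hdp p).symm.trans h1) ⟨k, (Classical.arbitrary (T.D k), μ)⟩)
      ⟨k, (Classical.arbitrary (T.D k), μ)⟩
    rw [Matrix.diagonal_apply_eq, Matrix.smul_apply, Matrix.one_apply_eq, smul_eq_mul, mul_one] at h2
    exact h2
  · rw [← Matrix.mul_assoc, ← hpow, hdp, Matrix.mul_assoc, Matrix.diagonal_mul]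

/-- PROOF. `μ` with `μ ^ p = c` (`IsAlgClosed.exists_pow_nat_eq`), `ω k = dd k / μ`, `ω k ^ p = 1`. `Y` is square (`hcard`) with
independent rows, hence with independent columns, so no two columns are proportional and no column is zero: `ω` is injective.
`hFB` for `X = Kw`, `χ k v = ω k ^ v.val`; `Y x k` is that matrix at the row `(m x : ZMod p)` (injective in `x` by `hmi`, `hm`), scaled by
`sc x * μ ^ m x` and `Y x₀ k`: `Bx.submatrix`, `Bx.scale`. As `m` is a bijection to `{0, ..., p - 1}`, `|Rw| = p`. (Compare the end of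
the proof of `Ox.pY_stable`.) -/
theorem dft_block {Rw Kw : Type} [Fintype Rw] [DecidableEq Rw] [Fintype Kw] [DecidableEq Kw]
    (Y : Matrix Rw Kw ℂ) {p : ℕ} (hp : p.Prime) {K s : ℝ} {t : ℕ} (ht : 1 ≤ t)
    (hFB : FB (K * p) s t (Multiplicative (ZMod p))) (m : Rw → ℕ) (hm : ∀ x, m x < p)
    (hmi : Function.Injective m) (hms : ∀ k < p, ∃ x, m x = k) (sc : Rw → ℂ) (x₀ : Rw)
    (dd : Kw → ℂ) (c : ℂ) (hc : c ≠ 0) (hdd : ∀ k, dd k ^ p = c)
    (hY : ∀ x k, Y x k = sc x * dd k ^ m x * Y x₀ k)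
    (hcard : Fintype.card Rw = Fintype.card Kw)
    (hrows : ∀ v : Rw → ℂ, (∀ k, ∑ x, v x * Y x k = 0) → v = 0) :
    Bx (K * Fintype.card Rw) s t Y := by
  classical
  haveI : NeZero p := ⟨hp.ne_zero⟩
  obtain ⟨μ, hμ⟩ := IsAlgClosed.exists_pow_nat_eq c hp.pos
  have hμ0 : μ ≠ 0 := by
    rintro rfl
    rw [zero_pow hp.ne_zero] at hμ
    exact hc hμ.symm
  have hcardp : Fintype.card Rw = p := by
    have h1 : Function.Bijective (fun x : Rw => (⟨m x, hm x⟩ : Fin p)) := by
      refine ⟨fun x x' h => hmi (congrArg Fin.val h), fun k => ?_⟩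
      obtain ⟨x, hx⟩ := hms k k.2
      exact ⟨x, Fin.ext hx⟩
    rw [Fintype.card_of_bijective h1, Fintype.card_fin]
  have hω : ∀ k, (dd k / μ) ^ p = 1 := fun k => by
    rw [div_pow, hdd, hμ, div_self hc]
  -- the columns
  have hcols : ∀ v : Kw → ℂ, (∀ x, ∑ k, Y x k * v k = 0) → v = 0 := by
    intro v hv
    let e : Rw ≃ Kw := Fintype.equivOfCardEq hcard
    have hdet : (Y.submatrix id e).det ≠ 0 := by
      intro h0
      obtain ⟨w, hw0, hw⟩ := Matrix.exists_vecMul_eq_zero_iff.mpr h0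
      refine hw0 (hrows w fun k => ?_)
      have h1 := congrFun hw (e.symm k)
      simp only [Matrix.vecMul, dotProduct, Matrix.submatrix_apply, id_eq, e.apply_symm_apply,
        Pi.zero_apply] at h1
      exact h1
    by_contra hne
    apply hdet
    refine Matrix.exists_mulVec_eq_zero_iff.mp ⟨v ∘ e, ?_, ?_⟩
    · intro h0
      apply hne
      funext k
      have h1 := congrFun h0 (e.symm k)
      simpa using h1
    · funext x
      have h1 := hv x
      rw [← e.sum_comp] at h1
      simpa only [Matrix.mulVec, dotProduct, Matrix.submatrix_apply, id_eq, Function.comp_apply,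
        Pi.zero_apply] using h1
  have hsingle : ∀ (x : Rw) (k : Kw) (a : ℂ), ∑ k', Y x k' * (Pi.single k a : Kw → ℂ) k' = Y x k * a := by
    intro x k a
    rw [Finset.sum_eq_single k, Pi.single_eq_same]
    · intro k' _ hk
      rw [Pi.single_eq_of_ne hk, mul_zero]
    · intro h0
      exact absurd (Finset.mem_univ _) h0
  have hY0 : ∀ k, Y x₀ k ≠ 0 := by
    intro k h0
    have h1 := hcols (Pi.single k 1) fun x => by
      rw [hsingle, hY, h0, mul_zero, zero_mul]
    have h2 := congrFun h1 k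
    rw [Pi.single_eq_same] at h2
    exact one_ne_zero h2
  have hinj : Function.Injective fun k => dd k / μ := by
    intro k k' hk
    by_contra hne
    have hd : dd k = dd k' := by
      have h1 : dd k / μ = dd k' / μ := hk
      field_simp at h1
      exact h1
    have h1 := hcols (Pi.single k (Y x₀ k') - Pi.single k' (Y x₀ k)) fun x => by
      simp only [Pi.sub_apply, mul_sub, Finset.sum_sub_distrib]
      rw [hsingle, hsingle, hY x k, hY x k', hd]
      ring
    have h2 := congrFun h1 k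
    rw [Pi.sub_apply, Pi.single_eq_same, Pi.single_eq_of_ne hne, sub_zero, Pi.zero_apply] at h2
    exact hY0 k' h2
  have hpow : ∀ k (n : ℕ), (dd k / μ) ^ (n % p) = (dd k / μ) ^ n := fun k n =>
    (pow_eq_pow_mod n (hω k)).symm
  have hB := hFB Kw (fun k v => (dd k / μ) ^ (Multiplicative.toAdd v).val) (fun k => by
      rw [toAdd_one, ZMod.val_zero, pow_zero]) (fun k v w => by
      rw [toAdd_mul, ZMod.val_add, hpow, pow_add]) (fun k k' hk => by
      apply hinj
      have h3 := congrFun hk (Multiplicative.ofAdd 1)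
      dsimp only at h3
      rw [toAdd_ofAdd, ZMod.val_one'' hp.ne_one, pow_one, pow_one] at h3
      exact h3)
  obtain ⟨g, hg⟩ : ∃ g : Rw → Multiplicative (ZMod p),
      g = fun x => Multiplicative.ofAdd ((m x : ℕ) : ZMod p) := ⟨_, rfl⟩
  have hval : ∀ x, (Multiplicative.toAdd (g x)).val = m x := by
    intro x
    rw [hg, toAdd_ofAdd, ZMod.val_natCast_of_lt (hm x)]
  have hginj : Function.Injective g := by
    intro x x' hx
    apply hmi
    rw [← hval x, ← hval x', hx]
  have hB2 := (hB.submatrix (f := g) (g := id) hginj Function.injective_id).scale ht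
    (fun x => sc x * μ ^ m x) (fun k => Y x₀ k)
  have hfin : Y = Matrix.of fun (x : Rw) (k : Kw) => (sc x * μ ^ m x) *
      ((Matrix.of fun (v : Multiplicative (ZMod p)) (k : Kw) =>
        (dd k / μ) ^ (Multiplicative.toAdd v).val).submatrix g id) x k * Y x₀ k := by
    ext x k
    rw [Matrix.of_apply, Matrix.submatrix_apply, Matrix.of_apply, hval, hY x k, id_eq, div_pow]
    field_simp
  rw [hcardp, hfin]
  exact hB2

end MP0775d3.Zf
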