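import Pool.Agent.Lib.MP_0775d3_lc.Zf.PrB
import Pool.Agent.Lib.MP_0775d3_lc.Zf.PrE
import Pool.Agent.Lib.MP_0775d3_lc.Zf.PrF
import Pool.Agent.Lib.MP_0775d3_lc.Zf.Num

/-! Project ZF: prime index. The blocks. -/

set_option linter.unusedSectionVars false
set_option linter.unusedVariables false

namespace MP0775d3.Zf

open Matrix MP0775d3.Cf MP0775d3.Ox

variable {G H H' : Type} [Group G] [Group H] [Group H'] {ι : H →* G} {κ : H' →* G} {S : Sys H}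
  {S' : Sys H'} (A : Ad ι S) (A' : Ad κ S') (w : Iw A.sys A'.sys) (d : Dd ι κ)
  (T : ∀ y, Sys (d.D y)) (bu : ∀ y, Br (d.u y) S (T y)) (bv : ∀ y, Br (d.v y) S' (T y))

/-- PROOF. All `A.P l i`, `A'.P l j` are subsingletons (`mult_le`), so two different rows `⟨l, _⟩`, `⟨l', _⟩` of `RW z` have `l ≠ l'`, and
`w.e l ≠ w.e l'` (`w.he`); `irr_of_two` on both sides gives the hypotheses of `exists_rat`. `rat_pow` with two rows `x₀ ≠ x₁`
(`R x₀ ≠ R x₁` by the last part of `exists_rat`), `m x`, `sc x` by choice. `m` is injective: `m x = m y` gives `R x = R y`. It takes all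
values `k < p`, `p = κ.range.index`: `rat_full` gives `x` with `R x = χ₁ ^ k • R x₀ = χ₁ ^ (m x) • R x₀`, so `χ₁ ^ k = χ₁ ^ (m x)` (`R x₀ g ≠ 0`);
`χ₁` is not trivial (`R x₁ ≠ R x₀`) and `χ₁ ^ p = 1`, `p` prime: `k = m x` (if `χ₁ g ≠ 1` it is a primitive `p`-th root of unity).
`N` commutes with `S.π z.1 (u e)`: `ι (u e) = x * κ (v e) * x⁻¹ = κ h'` by normality, and `rat_pow` (relation) at this element
(`χ₁ = 1` as it is `ι (u e)`, `χ = 1`). `br_pow` for every `bu y` (`|M z.1 k| ≤ 1`: `u_range`, `mult_le` and `mult_top` for `brAd (bu y)`).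
`dd ⟨y, ⟨k, _⟩⟩ = χ (d.x y) * n y k`, `dd ^ p = c` (`char_one`). The relation: by `hY2` and `exists_rat`,
`Y z x ⟨y, ⟨k, (μ, ν)⟩⟩ = (B' * (R x (d.x y) * X x) * B) ⟨k, (c, μ)⟩ ⟨k, (c, ν)⟩` and `R x g * X x = χ₁ g ^ m • R x₀ g * (s • N ^ m * X x₀)
= s * χ g ^ m • N ^ m * (R x₀ g * X x₀)` (`rel_pow`). `dft_block` with `hrows` from `Tw.rows`, `hcard` from `rw_kw`;
`Bx.tensor_one`; `rw_kw`. -/
theorem pp_block [Finite G] [Finite H] [Finite H'] (hι : Function.Injective ι)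
    (hκ : Function.Injective κ) (hN : ι.range.Normal) (hp : ι.range.index.Prime)
    (hN' : κ.range.Normal) (hp' : κ.range.index.Prime) {K s : ℝ} {t : ℕ} (ht : 1 ≤ t)
    (hFB : FB (K * κ.range.index) s t (Multiplicative (ZMod κ.range.index)))
    {Y : ∀ z : S.I × S'.I, Matrix (RW A A' w z) (KW d T bu bv z) ℂ}
    (hY : Tw A A' w (WW d T bu bv) Y) (hY2 : ∀ (z : S.I × S'.I) (l : A.I) (p : A.P l z.1)
      (q : A'.P (w.e l) z.2) (y : d.X) (k : (T y).I) (μ : (bu y).M z.1 k) (ν : (bv y).M z.2 k)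
      (c : (T y).D k), ((bu y).B' z.1 * MX A A' w l (d.x y) p q * (bv y).B z.2) ⟨k, (c, μ)⟩
        ⟨k, (c, ν)⟩ = Y z ⟨l, (p, q)⟩ ⟨y, ⟨k, (μ, ν)⟩⟩) (z : S.I × S'.I) :
    Fintype.card (RW A A' w z) ≤ 1 ∨
      Bx (K * (Fintype.card (KW d T bu bv z) * Fintype.card (S.D z.1 × S'.D z.2))) s t
        (Matrix.kroneckerMap (· * ·) (Y z)
          (1 : Matrix (S.D z.1 × S'.D z.2) (S.D z.1 × S'.D z.2) ℂ)) := by
  classical
  by_cases hle : Fintype.card (RW A A' w z) ≤ 1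
  · exact Or.inl hle
  right
  have hlt : 1 < Fintype.card (RW A A' w z) := not_le.mp hle
  obtain ⟨x₀, x₁, hx⟩ := Fintype.one_lt_card_iff.mp hlt
  have hsub : ∀ l, Subsingleton (A.P l z.1) := fun l =>
    Fintype.card_le_one_iff_subsingleton.mp (mult_le hι hN hp A l z.1)
  have hsub' : ∀ l, Subsingleton (A'.P l z.2) := fun l =>
    Fintype.card_le_one_iff_subsingleton.mp (mult_le hκ hN' hp' A' l z.2)
  have hl : x₀.1 ≠ x₁.1 := by
    intro h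
    apply hx
    obtain ⟨l, p, q⟩ := x₀
    obtain ⟨l', p', q'⟩ := x₁
    change l = l' at h
    subst h
    have h1 : p = p' := (hsub l).elim p p'
    have h2 : q = q' := (hsub' (w.e l)).elim q q'
    rw [h1, h2]
  have hl' : w.e x₀.1 ≠ w.e x₁.1 := fun h => hl (w.he.1 h)
  have h1 : ∀ l (p : A.P l z.1) i', i' ≠ z.1 → IsEmpty (A.P l i') := fun l p i' hi =>
    irr_of_two hι hN hp A hl x₀.2.1 x₁.2.1 l p i' hi
  have h1' : ∀ l (p : A'.P l z.2) j', j' ≠ z.2 → IsEmpty (A'.P l j') := fun l p j' hj =>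
    irr_of_two hκ hN' hp' A' hl' x₀.2.2 x₁.2.2 l p j' hj
  obtain ⟨r, hr1, hr2, hr3, hr4, hr5⟩ := exists_rat A A' w z h1 hsub h1' hsub'
  have hne : r.R x₀ ≠ r.R x₁ := fun h => hx (hr5 x₀ x₁ h)
  obtain ⟨χ₁, χ, N, N', c, e1, e2, e3, e4, e5, e6, e7, e8, e9, e10, e11, hc, e12, e13⟩ :=
    rat_pow r hκ hN hN' hp' x₀ x₁ hne
  choose m hm sc hsc hm1 hm2 using e13
  have hinv : ∀ g, r.R x₀ g ≠ 0 := by
    intro g h
    have h2 : r.R x₀ g * r.R x₀ g⁻¹ = 1 := by rw [← r.mul, mul_inv_cancel, r.one]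
    rw [h, Matrix.zero_mul] at h2
    have a : S.D z.1 := Classical.arbitrary _
    have h3 := congrFun (congrFun h2 a) a
    rw [Matrix.zero_apply, Matrix.one_apply_eq] at h3
    exact zero_ne_one h3
  have hmi : Function.Injective m := by
    intro x y hxy
    apply hr5
    funext g
    rw [hm1 x g, hm1 y g, hxy]
  obtain ⟨g₁, hg₁⟩ : ∃ g, χ₁ g ≠ 1 := by
    by_contra hcon
    push Not at hcon
    apply hne
    funext g
    rw [e10 g, hcon g, one_smul]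
  have hprim : IsPrimitiveRoot (χ₁ g₁) κ.range.index := by
    have _ : Fact κ.range.index.Prime := ⟨hp'⟩
    have h2 : orderOf (χ₁ g₁) = κ.range.index := orderOf_eq_prime (e11 g₁) hg₁
    have h3 := IsPrimitiveRoot.orderOf (χ₁ g₁)
    rwa [h2] at h3
  have hms : ∀ k < κ.range.index, ∃ x, m x = k := by
    intro k hk
    obtain ⟨x, hx'⟩ := rat_full A A' w z h1 hsub r hr4 x₀ χ₁ χ N N' e1 e2 e3 e6 e7 e8 e9 k
    refine ⟨x, ?_⟩
    have h2 : χ₁ g₁ ^ m x = χ₁ g₁ ^ k := by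
      have h3 : (χ₁ g₁ ^ m x) • r.R x₀ g₁ = (χ₁ g₁ ^ k) • r.R x₀ g₁ := by
        rw [← hm1 x g₁, ← hx' g₁]
      exact smul_left_injective ℂ (hinv g₁) h3
    exact hprim.pow_inj (hm x) hk h2
  have hNc : ∀ y (e : d.D y), S.π z.1 (d.u y e) * N = N * S.π z.1 (d.u y e) := by
    intro y e
    have h2 : ι (d.u y e) = d.x y * κ (d.v y e) * (d.x y)⁻¹ := by
      rw [← d.comm y e, mul_assoc, mul_inv_cancel, mul_one]
    obtain ⟨h', hh'⟩ := hN'.conj_mem (κ (d.v y e)) ⟨d.v y e, rfl⟩ (d.x y)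
    have h3 : χ (ι (d.u y e)) = 1 := by rw [h2, ← hh']; exact e6 h'
    have h4 := e9 (ι (d.u y e))
    rw [e3, h3, one_smul, one_smul, hr2] at h4
    exact h4
  have hbr : ∀ y, ∃ n : (T y).I → ℂ, (∀ k, (bu y).M z.1 k → n k ^ κ.range.index = c) ∧
      ∀ (m : ℕ) {J : Type} (Q : Matrix (S.D z.1) J ℂ) (k : (T y).I) (a : (T y).D k)
        (μ : (bu y).M z.1 k) (y' : J), ((bu y).B' z.1 * (N ^ m * Q)) ⟨k, (a, μ)⟩ y' =
          n k ^ m * ((bu y).B' z.1 * Q) ⟨k, (a, μ)⟩ y' := by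
    intro y
    refine br_pow (bu y) z.1 (fun k => ?_) N (hNc y) κ.range.index c e12
    rcases u_range d hN' hp' y with ht' | ⟨ht1, ht2⟩
    · exact mult_top (d.uinj y) ht' (brAd (bu y)) z.1 k
    · exact mult_le (d.uinj y) ht1 ht2 (brAd (bu y)) z.1 k
  choose n hn1 hn2 using hbr
  have hYk : ∀ x (k : KW d T bu bv z), Y z x k =
      sc x * (χ (d.x k.1) * n k.1 k.2.1) ^ m x * Y z x₀ k := by
    intro x k
    obtain ⟨y, k, μ, ν⟩ := k
    have c₀ : (T y).D k := Classical.arbitrary _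
    have hx1 := hY2 z x.1 x.2.1 x.2.2 y k μ ν c₀
    have hx2 := hY2 z x₀.1 x₀.2.1 x₀.2.2 y k μ ν c₀
    have hMX : MX A A' w x.1 (d.x y) x.2.1 x.2.2 = (sc x * χ (d.x y) ^ m x) •
        (N ^ m x * MX A A' w x₀.1 (d.x y) x₀.2.1 x₀.2.2) := by
      have h3 := rel_pow e9 (m x) (d.x y)
      rw [← hr1 x, ← hr1 x₀, hm1 x, hm2 x, Matrix.smul_mul, Matrix.mul_smul, smul_comm,
        ← Matrix.mul_assoc, ← Matrix.smul_mul, h3, Matrix.smul_mul, smul_smul, Matrix.mul_assoc]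
    change Y z x ⟨y, ⟨k, (μ, ν)⟩⟩ = sc x * (χ (d.x y) * n y k) ^ m x * Y z x₀ ⟨y, ⟨k, (μ, ν)⟩⟩
    have e14 : Y z x ⟨y, ⟨k, (μ, ν)⟩⟩ = ((bu y).B' z.1 * MX A A' w x.1 (d.x y) x.2.1 x.2.2 *
        (bv y).B z.2) ⟨k, (c₀, μ)⟩ ⟨k, (c₀, ν)⟩ := hx1.symm
    have e15 : Y z x₀ ⟨y, ⟨k, (μ, ν)⟩⟩ = ((bu y).B' z.1 *
        MX A A' w x₀.1 (d.x y) x₀.2.1 x₀.2.2 *
        (bv y).B z.2) ⟨k, (c₀, μ)⟩ ⟨k, (c₀, ν)⟩ := hx2.symm
    rw [e14, e15, hMX, Matrix.mul_smul, Matrix.smul_mul, Matrix.smul_apply, Matrix.mul_assoc,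
      Matrix.mul_assoc (N ^ m x), hn2 y (m x), smul_eq_mul, mul_pow, Matrix.mul_assoc]
    ring
  have hdd : ∀ k : KW d T bu bv z, (χ (d.x k.1) * n k.1 k.2.1) ^ κ.range.index = c := by
    intro k
    rw [mul_pow, char_one κ hN' χ e4 e5 e6, one_mul]
    exact hn1 k.1 k.2.1 k.2.2.1
  have hcard := rw_kw A A' w d T bu bv z
  have hBx := dft_block (Y z) hp' ht hFB m hm hmi hms sc x₀
    (fun k : KW d T bu bv z => χ (d.x k.1) * n k.1 k.2.1) c hc hdd hYk hcard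
    (Tw.rows A A' w (WW d T bu bv) Y hY z)
  have h5 := hBx.tensor_one (Y := S.D z.1 × S'.D z.2) ht
  have h6 : Matrix.kroneckerMap (· * ·) (Y z)
      (1 : Matrix (S.D z.1 × S'.D z.2) (S.D z.1 × S'.D z.2) ℂ) =
      Matrix.of fun (p : RW A A' w z × (S.D z.1 × S'.D z.2))
        (q : KW d T bu bv z × (S.D z.1 × S'.D z.2)) =>
        if p.2 = q.2 then Y z p.1 q.1 else 0 := by
    ext p q
    rw [Matrix.kroneckerMap_apply, Matrix.of_apply, Matrix.one_apply]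
    split_ifs with h
    · rw [mul_one]
    · rw [mul_zero]
  rw [h6]
  have h7 : K * ((Fintype.card (KW d T bu bv z) : ℝ) * (Fintype.card (S.D z.1 × S'.D z.2) : ℝ)) =
      (Fintype.card (S.D z.1 × S'.D z.2) : ℝ) * (K * (Fintype.card (RW A A' w z) : ℝ)) := by
    rw [hcard]
    ring
  rw [h7]
  exact h5

end MP0775d3.Zf
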