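import Pool.Agent.Lib.MP_0775d3_lc.Zf.WA
import Pool.Agent.Lib.MP_0775d3_lc.Zf.DdN

/-! Project ZF: all double cosets. -/

set_option linter.unusedSectionVars false
set_option linter.unusedVariables false

namespace MP0775d3.Zf

open Matrix MP0775d3.Cf MP0775d3.Ox

variable {G H H' : Type} [Group G] [Group H] [Group H'] {ι : H →* G} {κ : H' →* G} {S : Sys H}
  {S' : Sys H'} (d : Dd ι κ) (T : ∀ y, Sys (d.D y)) (bu : ∀ y, Br (d.u y) S (T y))
  (bv : ∀ y, Br (d.v y) S' (T y))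

/-- The rows of the block diagonal matrix. -/
private def wbF (z : Σ z : S.I × S'.I, (S.D z.1 × S'.D z.2) × KW d T bu bv z) :
    Σ y, (Σ z : S.I × S'.I, (S.D z.1 × S'.D z.2) × (Σ k, (bu y).M z.1 k × (bv y).M z.2 k)) :=
  ⟨z.2.2.1, ⟨z.1, (z.2.1, z.2.2.2)⟩⟩

private theorem wbF_inj : Function.Injective (wbF d T bu bv) :=
  Function.LeftInverse.injective
    (g := fun p => (⟨p.2.1, (p.2.2.1, ⟨p.1, p.2.2.2⟩)⟩ :
      Σ z : S.I × S'.I, (S.D z.1 × S'.D z.2) × KW d T bu bv z)) fun _ => rfl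

/-- PROOF. As `Ox.dcW_bx` (file Ox/DcN.lean). The rows of `WW` are a disjoint union over `y` of the rows of
`Wz (bu y) (bv y) (d.r y)`; on the columns of the double coset `y` the matrix is that one, between different `y` it is zero:
`bx_sigma`, `Bx.submatrix` along `⟨z, (ab, ⟨y, κ⟩)⟩ ↦ ⟨y, ⟨z, (ab, κ)⟩⟩` and `g ↦ (Equiv.ofBijective _ d.bij').symm g`;
`dd_card`. -/
theorem ww_bx [Finite G] [Finite H] {K s : ℝ} {t : ℕ} (hK : 0 ≤ K)
    (h : ∀ y, Bx (K * (Nat.card H * Fintype.card (d.R y))) s t (Wz (bu y) (bv y) (d.r y))) :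
    Bx (K * Nat.card G) s t (WW d T bu bv) := by
  have h1 := bx_sigma h
  have h2 : ∑ y, K * (Nat.card H * Fintype.card (d.R y) : ℝ) = K * Nat.card G := by
    rw [← Finset.mul_sum, ← dd_card d]
    push_cast
    rfl
  rw [h2] at h1
  have h3 : WW d T bu bv =
      (Matrix.blockDiagonal' fun y => Wz (bu y) (bv y) (d.r y)).submatrix (wbF d T bu bv)
        (Equiv.ofBijective _ d.bij').symm := by
    ext z g
    obtain ⟨z, ab, y, κ⟩ := z
    rw [Matrix.submatrix_apply]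
    unfold WW
    rw [Matrix.of_apply]
    generalize (Equiv.ofBijective _ d.bij').symm g = q
    obtain ⟨y', h', ρ⟩ := q
    change _ = Matrix.blockDiagonal' (fun y => Wz (bu y) (bv y) (d.r y)) ⟨y, ⟨z, (ab, κ)⟩⟩
      ⟨y', (h', ρ)⟩
    by_cases hy : y = y'
    · subst hy
      rw [Matrix.blockDiagonal'_apply_eq, if_pos rfl]
      rfl
    · rw [Matrix.blockDiagonal'_apply_ne _ _ _ hy]
      exact if_neg hy
  rw [h3]
  exact h1.submatrix (wbF_inj d T bu bv) (Equiv.injective _)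

end MP0775d3.Zf
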