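import Pool.Agent.Lib.MP_0775d3_lc.Zf.PrH
import Pool.Agent.Lib.MP_0775d3_lc.Zf.WB

/-! Project ZF: the step. -/

set_option linter.unusedSectionVars false
set_option linter.unusedVariables false

namespace MP0775d3.Zf

open Matrix MP0775d3.Cf MP0775d3.Ox

variable {G H H' : Type} [Group G] [Group H] [Group H'] {ι : H →* G} {κ : H' →* G} {S : Sys H}
  {S' : Sys H'} (A : Ad ι S) (A' : Ad κ S') (w : Iw A.sys A'.sys) (d : Dd ι κ)
  (T : ∀ y, Sys (d.D y)) (bu : ∀ y, Br (d.u y) S (T y)) (bv : ∀ y, Br (d.v y) S' (T y))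

/-- PROOF. If not both subgroups are normal of prime index then `|RW z| ≤ b`: `ad_sq` and `rw_small` (both of index at most `b`),
`rw_left`, `rw_right` with `mult_le` (one of them); `|KW z| = |RW z|` (`rw_kw`): one block (`blk_of_labels` or `blk_sum`, or
`bx_of_blk` for `Y z` with `blk_card` and `Bx.tensor_one`), `Bx.mono`, `1 ≤ K`. Else `pp_block`. -/
theorem y_block [Finite G] [Finite H] [Finite H'] {K b s N : ℝ} {t₁ : ℕ} (hK : 1 ≤ K)
    (hb : 1 ≤ b) (hbs : b ≤ s) (ht₁ : 1 ≤ t₁) (hFP : FP K N s t₁) (hG : (Nat.card G : ℝ) ≤ N)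
    (hι : Stp b ι) (hκ : Stp b κ)
    {Y : ∀ z : S.I × S'.I, Matrix (RW A A' w z) (KW d T bu bv z) ℂ}
    (hY : Tw A A' w (WW d T bu bv) Y) (hY2 : ∀ (z : S.I × S'.I) (l : A.I) (p : A.P l z.1)
      (q : A'.P (w.e l) z.2) (y : d.X) (k : (T y).I) (μ : (bu y).M z.1 k) (ν : (bv y).M z.2 k)
      (c : (T y).D k), ((bu y).B' z.1 * MX A A' w l (d.x y) p q * (bv y).B z.2) ⟨k, (c, μ)⟩
        ⟨k, (c, ν)⟩ = Y z ⟨l, (p, q)⟩ ⟨y, ⟨k, (μ, ν)⟩⟩) (z : S.I × S'.I) :
    Bx (K * (Fintype.card (KW d T bu bv z) * Fintype.card (S.D z.1 × S'.D z.2))) s t₁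
      (Matrix.kroneckerMap (· * ·) (Y z)
        (1 : Matrix (S.D z.1 × S'.D z.2) (S.D z.1 × S'.D z.2) ℂ)) := by
  have hs : 1 ≤ s := hb.trans hbs
  have small : (Fintype.card (RW A A' w z) : ℝ) ≤ b →
      Bx (K * (Fintype.card (KW d T bu bv z) * Fintype.card (S.D z.1 × S'.D z.2))) s t₁
        (Matrix.kroneckerMap (· * ·) (Y z)
          (1 : Matrix (S.D z.1 × S'.D z.2) (S.D z.1 × S'.D z.2) ℂ)) := by
    intro h
    have h0 := rw_kw A A' w d T bu bv z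
    have h1 : (Fintype.card (KW d T bu bv z) : ℝ) ≤ s := by
      rw [← h0]
      exact h.trans hbs
    have h2 : Bx (Fintype.card (KW d T bu bv z) : ℝ) s 1 (Y z) :=
      bx_of_blk (blk_card (h.trans hbs) h1 (Y z)) hs (by rw [h0]) le_rfl
    have h3 := h2.tensor_one (Y := S.D z.1 × S'.D z.2) le_rfl
    have h4 : Matrix.kroneckerMap (· * ·) (Y z)
        (1 : Matrix (S.D z.1 × S'.D z.2) (S.D z.1 × S'.D z.2) ℂ) =
        Matrix.of fun (p : RW A A' w z × (S.D z.1 × S'.D z.2))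
          (q : KW d T bu bv z × (S.D z.1 × S'.D z.2)) => if p.2 = q.2 then Y z p.1 q.1 else 0 := by
      ext p q
      rw [Matrix.kroneckerMap_apply, Matrix.one_apply, mul_ite, mul_one, mul_zero,
        Matrix.of_apply]
    rw [h4]
    refine h3.mono ?_ le_rfl ht₁ hs
    have h5 : (0 : ℝ) ≤ (Fintype.card (KW d T bu bv z) : ℝ) *
        Fintype.card (S.D z.1 × S'.D z.2) := by positivity
    nlinarith
  rcases hι.2 with hi | ⟨hN, hp⟩
  · have h1 : ∀ i, ∑ l, (Fintype.card (A.P l i) : ℝ) ^ 2 ≤ b := fun i =>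
      (ad_sq hι.1 A i).trans hi
    rcases hκ.2 with hk | ⟨hN', hp'⟩
    · have h2 : ∀ j, ∑ l, (Fintype.card (A'.P l j) : ℝ) ^ 2 ≤ b := fun j =>
        (ad_sq hκ.1 A' j).trans hk
      exact small (rw_small A A' w h1 h2 z)
    · exact small (rw_right A A' w h1 (fun l j => mult_le hκ.1 hN' hp' A' l j) z)
  · rcases hκ.2 with hk | ⟨hN', hp'⟩
    · have h2 : ∀ j, ∑ l, (Fintype.card (A'.P l j) : ℝ) ^ 2 ≤ b := fun j =>
        (ad_sq hκ.1 A' j).trans hk
      exact small (rw_left A A' w (fun l i => mult_le hι.1 hN hp A l i) h2 z)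
    · have h3 : (κ.range.index : ℝ) ≤ N := by
        refine le_trans ?_ hG
        exact_mod_cast Nat.le_of_dvd Nat.card_pos κ.range.index_dvd_card
      rcases pp_block A A' w d T bu bv hι.1 hκ.1 hN hp hN' hp' ht₁ (hFP _ hp' h3) hY hY2 z
        with h4 | h4
      · refine small (le_trans ?_ hb)
        exact_mod_cast h4
      · exact h4

/-- PROOF. `dd_two` gives `Y`; `wz_bx` for every `y` (`d.uinj`, `d.bij`), `ww_bx`; `Tw.bx` with
`wz z = K * (|KW z| * |S.D z.1 × S'.D z.2|)`, `y_block`, and `kw_sum` for the sum. -/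
theorem step [Finite G] [Finite H] [Finite H'] {K b s N : ℝ} {t₁ ta tb tc : ℕ} (hK : 1 ≤ K)
    (hb : 1 ≤ b) (hbs : b ≤ s) (ht₁ : 1 ≤ t₁) (hFP : FP K N s t₁) (hG : (Nat.card G : ℝ) ≤ N)
    (hι : Stp b ι) (hκ : Stp b κ) (hta : 1 ≤ ta) (htc : 1 ≤ tc)
    (h1 : ∀ y, Bx (K * Nat.card H) s ta (brL (bu y)).F)
    (h2 : ∀ y, Bx (K * Nat.card H') s tb (brR (bv y)).F)
    (h3 : ∀ y, Bx (K * Nat.card (d.D y)) s tc (T y).F) :
    Bx (K * Nat.card G) s (ta + tb + tc + t₁ + 3) w.F := by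
  have hs : 1 ≤ s := hb.trans hbs
  have hK0 : 0 ≤ K := by linarith
  obtain ⟨Y, hY, hY2⟩ := dd_two A A' w d T bu bv
  have hW := ww_bx d T bu bv hK0 fun y =>
    wz_bx (bu y) (bv y) (d.r y) (d.uinj y) (d.bij y) hK0 hs hta htc (h1 y) (h2 y) (h3 y)
  have hsum : ∑ z : S.I × S'.I, K * ((Fintype.card (KW d T bu bv z) : ℝ) *
      Fintype.card (S.D z.1 × S'.D z.2)) ≤ K * Nat.card G := by
    rw [← Finset.mul_sum, ← kw_sum d T bu bv]
    refine mul_le_mul_of_nonneg_left (le_of_eq ?_) hK0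
    push_cast
    refine Finset.sum_congr rfl fun z _ => ?_
    rw [Fintype.card_prod, Nat.cast_mul]
  have h := hY.bx A A' w (WW d T bu bv) Y hs hW _ hsum
    (y_block A A' w d T bu bv hK hb hbs ht₁ hFP hG hι hκ hY hY2)
  have ht : t₁ + (ta + tb + tc + 2) + 1 = ta + tb + tc + t₁ + 3 := by ring
  rw [ht] at h
  exact h

end MP0775d3.Zf
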