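import Pool.Agent.Lib.MP_0775d3_lc.Zf.JA

/-! Project ZF: one double coset. -/

set_option linter.unusedSectionVars false
set_option linter.unusedVariables false

namespace MP0775d3.Zf

open Matrix MP0775d3.Cf MP0775d3.Ox

variable {H H' D : Type} [Group H] [Group H'] [Group D] {u : D →* H} {v : D →* H'} {S : Sys H}
  {S' : Sys H'} {T : Sys D} (bu : Br u S T) (bv : Br v S' T) {R : Type} [Fintype R]
  [DecidableEq R] (r : R → H')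

/-- The matrix of the two-sided coordinates of the functions on `H × R`. -/
def Wz : Matrix (Σ z : S.I × S'.I, (S.D z.1 × S'.D z.2) × (Σ k, bu.M z.1 k × bv.M z.2 k))
    (H × R) ℂ := Matrix.of fun z q =>
  ∑ c : T.D z.2.2.1, (S.π z.1.1 q.1 * bu.B z.1.1) z.2.1.1 ⟨z.2.2.1, (c, z.2.2.2.1)⟩ *
    (bv.B' z.1.2 * S'.π z.1.2 (r q.2)) ⟨z.2.2.1, (c, z.2.2.2.2)⟩ z.2.1.2

/-- The first layer, `F ⊗ 1`, with the rows arranged by `k`. -/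
def WL : Matrix (Σ k, (Σ i, S.D i × bu.M i k) × (T.D k × R)) (H × R) ℂ := Matrix.of fun z q =>
  if z.2.2.2 = q.2 then (S.π z.2.1.1 q.1 * bu.B z.2.1.1) z.2.1.2.1 ⟨z.1, (z.2.2.1, z.2.1.2.2)⟩
  else 0

/-- PROOF. `Bx.tensor_one` of `(brL bu).F` with `Y = R`, rows read at
`⟨k, (⟨i, (a, μ)⟩, (c, ρ))⟩ ↦ (⟨i, (a, ⟨k, (c, μ)⟩)⟩, ρ)` (injective): `Bx.submatrix`. -/
theorem wl_bx {K s : ℝ} {t₁ : ℕ} (ht₁ : 1 ≤ t₁) (h1 : Bx (K * Nat.card H) s t₁ (brL bu).F) :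
    Bx (K * (Nat.card H * Fintype.card R)) s t₁ (WL bu (R := R)) := by
  have h2 := h1.tensor_one (Y := R) ht₁
  have h3 : (Fintype.card R : ℝ) * (K * Nat.card H) = K * (Nat.card H * Fintype.card R) := by ring
  rw [h3] at h2
  refine h2.submatrix (f := fun z : (Σ k, (Σ i, S.D i × bu.M i k) × (T.D k × R)) =>
    ((⟨z.2.1.1, (z.2.1.2.1, (⟨z.1, (z.2.2.1, z.2.1.2.2)⟩ : Σ k, T.D k × bu.M z.2.1.1 k))⟩ :
      Σ i, S.D i × (Σ k, T.D k × bu.M i k)), z.2.2.2)) ?_ Function.injective_id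
  rintro ⟨k, ⟨i, a, μ⟩, c, ρ⟩ ⟨k', ⟨i', a', μ'⟩, c', ρ'⟩ h
  obtain ⟨h4, h5⟩ := Prod.mk.inj h
  have h5' : ρ = ρ' := h5
  obtain ⟨hi, h6⟩ := Sigma.mk.inj h4
  have hi' : i = i' := hi
  subst hi'
  obtain ⟨ha, h7⟩ := Prod.mk.inj (eq_of_heq h6)
  have ha' : a = a' := ha
  obtain ⟨hk, h8⟩ := Sigma.mk.inj h7
  have hk' : k = k' := hk
  subst hk'
  obtain ⟨hc, hμ⟩ := Prod.mk.inj (eq_of_heq h8)
  have hc' : c = c' := hc
  have hμ' : μ = μ' := hμ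
  rw [h5', ha', hc', hμ']

/-- PROOF. Rows of the first factor read at `⟨(i, j), ((a, b), ⟨k, (μ, ν)⟩)⟩ ↦ ⟨k, (⟨i, (a, μ)⟩, ⟨j, (ν, b)⟩)⟩`; in the sum over
`⟨k₁, (e, (c, ρ))⟩` only `k₁ = k`, `e = ⟨i, (a, μ)⟩` and `ρ = q.2` contribute (`Matrix.blockDiagonal'_apply_eq`,
`blockDiagonal'_apply_ne`, `Matrix.one_apply`). -/
theorem wz_eq : Wz bu bv r = (JE bv r (fun k => Σ i, S.D i × bu.M i k) * WL bu (R := R)).submatrix
    (fun z => ⟨z.2.2.1, (⟨z.1.1, (z.2.1.1, z.2.2.2.1)⟩, ⟨z.1.2, (z.2.2.2.2, z.2.1.2)⟩)⟩) id := by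
  ext z q
  obtain ⟨⟨i, j⟩, ⟨a, b⟩, ⟨k, μ, ν⟩⟩ := z
  rw [submatrix_apply, Matrix.mul_apply]
  let e : T.D k → (Σ k, (Σ i, S.D i × bu.M i k) × (T.D k × R)) :=
    fun c => ⟨k, (⟨i, (a, μ)⟩, (c, q.2))⟩
  refine Fintype.sum_of_injective e ?_ _ _ ?_ ?_
  · intro c c' h
    have h1 := eq_of_heq (Sigma.mk.inj h).2
    exact (Prod.mk.inj (Prod.mk.inj h1).2).1
  · rintro ⟨k₁, x, c₁, ρ₁⟩ hw
    change JE bv r (fun k => Σ i, S.D i × bu.M i k) ⟨k, (⟨i, (a, μ)⟩, ⟨j, (ν, b)⟩)⟩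
      ⟨k₁, (x, (c₁, ρ₁))⟩ * WL bu (R := R) ⟨k₁, (x, (c₁, ρ₁))⟩ q = 0
    by_cases hk : k = k₁
    · subst hk
      by_cases hx : (⟨i, (a, μ)⟩ : Σ i, S.D i × bu.M i k) = x
      · by_cases hρ : ρ₁ = q.2
        · exact absurd ⟨c₁, by rw [← hx, hρ]⟩ hw
        · have h0 : WL bu (R := R) ⟨k, (x, (c₁, ρ₁))⟩ q = 0 := if_neg hρ
          rw [h0, mul_zero]
      · have h0 : JE bv r (fun k => Σ i, S.D i × bu.M i k) ⟨k, (⟨i, (a, μ)⟩, ⟨j, (ν, b)⟩)⟩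
            ⟨k, (x, (c₁, ρ₁))⟩ = 0 := by
          unfold JE
          rw [Matrix.blockDiagonal'_apply_eq, Matrix.kroneckerMap_apply, Matrix.one_apply_ne hx,
            zero_mul]
        rw [h0, zero_mul]
    · have h0 : JE bv r (fun k => Σ i, S.D i × bu.M i k) ⟨k, (⟨i, (a, μ)⟩, ⟨j, (ν, b)⟩)⟩
          ⟨k₁, (x, (c₁, ρ₁))⟩ = 0 := by
        unfold JE
        exact Matrix.blockDiagonal'_apply_ne _ _ _ hk
      rw [h0, zero_mul]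
  · intro c
    have h0 : JE bv r (fun k => Σ i, S.D i × bu.M i k) ⟨k, (⟨i, (a, μ)⟩, ⟨j, (ν, b)⟩)⟩
        ⟨k, (⟨i, (a, μ)⟩, (c, q.2))⟩ = (bv.B' j * S'.π j (r q.2)) ⟨k, (c, ν)⟩ b := by
      unfold JE
      rw [Matrix.blockDiagonal'_apply_eq, Matrix.kroneckerMap_apply, Matrix.one_apply_eq, one_mul]
      rfl
    have h1 : WL bu (R := R) ⟨k, (⟨i, (a, μ)⟩, (c, q.2))⟩ q =
        (S.π i q.1 * bu.B i) a ⟨k, (c, μ)⟩ := if_pos rfl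
    change (S.π i q.1 * bu.B i) a ⟨k, (c, μ)⟩ * (bv.B' j * S'.π j (r q.2)) ⟨k, (c, ν)⟩ b =
      JE bv r (fun k => Σ i, S.D i × bu.M i k) ⟨k, (⟨i, (a, μ)⟩, ⟨j, (ν, b)⟩)⟩
        ⟨k, (⟨i, (a, μ)⟩, (c, q.2))⟩ * WL bu (R := R) ⟨k, (⟨i, (a, μ)⟩, (c, q.2))⟩ q
    rw [h0, h1, mul_comm]

/-- PROOF. With `q = |H| / |D|`: `|Σ i, S.D i × bu.M i k| = q * |T.D k|` (`Br.count`, `|D|` divides `|H|`:
`Subgroup.card_subgroup_dvd_card` for `u.range`), `q * |H'| = |H| * |R|` (`hr`). `je_bx`, `je_copies`, `wl_bx`, `wz_eq`, `Bx.mul`,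
`Bx.submatrix` (the row map is injective). -/
theorem wz_bx [Finite H] [Finite H'] (hu : Function.Injective u)
    (hr : Function.Bijective fun p : D × R => v p.1 * r p.2) {K s : ℝ} {t₁ t₂ t₃ : ℕ}
    (hK : 0 ≤ K) (hs : 1 ≤ s) (ht₁ : 1 ≤ t₁) (ht₃ : 1 ≤ t₃)
    (h1 : Bx (K * Nat.card H) s t₁ (brL bu).F) (h2 : Bx (K * Nat.card H') s t₂ (brR bv).F)
    (h3 : Bx (K * Nat.card D) s t₃ T.F) :
    Bx (K * (Nat.card H * Fintype.card R)) s (t₁ + t₂ + t₃ + 2) (Wz bu bv r) := by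
  have hD : Finite D := Finite.of_injective u hu
  have h0 : 0 < Nat.card D := Nat.card_pos
  obtain ⟨q, hq⟩ : Nat.card D ∣ Nat.card H := by
    have h4 := Subgroup.card_subgroup_dvd_card u.range
    rwa [← Nat.card_congr (MonoidHom.ofInjective hu).toEquiv] at h4
  have hH' : Nat.card H' = Nat.card D * Fintype.card R := by
    rw [← Nat.card_congr (Equiv.ofBijective _ hr), Nat.card_prod, Nat.card_eq_fintype_card (α := R)]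
  have hE : ∀ k, Fintype.card (Σ i, S.D i × bu.M i k) = q * Fintype.card (T.D k) := by
    intro k
    have h4 := bu.count hu k
    rw [hq, mul_assoc, mul_comm _ (Nat.card D)] at h4
    have h5 := Nat.eq_of_mul_eq_mul_left h0 h4
    rw [Fintype.card_sigma, ← h5]
    exact Finset.sum_congr rfl fun i _ => Fintype.card_prod _ _
  have hJ := je_copies bv r hE (by omega) (je_bx bv r hr hK hs ht₃ h2 h3)
  have hw : (q : ℝ) * (K * Nat.card H') = K * (Nat.card H * Fintype.card R) := by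
    rw [hH', hq]
    push_cast
    ring
  rw [hw] at hJ
  have h4 := hJ.mul (wl_bx bu (R := R) ht₁ h1) hs
  have h5 := h4.submatrix (f := fun z : (Σ z : S.I × S'.I, (S.D z.1 × S'.D z.2) ×
      (Σ k, bu.M z.1 k × bv.M z.2 k)) => (⟨z.2.2.1, (⟨z.1.1, (z.2.1.1, z.2.2.2.1)⟩,
        ⟨z.1.2, (z.2.2.2.2, z.2.1.2)⟩)⟩ : Σ k, (Σ i, S.D i × bu.M i k) × (Σ j, bv.M j k × S'.D j)))
    (g := (id : H × R → H × R)) ?_ Function.injective_id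
  · rw [wz_eq bu bv r]
    have h6 : t₂ + t₃ + 1 + t₁ + 1 = t₁ + t₂ + t₃ + 2 := by ring
    rw [h6] at h5
    exact h5
  · rintro ⟨⟨i, j⟩, ⟨a, b⟩, ⟨k, μ, ν⟩⟩ ⟨⟨i', j'⟩, ⟨a', b'⟩, ⟨k', μ', ν'⟩⟩ h
    obtain ⟨hk, h7⟩ := Sigma.mk.inj h
    have hk' : k = k' := hk
    subst hk'
    obtain ⟨h8, h9⟩ := Prod.mk.inj (eq_of_heq h7)
    obtain ⟨hi, h10⟩ := Sigma.mk.inj h8
    have hi' : i = i' := hi
    subst hi'
    obtain ⟨hj, h11⟩ := Sigma.mk.inj h9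
    have hj' : j = j' := hj
    subst hj'
    obtain ⟨ha, hμ⟩ := Prod.mk.inj (eq_of_heq h10)
    obtain ⟨hν, hb⟩ := Prod.mk.inj (eq_of_heq h11)
    have ha' : a = a' := ha
    have hμ' : μ = μ' := hμ
    have hν' : ν = ν' := hν
    have hb' : b = b' := hb
    rw [ha', hμ', hν', hb']

end MP0775d3.Zf
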